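import Pool.Agent.H73AR.Stm

/-!
# Artin groups: basic constructions
-/

set_option autoImplicit false

namespace Pool.Agent.H73AR

open Pool.Agent.Y110.FJ (ClosedE)
open Pool.Agent.Y462.SS (Closed Wr)

theorem map_alt {G H F : Type} [Monoid G] [Monoid H] [FunLike F G H] [MonoidHomClass F G H] (f : F)
    (x y : G) (n : ℕ) : f (alt x y n) = alt (f x) (f y) n := by
  induction n generalizing x y with
  | zero => exact map_one f
  | succ n ih =>
    show f (x * alt y x n) = f x * alt (f y) (f x) n
    rw [map_mul, ih]

theorem alt_swap {G : Type} [Group G] (n : ℕ) : ∀ x y : G, x * x = 1 → y * y = 1 →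
    alt x y n = (x * y) ^ n * alt y x n := by
  induction n with
  | zero =>
    intro x y _ _
    simp [alt]
  | succ n ih =>
    intro x y hx hy
    have h1 : alt y x n = (y * x) ^ n * alt x y n := ih y x hy hx
    have h2 : x * (y * x) ^ n = (x * y) ^ n * x := by
      clear ih h1
      induction n with
      | zero => simp
      | succ n ih =>
        rw [pow_succ, ← mul_assoc, ih, pow_succ]
        simp only [mul_assoc]
    show x * alt y x n = (x * y) ^ (n + 1) * (y * alt x y n)
    rw [h1, ← mul_assoc, h2, pow_succ]
    calc (x * y) ^ n * x * alt x y n = (x * y) ^ n * x * (y * y) * alt x y n := by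
          rw [hy, mul_one]
      _ = (x * y) ^ n * (x * y) * (y * alt x y n) := by simp only [mul_assoc]

theorem alt_rel {G : Type} [Group G] {x y : G} (hx : x * x = 1) (hy : y * y = 1) {n : ℕ}
    (h : (x * y) ^ n = 1) : alt x y n = alt y x n := by
  rw [alt_swap n x y hx hy, h, one_mul]

section lift

variable {B : Type} {M : CoxeterMatrix B}

theorem sig_rel {a b : B} (h : M a b ≠ 0) :
    alt (sig M a) (sig M b) (M a b) = alt (sig M b) (sig M a) (M a b) := by
  have h1 : (PresentedGroup.mk (braidRel M)) (alt (FreeGroup.of a) (FreeGroup.of b) (M a b) *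
      (alt (FreeGroup.of b) (FreeGroup.of a) (M a b))⁻¹) = 1 := by
    apply (QuotientGroup.eq_one_iff _).2
    exact Subgroup.subset_normalClosure ⟨a, b, h, rfl⟩
  rw [map_mul, map_inv, mul_inv_eq_one, map_alt, map_alt] at h1
  exact h1

/-- the universal property -/
def alift {G : Type} [Group G] (f : B → G)
    (h : ∀ a b, M a b ≠ 0 → alt (f a) (f b) (M a b) = alt (f b) (f a) (M a b)) : Art M →* G :=
  PresentedGroup.toGroup (f := f) (by
    rintro r ⟨a, b, hab, rfl⟩
    rw [map_mul, map_inv, map_alt, map_alt, FreeGroup.lift_apply_of, FreeGroup.lift_apply_of,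
      h a b hab, mul_inv_cancel])

theorem alift_sig {G : Type} [Group G] (f : B → G)
    (h : ∀ a b, M a b ≠ 0 → alt (f a) (f b) (M a b) = alt (f b) (f a) (M a b)) (b : B) :
    alift f h (sig M b) = f b := PresentedGroup.toGroup.of _

theorem aext {G : Type} [Group G] {f g : Art M →* G} (h : ∀ b, f (sig M b) = g (sig M b)) :
    f = g := PresentedGroup.ext h

theorem aclosure : Subgroup.closure (Set.range (sig M)) = ⊤ :=
  PresentedGroup.closure_range_of _

/-- induction -/
theorem aind {P : Art M → Prop} (one : P 1) (mul : ∀ b x, P x → P (sig M b * x))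
    (inv_mul : ∀ b x, P x → P ((sig M b)⁻¹ * x)) (x : Art M) : P x := by
  have hx : x ∈ Subgroup.closure (Set.range (sig M)) := by rw [aclosure]; exact Subgroup.mem_top x
  induction hx using Subgroup.closure_induction_left with
  | one => exact one
  | mul_left y hy z hz ih =>
    obtain ⟨b, rfl⟩ := hy
    exact mul b z ih
  | inv_mul_cancel y hy z hz ih =>
    obtain ⟨b, rfl⟩ := hy
    exact inv_mul b z ih

end lift

section maps

variable {S T : Type} {M : CoxeterMatrix S} {M' : CoxeterMatrix T}

/-- the homomorphism given by a map which preserves the labels -/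
def amap (ι : S → T) (h : ∀ x y, M' (ι x) (ι y) = M x y) : Art M →* Art M' :=
  alift (fun x => sig M' (ι x)) (fun a b hab => by
    rw [← h] at hab ⊢
    exact sig_rel hab)

theorem amap_sig (ι : S → T) (h : ∀ x y, M' (ι x) (ι y) = M x y) (x : S) :
    amap ι h (sig M x) = sig M' (ι x) := alift_sig _ _ x

/-- the isomorphism given by a bijection which preserves the labels -/
def aequiv (ι : S ≃ T) (h : ∀ x y, M' (ι x) (ι y) = M x y) : Art M ≃* Art M' :=
  MonoidHom.toMulEquiv (amap ι h)
    (amap (M := M') (M' := M) ι.symm (fun x y => by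
      rw [← h, ι.apply_symm_apply, ι.apply_symm_apply]))
    (aext fun x => by
      rw [MonoidHom.comp_apply, amap_sig, amap_sig, ι.symm_apply_apply]
      rfl)
    (aext fun x => by
      rw [MonoidHom.comp_apply, amap_sig, amap_sig, ι.apply_symm_apply]
      rfl)

theorem aequiv_sig (ι : S ≃ T) (h : ∀ x y, M' (ι x) (ι y) = M x y) (x : S) :
    aequiv ι h (sig M x) = sig M' (ι x) := amap_sig ι h x

end maps

section incl

variable {B : Type} (M : CoxeterMatrix B)

/-- the canonical homomorphism of a parabolic part -/
def inc (T : Set B) : Art (rest M T) →* Art M := amap (fun x : T => x.1) (fun _ _ => rfl)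

theorem inc_sig (T : Set B) (t : T) : inc M T (sig (rest M T) t) = sig M t.1 := amap_sig _ _ t

/-- the homomorphism to the Coxeter group -/
def toW : Art M →* M.Group :=
  alift (fun b => M.toCoxeterSystem.simple b) (fun a b _ =>
    alt_rel (M.toCoxeterSystem.simple_mul_simple_self a) (M.toCoxeterSystem.simple_mul_simple_self b)
      (M.toCoxeterSystem.simple_mul_simple_pow a b))

theorem toW_sig (b : B) : toW M (sig M b) = M.toCoxeterSystem.simple b := alift_sig _ _ b

theorem toW_surjective : Function.Surjective (toW M) := by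
  intro w
  induction w using M.toCoxeterSystem.simple_induction_left with
  | one => exact ⟨1, map_one _⟩
  | mul_simple_left w i ih =>
    obtain ⟨x, rfl⟩ := ih
    exact ⟨sig M i * x, by rw [map_mul, toW_sig]⟩

end incl

/-- an Artin group whose parabolic part on `T` is isomorphic to the Artin group of `M'` -/
theorem C_rest_equiv {C : ∀ (G : Type) [Group G], Prop} (hC : Closed C) {S T : Type}
    {M : CoxeterMatrix S} {M' : CoxeterMatrix T} (ι : S ≃ T) (h : ∀ x y, M' (ι x) (ι y) = M x y)
    (h' : C (Art M')) : C (Art M) :=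
  hC.of_injective _ _ (aequiv ι h).toMonoidHom (aequiv ι h).injective h'

end Pool.Agent.H73AR
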