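import Pool.Agent.H73AR.CP1

/-!
# The Charney–Paris homomorphism, part 2: the braid relations
-/

set_option autoImplicit false

namespace Pool.Agent.H73AR

open Pool.Agent.Y462.SS (Wr)
open Pool.Agent.R676.Cox
open Pool.Agent.Helper741 (qs cc cc_symm qs_sin sin_pos_of_ne two_le_of_ne)

variable {B W : Type} [Group W] {M : CoxeterMatrix B} (cs : CoxeterSystem M W) (T : Set B)

open Classical in
/-- the section -/
noncomputable def oo (b : B) (x : W ⧸ Par cs T) : Art (rest M T) :=
  if h : ∃ t : T, geo cs (rp cs T x) (ee t.1) = ee b then sig (rest M T) h.choose else 1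

/-- the image of the generator -/
noncomputable def gg (b : B) : Wr (W ⧸ Par cs T) (Art (rest M T)) :=
  ⟨oo cs T b, MulAction.toPermHom W (W ⧸ Par cs T) (cs.simple b)⟩

variable {cs T}

theorem gg_p (b : B) (v : W) :
    (gg cs T b).p (QuotientGroup.mk v) = QuotientGroup.mk (cs.simple b * v) := rfl

theorem oo_of {v : W} (hv : Mn cs T v) {b : B} (t : T) (h : geo cs v (ee t.1) = ee b) :
    (gg cs T b).s (QuotientGroup.mk v) = sig (rest M T) t := by
  show oo cs T b (QuotientGroup.mk v) = _
  have h1 : ∃ t : T, geo cs (rp cs T (QuotientGroup.mk v)) (ee t.1) = ee b := by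
    rw [rp_eq hv]
    exact ⟨t, h⟩
  unfold oo
  rw [dif_pos h1]
  have h2 : ∀ t' : T, geo cs (rp cs T (QuotientGroup.mk v)) (ee t'.1) = ee b → t' = t := by
    intro t' h3
    rw [rp_eq hv, ← h] at h3
    exact Subtype.ext (ee_inj (geo_injective_apply cs v h3))
  exact congrArg _ (h2 _ h1.choose_spec)

theorem oo_none {v : W} (hv : Mn cs T v) {b : B} (h : ∀ t ∈ T, geo cs v (ee t) ≠ ee b) :
    (gg cs T b).s (QuotientGroup.mk v) = 1 := by
  show oo cs T b (QuotientGroup.mk v) = _
  unfold oo
  rw [dif_neg]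
  rintro ⟨t, ht⟩
  rw [rp_eq hv] at ht
  exact h t.1 t.2 ht

theorem gg_fix {v : W} {b : B} {t : B} (ht : t ∈ T) (h : geo cs v (ee t) = ee b) :
    (gg cs T b).p (QuotientGroup.mk v) = QuotientGroup.mk v := by
  rw [gg_p, conj_of h, eq_comm, QuotientGroup.eq, inv_mul_cancel_left]
  exact simple_mem ht

/-- permutations -/
theorem altR_p {X A : Type} [Group A] (f g : Wr X A) (n : ℕ) :
    (altR f g n).p = altR f.p g.p n := by
  induction n generalizing f g with
  | zero => rfl
  | succ n ih =>
    rw [altR_succ, altR_succ, Wr.mul_p, ih]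

theorem map_altR {G H : Type} [Group G] [Group H] (φ : G →* H) (x y : G) (n : ℕ) :
    φ (altR x y n) = altR (φ x) (φ y) n := by
  induction n generalizing x y with
  | zero => exact map_one φ
  | succ n ih => rw [altR_succ, altR_succ, map_mul, ih]

theorem wordProd_altR (a b : B) (n : ℕ) :
    cs.wordProd (CoxeterSystem.alternatingWord a b n) = altR (cs.simple b) (cs.simple a) n := by
  induction n generalizing a b with
  | zero => simp [CoxeterSystem.alternatingWord, altR]
  | succ n ih =>
    rw [CoxeterSystem.alternatingWord_succ, cs.wordProd_concat, ih, altR_succ]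

theorem altR_W (a b : B) :
    altR (cs.simple a) (cs.simple b) (M a b) = altR (cs.simple b) (cs.simple a) (M a b) := by
  have h := cs.wordProd_braidWord_eq a b
  unfold CoxeterSystem.braidWord at h
  rw [wordProd_altR, wordProd_altR, M.symmetric b a] at h
  exact h.symm

/-- the labels from the bilinear form -/
theorem label_eq {a b c d : B} (hab : a ≠ b) (h0 : M a b ≠ 0) (h : cc M c d = cc M a b)
    (hcd : c ≠ d) : M c d = M a b := by
  have h2 := two_le_of_ne M hab h0
  have hp := Real.pi_pos
  have h3 : (2 : ℝ) ≤ (M a b : ℝ) := by exact_mod_cast h2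
  have hin1 : Real.pi / (M a b : ℝ) ∈ Set.Icc 0 Real.pi := by
    refine ⟨by positivity, ?_⟩
    rw [div_le_iff₀ (by linarith)]
    nlinarith
  by_cases h00 : M c d = 0
  · exfalso
    have h4 : cc M c d = 1 := Pool.Agent.Helper741.cc_of_zero M h00
    rw [h4] at h
    have h5 : Real.cos 0 = Real.cos (Real.pi / (M a b : ℝ)) := by rw [Real.cos_zero]; exact h
    have h6 := Real.injOn_cos ⟨le_rfl, hp.le⟩ hin1 h5
    have h7 : 0 < Real.pi / (M a b : ℝ) := by positivity
    linarith
  · have h4 := two_le_of_ne M hcd h00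
    have h5 : (2 : ℝ) ≤ (M c d : ℝ) := by exact_mod_cast h4
    have hin2 : Real.pi / (M c d : ℝ) ∈ Set.Icc 0 Real.pi := by
      refine ⟨by positivity, ?_⟩
      rw [div_le_iff₀ (by linarith)]
      nlinarith
    have h6 := Real.injOn_cos hin2 hin1 h
    have h7 : (M a b : ℝ) = (M c d : ℝ) := by
      field_simp at h6
      linarith
    exact_mod_cast h7.symm

section sinlem

variable (M)

theorem qs_pos' {a b : B} (hab : a ≠ b) (h0 : M a b ≠ 0) {k : ℕ} (hk : 0 < k) (hk' : k < M a b) :
    0 < qs (cc M a b) k := by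
  have hs := sin_pos_of_ne M hab h0
  have h2 := two_le_of_ne M hab h0
  have hm : (0 : ℝ) < (M a b : ℝ) := by exact_mod_cast (by omega : 0 < M a b)
  have h1 : 0 < Real.sin (k * (Real.pi / (M a b : ℝ))) := by
    apply Real.sin_pos_of_pos_of_lt_pi
    · have : (0 : ℝ) < k := by exact_mod_cast hk
      positivity
    · have : (k : ℝ) < (M a b : ℝ) := by exact_mod_cast hk'
      rw [mul_div_assoc', div_lt_iff₀ hm]
      nlinarith [Real.pi_pos]
  rw [← qs_sin] at h1
  exact pos_of_mul_pos_left h1 hs.le

theorem qs_m {a b : B} (hab : a ≠ b) (h0 : M a b ≠ 0) : qs (cc M a b) (M a b) = 0 := by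
  have hs := sin_pos_of_ne M hab h0
  have hm : (M a b : ℝ) ≠ 0 := by exact_mod_cast h0
  have h1 := qs_sin (Real.pi / (M a b : ℝ)) (M a b)
  have h2 : ((M a b : ℕ) : ℝ) * (Real.pi / (M a b : ℝ)) = Real.pi := by field_simp
  rw [h2, Real.sin_pi] at h1
  exact (mul_eq_zero.mp h1).resolve_right hs.ne'

theorem qs_m1 {a b : B} (hab : a ≠ b) (h0 : M a b ≠ 0) : qs (cc M a b) (M a b - 1) = 1 := by
  have hs := sin_pos_of_ne M hab h0
  have hm : (M a b : ℝ) ≠ 0 := by exact_mod_cast h0
  have h1 := qs_sin (Real.pi / (M a b : ℝ)) (M a b - 1)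
  have h2 : ((M a b - 1 : ℕ) : ℝ) * (Real.pi / (M a b : ℝ)) =
      Real.pi - Real.pi / (M a b : ℝ) := by
    rw [Nat.cast_sub (by have := two_le_of_ne M hab h0; omega)]
    field_simp
    push_cast
    ring
  rw [h2, Real.sin_pi_sub] at h1
  have h3 : (qs (cc M a b) (M a b - 1) - 1) * Real.sin (Real.pi / (M a b : ℝ)) = 0 := by
    rw [sub_mul, one_mul]
    exact sub_eq_zero.mpr h1
  have := (mul_eq_zero.mp h3).resolve_right hs.ne'
  linarith

end sinlem

/-- the letters -/
def LL (a b : B) (i : ℕ) : B := if Even i then a else b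

theorem LL_succ (a b : B) (k : ℕ) : LL a b (k + 1) = if Even k then b else a := by
  unfold LL
  by_cases h : Even k
  · have h1 : ¬ Even (k + 1) := by simpa [Nat.even_add_one] using h
    rw [if_neg h1, if_pos h]
  · have h1 : Even (k + 1) := by simpa [Nat.even_add_one] using h
    rw [if_pos h1, if_neg h]

theorem LL_ne {a b : B} (hab : a ≠ b) (k : ℕ) : LL a b k ≠ LL a b (k + 1) := by
  rw [LL_succ]
  unfold LL
  split_ifs
  · exact hab
  · exact hab.symm

theorem LL_mem (a b : B) (k : ℕ) : LL a b k = a ∨ LL a b k = b := by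
  unfold LL
  split_ifs
  · exact Or.inl rfl
  · exact Or.inr rfl

variable (cs)

/-- the alternating elements -/
def dd (a b : B) (k : ℕ) : W := cs.wordProd (CoxeterSystem.alternatingWord a b k)

variable {cs}

theorem dd_succ (a b : B) (k : ℕ) : dd cs a b (k + 1) = cs.simple (LL a b (k + 1)) * dd cs a b k := by
  unfold dd
  rw [CoxeterSystem.alternatingWord_succ', cs.wordProd_cons, LL_succ]

theorem dd_ee (a b : B) (k : ℕ) : geo cs (dd cs a b k) (ee a) =
    qs (cc M a b) (k + 1) • ee (LL a b k) + qs (cc M a b) k • ee (LL a b (k + 1)) := by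
  unfold dd
  rw [geo_wordProd, prod_alt_ee, LL_succ]
  unfold LL
  split_ifs <;> rfl

/-- the dihedral subgroup -/
abbrev Di (cs : CoxeterSystem M W) (a b : B) : Subgroup W := Par cs {a, b}

theorem dd_mem (a b : B) (k : ℕ) : dd cs a b k ∈ Di cs a b := by
  induction k with
  | zero =>
    have : dd cs a b 0 = 1 := by simp [dd, CoxeterSystem.alternatingWord]
    rw [this]
    exact one_mem _
  | succ k ih =>
    rw [dd_succ]
    refine mul_mem (simple_mem ?_) ih
    rcases LL_mem a b (k + 1) with h | h <;> rw [h] <;> simp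

/-- outside of the plane nothing changes -/
theorem out_coord {a b : B} {d : W} (hd : d ∈ Di cs a b) (v : W) (t i : B) (h1 : i ≠ a)
    (h2 : i ≠ b) : geo cs (d * v) (ee t) i = geo cs v (ee t) i := by
  rw [map_mul, Module.End.mul_apply]
  apply coord hd
  simp [h1, h2]

/-- Case C -/
theorem caseC {v : W} (hv : Mn cs T v) {a b : B} (hab : a ≠ b) (h0 : M a b ≠ 0)
    (ha : 0 ≤ geo cs v⁻¹ (ee a)) (hb : 0 ≤ geo cs v⁻¹ (ee b)) (t : T)
    (hta : geo cs v (ee t.1) = ee a) (htb : ∀ t ∈ T, geo cs v (ee t) ≠ ee b)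
    {d : W} (hd : d ∈ Di cs a b) :
    (altR (gg cs T a) (gg cs T b) (M a b)).s (QuotientGroup.mk (d * v)) =
      (altR (gg cs T b) (gg cs T a) (M a b)).s (QuotientGroup.mk (d * v)) := by
  have h2 := two_le_of_ne M hab h0
  -- images of the simple roots of `T`
  have himg : ∀ k, k < M a b → ∀ t' ∈ T, (t' = t.1 ∧ geo cs (dd cs a b k * v) (ee t') =
      qs (cc M a b) (k + 1) • ee (LL a b k) + qs (cc M a b) k • ee (LL a b (k + 1))) ∨
      ∃ i, i ≠ a ∧ i ≠ b ∧ 0 < geo cs (dd cs a b k * v) (ee t') i := by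
    intro k _ t' ht'
    rcases dich hv ha hb ht' with ⟨i, h3, h4, h5⟩ | h3 | h3
    · right
      refine ⟨i, h3, h4, ?_⟩
      rw [out_coord (dd_mem a b k) v t' i h3 h4]
      exact h5
    · left
      have h4 : t' = t.1 := ee_inj (geo_injective_apply cs v (h3.trans hta.symm))
      refine ⟨h4, ?_⟩
      rw [map_mul, Module.End.mul_apply, h3, dd_ee]
    · exact absurd h3 (htb t' ht')
  have hq : ∀ k, k ≤ M a b → 0 ≤ qs (cc M a b) k := fun k hk =>
    Pool.Agent.Helper741.qs_nonneg M hab (Or.inr hk)
  have hmn : ∀ k, k < M a b → Mn cs T (dd cs a b k * v) := by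
    intro k hk t' ht'
    rcases himg k hk t' ht' with ⟨_, h4⟩ | ⟨i, _, _, h5⟩
    · rw [h4]
      exact add_nonneg (smul_nonneg (hq _ hk) (ee_nonneg _)) (smul_nonneg (hq _ hk.le) (ee_nonneg _))
    · exact nonneg_of_coord ((isRt_ee cs t').geo _) h5
  -- no section along the path
  have hnone : ∀ k, k < M a b → ∀ c : B, (c = a ∨ c = b) →
      (qs (cc M a b) (k + 1) • ee (LL a b k) + qs (cc M a b) k • ee (LL a b (k + 1)) :
        B →₀ ℝ) ≠ ee c →
      (gg cs T c).s (QuotientGroup.mk (dd cs a b k * v)) = 1 := by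
    intro k hk c hc hne
    apply oo_none (hmn k hk)
    intro t' ht' hcon
    rcases himg k hk t' ht' with ⟨_, h4⟩ | ⟨i, h3, h4, h5⟩
    · exact hne (h4.symm.trans hcon)
    · rw [hcon] at h5
      rcases hc with rfl | rfl
      · simp [ee, Ne.symm h3] at h5
      · simp [ee, Ne.symm h4] at h5
  set y : ℕ → W ⧸ Par cs T := fun k => QuotientGroup.mk (dd cs a b k * v) with hy
  set G : ℕ → Wr (W ⧸ Par cs T) (Art (rest M T)) := fun i => gg cs T (LL a b i) with hG
  have hG2 : ∀ i, G (i + 2) = G i := by
    intro i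
    simp only [hG]
    congr 1
    rw [LL_succ, LL]
    by_cases h : Even i
    · have h1 : ¬ Even (i + 1) := by simpa [Nat.even_add_one] using h
      rw [if_neg h1, if_pos h]
    · have h1 : Even (i + 1) := by simpa [Nat.even_add_one] using h
      rw [if_pos h1, if_neg h]
  have hL0 : LL a b 0 = a := by simp [LL]
  have hL1 : LL a b 1 = b := by simp [LL]
  have hd0 : dd cs a b 0 = 1 := by simp [dd, CoxeterSystem.alternatingWord]
  have hy0 : y 0 = QuotientGroup.mk v := by simp only [hy]; rw [hd0, one_mul]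
  have hfix0 : (G 0).p (y 0) = y 0 := by
    rw [hy0]
    simp only [hG]
    rw [hL0]
    exact gg_fix t.2 hta
  have hfix0' : (G 0).s (y 0) = sig (rest M T) t := by
    rw [hy0]
    simp only [hG]
    rw [hL0]
    exact oo_of hv t hta
  have hstep : ∀ k, (G (k + 1)).p (y k) = y (k + 1) := by
    intro k
    simp only [hG, hy]
    rw [gg_p, dd_succ, mul_assoc]
  have hback : ∀ k, (G (k + 1)).p (y (k + 1)) = y k := by
    intro k
    simp only [hG, hy]
    rw [gg_p, dd_succ, mul_assoc, cs.simple_mul_simple_cancel_left]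
  have hs1 : ∀ k, k + 1 < M a b → (G (k + 1)).s (y k) = 1 := by
    intro k hk
    simp only [hG, hy]
    apply hnone k (by omega) _ (LL_mem a b _)
    intro hcon
    have h3 := DFunLike.congr_fun hcon (LL a b k)
    have h4 := LL_ne hab k
    have h5 := qs_pos' M hab h0 (k := k + 1) (by omega) hk
    simp [ee, Ne.symm h4] at h3
    linarith
  have hs2 : ∀ k, k + 1 < M a b → (G (k + 1)).s (y (k + 1)) = 1 := by
    intro k hk
    simp only [hG, hy]
    apply hnone (k + 1) (by omega) _ (LL_mem a b _)
    intro hcon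
    have h3 := DFunLike.congr_fun hcon (LL a b (k + 1 + 1))
    have h4 := LL_ne hab (k + 1)
    have h5 := qs_pos' M hab h0 (k := k + 1) (by omega) hk
    simp [ee, h4] at h3
    linarith
  have hend : geo cs (dd cs a b (M a b - 1) * v) (ee t.1) = ee (LL a b (M a b)) := by
    rw [map_mul, Module.End.mul_apply, hta, dd_ee]
    have e : M a b - 1 + 1 = M a b := by omega
    rw [e, qs_m M hab h0, qs_m1 M hab h0, zero_smul, zero_add, one_smul]
  have he1 : (G (M a b)).p (y (M a b - 1)) = y (M a b - 1) := by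
    simp only [hG, hy]
    exact gg_fix t.2 hend
  have he2 : (G (M a b)).s (y (M a b - 1)) = sig (rest M T) t := by
    simp only [hG, hy]
    exact oo_of (hmn _ (by omega)) t hend
  -- the path is closed under the dihedral group
  have hclosed : ∀ d ∈ Di cs a b, ∀ k, k < M a b →
      ∃ k', k' < M a b ∧ MulAction.toPermHom W (W ⧸ Par cs T) d (y k) = y k' := by
    intro d hd
    unfold Di Par at hd
    have hgen : ∀ c, (c = a ∨ c = b) → ∀ k, k < M a b →
        ∃ k', k' < M a b ∧ MulAction.toPermHom W (W ⧸ Par cs T) (cs.simple c) (y k) = y k' := by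
      intro c hc k hk
      have hcL : c = LL a b k ∨ c = LL a b (k + 1) := by
        rw [LL_succ]
        unfold LL
        rcases hc with rfl | rfl <;> split_ifs <;> simp
      rcases hcL with rfl | rfl
      · rcases Nat.eq_zero_or_pos k with rfl | hk0
        · exact ⟨0, hk, hfix0⟩
        · obtain ⟨k', rfl⟩ : ∃ k', k = k' + 1 := ⟨k - 1, by omega⟩
          exact ⟨k', by omega, hback k'⟩
      · by_cases hk1 : k + 1 < M a b
        · exact ⟨k + 1, hk1, hstep k⟩
        · have e : k = M a b - 1 := by omega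
          have e' : k + 1 = M a b := by omega
          refine ⟨k, hk, ?_⟩
          rw [e', e]
          exact he1
    induction hd using Subgroup.closure_induction with
    | mem x hx =>
      obtain ⟨j, hj, rfl⟩ := hx
      intro k hk
      exact hgen j (by simpa using hj) k hk
    | one => exact fun k hk => ⟨k, hk, by simp⟩
    | mul x z _ _ hx hz =>
      intro k hk
      obtain ⟨k1, h3, h4⟩ := hz k hk
      obtain ⟨k2, h5, h6⟩ := hx k1 h3
      exact ⟨k2, h5, by rw [map_mul, Equiv.Perm.mul_apply, h4, h6]⟩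
    | inv x _ hx =>
      intro k hk
      -- injective self map of a finite set
      choose f hf1 hf2 using hx
      let F : Fin (M a b) → {z // ∃ k, k < M a b ∧ z = y k} := fun i => ⟨y i.1, i.1, i.2, rfl⟩
      have hfin : Finite {z // ∃ k, k < M a b ∧ z = y k} :=
        Finite.of_surjective F (by
          rintro ⟨z, k, hk, rfl⟩
          exact ⟨⟨k, hk⟩, rfl⟩)
      let P : {z // ∃ k, k < M a b ∧ z = y k} → {z // ∃ k, k < M a b ∧ z = y k} := fun z =>
        ⟨MulAction.toPermHom W (W ⧸ Par cs T) x z.1, by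
          obtain ⟨z, k, hk, rfl⟩ := z
          exact ⟨f k hk, hf1 k hk, hf2 k hk⟩⟩
      have hP : Function.Injective P := by
        intro z z' h
        apply Subtype.ext
        have := congrArg Subtype.val h
        exact (MulAction.toPermHom W (W ⧸ Par cs T) x).injective this
      obtain ⟨⟨z, k', hk', hz⟩, h3⟩ := (Finite.injective_iff_surjective.1 hP) ⟨y k, k, hk, rfl⟩
      refine ⟨k', hk', ?_⟩
      rw [map_inv, Equiv.Perm.inv_eq_iff_eq, ← hz]
      exact (congrArg Subtype.val h3).symm
  obtain ⟨k, hk, hx⟩ := hclosed d hd 0 (by omega)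
  have hx' : (QuotientGroup.mk (d * v) : W ⧸ Par cs T) = y k := by
    rw [← hx, hy0]
    rfl
  rw [hx']
  have := path G hG2 y (M a b) (sig (rest M T) t) hfix0 hfix0' (fun k hk => ⟨hstep k, hs1 k hk⟩)
    (fun k hk => ⟨hback k, hs2 k hk⟩) he1 he2 hk
  simp only [hG] at this
  rw [hL0, hL1] at this
  rw [this.1, this.2]

/-- Cases A and B -/
theorem sec_eq {v : W} (hv : Mn cs T v) {a b : B} (hab : a ≠ b) (h0 : M a b ≠ 0)
    (ha : 0 ≤ geo cs v⁻¹ (ee a)) (hb : 0 ≤ geo cs v⁻¹ (ee b))
    {d : W} (hd : d ∈ Di cs a b) :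
    (altR (gg cs T a) (gg cs T b) (M a b)).s (QuotientGroup.mk (d * v)) =
      (altR (gg cs T b) (gg cs T a) (M a b)).s (QuotientGroup.mk (d * v)) := by
  by_cases h1 : ∃ t : T, geo cs v (ee t.1) = ee a
  · obtain ⟨t, ht⟩ := h1
    by_cases h2 : ∃ t' : T, geo cs v (ee t'.1) = ee b
    · -- Case B
      obtain ⟨t', ht'⟩ := h2
      have hfix : ∀ c, (c = a ∨ c = b) →
          (gg cs T c).p (QuotientGroup.mk v) = QuotientGroup.mk v := by
        rintro c (rfl | rfl)
        · exact gg_fix t.2 ht
        · exact gg_fix t'.2 ht'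
      have hdv : (QuotientGroup.mk (d * v) : W ⧸ Par cs T) = QuotientGroup.mk v := by
        have key : ∀ x ∈ Di cs a b, MulAction.toPermHom W (W ⧸ Par cs T) x (QuotientGroup.mk v) =
            QuotientGroup.mk v := by
          intro x hx
          unfold Di Par at hx
          induction hx using Subgroup.closure_induction with
          | mem x hx =>
            obtain ⟨j, hj, rfl⟩ := hx
            exact hfix j (by simpa using hj)
          | one => simp
          | mul x z _ _ hx hz => rw [map_mul, Equiv.Perm.mul_apply, hz, hx]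
          | inv x _ hx => rw [map_inv, Equiv.Perm.inv_eq_iff_eq, hx]
        exact key d hd
      rw [hdv]
      have hword : ∀ (n : ℕ) (c c' : B), (c = a ∨ c = b) → (c' = a ∨ c' = b) →
          (altR (gg cs T c) (gg cs T c') n).s (QuotientGroup.mk v) =
            altR ((gg cs T c).s (QuotientGroup.mk v)) ((gg cs T c').s (QuotientGroup.mk v)) n := by
        intro n
        induction n with
        | zero => intros; rfl
        | succ n ih =>
          intro c c' hc hc'
          rw [altR_succ, altR_succ, Wr.mul_s, hfix c hc, ih c' c hc' hc]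
      rw [hword _ a b (Or.inl rfl) (Or.inr rfl), hword _ b a (Or.inr rfl) (Or.inl rfl),
        oo_of hv t ht, oo_of hv t' ht']
      have htt : t.1 ≠ t'.1 := by
        intro h
        rw [h, ht'] at ht
        exact hab (ee_inj ht).symm
      have hcc : cc M t.1 t'.1 = cc M a b := by
        have h3 := bil_geo (cs := cs) v (ee t.1) (ee t'.1)
        rw [ht, ht', bil_ee_left, bil_ee_left, coroot_ee, coroot_ee] at h3
        linarith
      have hl := label_eq (M := M) hab h0 hcc htt
      have h4 := art_rel (rest M T) (a := t) (b := t') (by rw [rest_apply, hl]; exact h0)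
      rw [rest_apply, hl, alt_comm_iff] at h4
      exact h4
    · push Not at h2
      exact caseC hv hab h0 ha hb t ht (fun t' ht' => h2 ⟨t', ht'⟩) hd
  · by_cases h2 : ∃ t' : T, geo cs v (ee t'.1) = ee b
    · obtain ⟨t', ht'⟩ := h2
      push Not at h1
      have hd' : d ∈ Di cs b a := by
        unfold Di at hd ⊢
        rwa [Set.pair_comm]
      have h0' : M b a ≠ 0 := by rwa [M.symmetric]
      have := caseC hv hab.symm h0' hb ha t' ht' (fun t'' ht'' => h1 ⟨t'', ht''⟩) hd'
      rw [M.symmetric b a] at this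
      exact this.symm
    · -- Case A
      push Not at h1 h2
      have himg : ∀ d ∈ Di cs a b, ∀ t ∈ T, ∃ i, i ≠ a ∧ i ≠ b ∧ 0 < geo cs (d * v) (ee t) i := by
        intro d hd t ht
        rcases dich hv ha hb ht with ⟨i, h3, h4, h5⟩ | h3 | h3
        · refine ⟨i, h3, h4, ?_⟩
          rw [out_coord hd v t i h3 h4]
          exact h5
        · exact absurd h3 (h1 ⟨t, ht⟩)
        · exact absurd h3 (h2 ⟨t, ht⟩)
      have hmn : ∀ d ∈ Di cs a b, Mn cs T (d * v) := by
        intro d hd t ht
        obtain ⟨i, _, _, h5⟩ := himg d hd t ht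
        exact nonneg_of_coord ((isRt_ee cs t).geo _) h5
      have hone : ∀ d ∈ Di cs a b, ∀ c, (c = a ∨ c = b) →
          (gg cs T c).s (QuotientGroup.mk (d * v)) = 1 := by
        intro d hd c hc
        apply oo_none (hmn d hd)
        intro t ht hcon
        obtain ⟨i, h3, h4, h5⟩ := himg d hd t ht
        rw [hcon] at h5
        rcases hc with rfl | rfl
        · simp [ee, Ne.symm h3] at h5
        · simp [ee, Ne.symm h4] at h5
      have hword : ∀ (n : ℕ) (c c' : B), (c = a ∨ c = b) → (c' = a ∨ c' = b) →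
          ∀ d ∈ Di cs a b, (altR (gg cs T c) (gg cs T c') n).s (QuotientGroup.mk (d * v)) = 1 := by
        intro n
        induction n with
        | zero => intros; rfl
        | succ n ih =>
          intro c c' hc hc' d hd
          rw [altR_succ, Wr.mul_s, hone d hd c hc, mul_one, gg_p, ← mul_assoc]
          apply ih c' c hc' hc
          refine mul_mem (simple_mem ?_) hd
          rcases hc with rfl | rfl <;> simp
      rw [hword _ a b (Or.inl rfl) (Or.inr rfl) d hd, hword _ b a (Or.inr rfl) (Or.inl rfl) d hd]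

/-- doubly minimal representatives -/
theorem exists_double (a b : B) (x : W ⧸ Par cs T) : ∃ d ∈ Di cs a b, ∃ v : W,
    (QuotientGroup.mk (d * v) : W ⧸ Par cs T) = x ∧ Mn cs T v ∧ 0 ≤ geo cs v⁻¹ (ee a) ∧
      0 ≤ geo cs v⁻¹ (ee b) := by
  classical
  have hne : ∃ n, ∃ v : W, (∃ d ∈ Di cs a b, (QuotientGroup.mk (d * v) : W ⧸ Par cs T) = x) ∧
      cs.length v = n := by
    obtain ⟨v, hv⟩ := QuotientGroup.mk_surjective x
    exact ⟨_, v, ⟨1, one_mem _, by rw [one_mul]; exact hv⟩, rfl⟩
  obtain ⟨v, ⟨d, hd, hv⟩, hl⟩ := Nat.find_spec hne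
  refine ⟨d, hd, v, hv, mn_of_min cs T fun t ht => ?_, ?_, ?_⟩
  · rw [hl]
    apply Nat.find_min' hne
    refine ⟨v * cs.simple t, ⟨d, hd, ?_⟩, rfl⟩
    rw [← hv, QuotientGroup.eq]
    have e : (d * (v * cs.simple t))⁻¹ * (d * v) = (cs.simple t)⁻¹ := by group
    rw [e]
    exact inv_mem (simple_mem ht)
  all_goals
    have key : ∀ c, (c = a ∨ c = b) → 0 ≤ geo cs v⁻¹ (ee c) := by
      intro c hc
      apply geo_nonneg
      have h1 : cs.length v ≤ cs.length (cs.simple c * v) := by
        rw [hl]
        apply Nat.find_min' hne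
        refine ⟨cs.simple c * v, ⟨d * cs.simple c, mul_mem hd (simple_mem ?_), ?_⟩, rfl⟩
        · rcases hc with rfl | rfl <;> simp
        · rw [mul_assoc, cs.simple_mul_simple_cancel_left]
          exact hv
      have h2 : cs.length (v⁻¹ * cs.simple c) = cs.length (cs.simple c * v) := by
        rw [← cs.length_inv, mul_inv_rev, inv_inv, cs.inv_simple]
      rw [h2, cs.length_inv]
      rcases cs.length_simple_mul v c with h3 | h3 <;> omega
  · exact key a (Or.inl rfl)
  · exact key b (Or.inr rfl)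

theorem gg_rel (a b : B) (h0 : M a b ≠ 0) :
    alt (gg cs T a) (gg cs T b) (M a b) = alt (gg cs T b) (gg cs T a) (M a b) := by
  by_cases hab : a = b
  · rw [hab]
  rw [alt_comm_iff]
  apply Wr.ext
  · funext x
    obtain ⟨d, hd, v, hx, hv, h1, h2⟩ := exists_double (cs := cs) (T := T) a b x
    rw [← hx]
    exact sec_eq hv hab h0 h1 h2 hd
  · rw [altR_p, altR_p]
    show altR (MulAction.toPermHom W (W ⧸ Par cs T) (cs.simple a))
      (MulAction.toPermHom W (W ⧸ Par cs T) (cs.simple b)) _ =
      altR (MulAction.toPermHom W (W ⧸ Par cs T) (cs.simple b))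
      (MulAction.toPermHom W (W ⧸ Par cs T) (cs.simple a)) _
    rw [← map_altR, ← map_altR, altR_W]

theorem t_CP : S_CP := by
  intro B M T
  set cs := M.toCoxeterSystem with hcs
  have hlift : ∀ r ∈ braidRel M, FreeGroup.lift (gg cs T) r = 1 := by
    rintro r ⟨a, b, h0, rfl⟩
    have key : ∀ (x y : FreeGroup B) (n : ℕ),
        FreeGroup.lift (gg cs T) (alt x y n) =
          alt (FreeGroup.lift (gg cs T) x) (FreeGroup.lift (gg cs T) y) n := by
      intro x y n
      induction n generalizing x y with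
      | zero => exact map_one _
      | succ n ih =>
        show FreeGroup.lift (gg cs T) (x * alt y x n) = _ * _
        rw [map_mul, ih]
    rw [map_mul, map_inv, key, key, FreeGroup.lift_apply_of, FreeGroup.lift_apply_of, mul_inv_eq_one]
    exact gg_rel a b h0
  refine ⟨M.Group ⧸ Par cs T, QuotientGroup.mk 1, PresentedGroup.toGroup hlift,
    MulAction.toPermHom M.Group (M.Group ⧸ Par cs T), ?_, ?_, ?_⟩
  · intro t
    have e : PresentedGroup.toGroup hlift (sig M t.1) = gg cs T t.1 := PresentedGroup.toGroup.of hlift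
    rw [e]
    have h1 : geo cs 1 (ee t.1) = ee t.1 := by rw [map_one, Module.End.one_apply]
    exact ⟨gg_fix t.2 h1, oo_of (mn_one cs T) t h1⟩
  · intro b x
    have e : PresentedGroup.toGroup hlift (sig M b) = gg cs T b := PresentedGroup.toGroup.of hlift
    rw [e]
    by_cases h : ∃ t : T, geo cs (rp cs T x) (ee t.1) = ee b
    · right
      refine ⟨h.choose, ?_⟩
      show oo cs T b x = _
      unfold oo
      rw [dif_pos h]
    · left
      show oo cs T b x = _
      unfold oo
      rw [dif_neg h]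
  · intro b
    have e : PresentedGroup.toGroup hlift (sig M b) = gg cs T b := PresentedGroup.toGroup.of hlift
    rw [e]
    rfl

end Pool.Agent.H73AR
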