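import Pool.Agent.H73AR.Stm

/-!
# The Charney–Paris homomorphism, part 1: words in a wreath product, minimal elements
-/

set_option autoImplicit false

namespace Pool.Agent.H73AR

open Pool.Agent.Y462.SS (Wr)
open Pool.Agent.R676.Cox

/-- the alternating product `⋯ x y x` with `n` factors, the last one is `x` -/
def altR {G : Type} [Mul G] [One G] (x y : G) : ℕ → G
  | 0 => 1
  | n + 1 => altR y x n * x

theorem altR_zero {G : Type} [Mul G] [One G] (x y : G) : altR x y 0 = 1 := rfl
theorem altR_succ {G : Type} [Mul G] [One G] (x y : G) (n : ℕ) :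
    altR x y (n + 1) = altR y x n * x := rfl

theorem altR_succ' {G : Type} [Group G] (x y : G) (n : ℕ) :
    altR x y (n + 1) = (if Even n then x else y) * altR x y n := by
  induction n generalizing x y with
  | zero => simp [altR]
  | succ n ih =>
    rw [altR_succ, ih y x]
    by_cases hn : Even n
    · have hn1 : ¬ Even (n + 1) := by simpa [Nat.even_add_one] using hn
      rw [if_pos hn, if_neg hn1, mul_assoc, ← altR_succ]
    · have hn1 : Even (n + 1) := by simpa [Nat.even_add_one] using hn
      rw [if_neg hn, if_pos hn1, mul_assoc, ← altR_succ]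

theorem alt_eq {G : Type} [Group G] (x y : G) (n : ℕ) :
    alt x y n = if Even n then altR y x n else altR x y n := by
  induction n generalizing x y with
  | zero => simp [alt, altR]
  | succ n ih =>
    show x * alt y x n = _
    rw [ih y x]
    by_cases hn : Even n
    · have hn1 : ¬ Even (n + 1) := by simpa [Nat.even_add_one] using hn
      rw [if_pos hn, if_neg hn1, altR_succ', if_pos hn]
    · have hn1 : Even (n + 1) := by simpa [Nat.even_add_one] using hn
      rw [if_neg hn, if_pos hn1, altR_succ', if_neg hn]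

theorem alt_comm_iff {G : Type} [Group G] (x y : G) (n : ℕ) :
    alt x y n = alt y x n ↔ altR x y n = altR y x n := by
  rw [alt_eq, alt_eq]
  by_cases hn : Even n
  · rw [if_pos hn, if_pos hn]
    exact eq_comm
  · rw [if_neg hn, if_neg hn]

/-- `braid` in the Artin group -/
theorem art_rel {B : Type} (M : CoxeterMatrix B) {a b : B} (h : M a b ≠ 0) :
    alt (sig M a) (sig M b) (M a b) = alt (sig M b) (sig M a) (M a b) := by
  have key : ∀ (x y : FreeGroup B) (n : ℕ),
      (PresentedGroup.mk (braidRel M)) (alt x y n) =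
        alt (PresentedGroup.mk (braidRel M) x) (PresentedGroup.mk (braidRel M) y) n := by
    intro x y n
    induction n generalizing x y with
    | zero => exact map_one _
    | succ n ih =>
      show (PresentedGroup.mk (braidRel M)) (x * alt y x n) = _ * _
      rw [map_mul, ih]
  have h1 : (PresentedGroup.mk (braidRel M)) (alt (FreeGroup.of a) (FreeGroup.of b) (M a b) *
      (alt (FreeGroup.of b) (FreeGroup.of a) (M a b))⁻¹) = 1 :=
    PresentedGroup.one_of_mem ⟨a, b, h, rfl⟩
  rw [map_mul, map_inv, key, key, mul_inv_eq_one] at h1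
  exact h1

section path

variable {X A : Type} [Group A] (G : ℕ → Wr X A) (hG : ∀ i, G (i + 2) = G i) (y : ℕ → X) (m : ℕ)
  (σ : A) (h0 : (G 0).p (y 0) = y 0) (h0' : (G 0).s (y 0) = σ)
  (hm : ∀ k, k + 1 < m → (G (k + 1)).p (y k) = y (k + 1) ∧ (G (k + 1)).s (y k) = 1)
  (hb : ∀ k, k + 1 < m → (G (k + 1)).p (y (k + 1)) = y k ∧ (G (k + 1)).s (y (k + 1)) = 1)
  (he : (G m).p (y (m - 1)) = y (m - 1)) (he' : (G m).s (y (m - 1)) = σ)

include hG h0 h0' hm hb he he' in
theorem path_aux (n : ℕ) : n ≤ m → ∀ k, k < m →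
    (altR (G (k + 1)) (G (k + 2)) n).s (y k) = (if m ≤ k + n then σ else 1) ∧
    (altR (G k) (G (k + 1)) n).s (y k) = (if k + 1 ≤ n then σ else 1) := by
  induction n with
  | zero =>
    intro _ k hk
    rw [if_neg (by omega), if_neg (by omega)]
    exact ⟨rfl, rfl⟩
  | succ n ih =>
    intro hn k hk
    constructor
    · rw [altR_succ, Wr.mul_s]
      by_cases hk1 : k + 1 < m
      · obtain ⟨h1, h2⟩ := hm k hk1
        rw [h1, h2, mul_one, ← hG (k + 1), (ih (by omega) (k + 1) hk1).1]
        by_cases h3 : m ≤ k + (n + 1)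
        · rw [if_pos h3, if_pos (by omega)]
        · rw [if_neg h3, if_neg (by omega)]
      · have hkm : k = m - 1 := by omega
        have hkm1 : k + 1 = m := by omega
        rw [hkm1]
        have e1 : y k = y (m - 1) := by rw [hkm]
        rw [e1, he, he', hG k, ← hkm1]
        have e2 : k + 1 - 1 = k := by omega
        rw [e2, (ih (by omega) k hk).2, if_neg (by omega), if_pos (by omega), one_mul]
    · rw [altR_succ, Wr.mul_s]
      rcases Nat.eq_zero_or_pos k with rfl | hk0
      · rw [h0, h0', if_pos (by omega)]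
        have e : altR (G (0 + 1)) (G 0) n = altR (G (0 + 1)) (G (0 + 2)) n := by rw [hG 0]
        rw [e, (ih (by omega) 0 hk).1, if_neg (by omega), one_mul]
      · obtain ⟨k', rfl⟩ : ∃ k', k = k' + 1 := ⟨k - 1, by omega⟩
        obtain ⟨h1, h2⟩ := hb k' hk
        rw [h1, h2, mul_one]
        have e : altR (G (k' + 1 + 1)) (G (k' + 1)) n = altR (G k') (G (k' + 1)) n := by
          rw [hG k']
        rw [e, (ih (by omega) k' (by omega)).2]
        by_cases h3 : k' + 1 + 1 ≤ n + 1
        · rw [if_pos h3, if_pos (by omega)]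
        · rw [if_neg h3, if_neg (by omega)]

include hG h0 h0' hm hb he he' in
/-- both alternating words of length `m` have the section `σ` at each point of the path -/
theorem path {k : ℕ} (hk : k < m) :
    (altR (G 0) (G 1) m).s (y k) = σ ∧ (altR (G 1) (G 0) m).s (y k) = σ := by
  obtain ⟨h1, h2⟩ := path_aux G hG y m σ h0 h0' hm hb he he' m le_rfl k hk
  rw [if_pos (by omega)] at h1 h2
  have hper : ∀ j, (G (2 * j) = G 0) ∧ (G (2 * j + 1) = G 1) := by
    intro j
    induction j with
    | zero => exact ⟨rfl, rfl⟩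
    | succ j ih => exact ⟨(hG (2 * j)).trans ih.1, (hG (2 * j + 1)).trans ih.2⟩
  rcases Nat.even_or_odd' k with ⟨j, rfl | rfl⟩
  · rw [(hper j).1, (hper j).2] at h2
    rw [(hper j).2, hG (2 * j), (hper j).1] at h1
    exact ⟨h2, h1⟩
  · rw [(hper j).2] at h2
    have e1 : G (2 * j + 1 + 1) = G 0 := (hG (2 * j)).trans (hper j).1
    have e2 : G (2 * j + 1 + 2) = G 1 := (hG (2 * j + 1)).trans (hper j).2
    rw [e1] at h2
    rw [e1, e2] at h1
    exact ⟨h1, h2⟩

end path

section minimal

variable {B W : Type} [Group W] {M : CoxeterMatrix B} (cs : CoxeterSystem M W) (T : Set B)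

/-- the standard parabolic subgroup -/
def Par : Subgroup W := Subgroup.closure (cs.simple '' T)

/-- minimal elements of the cosets -/
def Mn (v : W) : Prop := ∀ t ∈ T, 0 ≤ geo cs v (ee t)

variable {cs T}

theorem simple_mem {t : B} (ht : t ∈ T) : cs.simple t ∈ Par cs T :=
  Subgroup.subset_closure ⟨t, ht, rfl⟩

theorem coord {κ : W} (hκ : κ ∈ Par cs T) (v : B →₀ ℝ) {i : B} (hi : i ∉ T) :
    geo cs κ v i = v i := by
  unfold Par at hκ
  induction hκ using Subgroup.closure_induction generalizing v with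
  | mem x hx =>
    obtain ⟨j, hj, rfl⟩ := hx
    rw [geo_simple, sg_apply]
    have hne : j ≠ i := fun h => hi (h ▸ hj)
    simp [ee, hne]
  | one => simp
  | mul x y _ _ hx hy =>
    rw [map_mul, Module.End.mul_apply, hx, hy]
  | inv x _ hx =>
    have h := hx (geo cs x⁻¹ v)
    rw [geo_apply_inv] at h
    exact h.symm

theorem nonneg_of_coord {v : B →₀ ℝ} (h : IsRt cs v) {i : B} (hi : 0 < v i) : 0 ≤ v := by
  rcases h.cases with h1 | h1
  · exact h1
  · have := h1 i
    simp at this
    linarith

theorem exists_neg {κ : W} (hκ : κ ∈ Par cs T) (h1 : κ ≠ 1) : ∃ t ∈ T, geo cs κ (ee t) ≤ 0 := by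
  by_contra hcon
  push Not at hcon
  apply h1
  apply eq_one_of_geo cs
  intro i
  by_cases hi : i ∈ T
  · exact (((isRt_ee cs i).geo κ).not_nonpos).1 (hcon i hi)
  · apply nonneg_of_coord ((isRt_ee cs i).geo κ) (i := i)
    rw [coord hκ _ hi]
    simp [ee]

theorem Mn.nonneg {v : W} (hv : Mn cs T v) {u : B →₀ ℝ} (hu : 0 ≤ u) (hs : ∀ i, i ∉ T → u i = 0) :
    0 ≤ geo cs v u := by
  have h1 : u = u.sum fun i a => a • ee i := by
    conv_lhs => rw [← Finsupp.sum_single u]
    apply Finsupp.sum_congr
    intro i _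
    simp [ee]
  rw [h1, Finsupp.sum, map_sum]
  apply Finset.sum_nonneg
  intro i hi
  rw [map_smul]
  apply smul_nonneg (hu i)
  apply hv
  by_contra hiT
  rw [Finsupp.mem_support_iff] at hi
  exact hi (hs i hiT)

theorem Mn.unique {v κ : W} (hv : Mn cs T v) (hκ : κ ∈ Par cs T) (hv' : Mn cs T (v * κ)) :
    κ = 1 := by
  by_contra h1
  obtain ⟨t, ht, h2⟩ := exists_neg hκ h1
  have h3 : 0 ≤ geo cs v (-geo cs κ (ee t)) := by
    apply hv.nonneg
    · exact neg_nonneg.2 h2
    · intro i hi
      rw [Finsupp.neg_apply, coord hκ _ hi]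
      have : t ≠ i := fun h => hi (h ▸ ht)
      simp [ee, this]
  rw [map_neg] at h3
  have h4 := hv' t ht
  rw [map_mul, Module.End.mul_apply] at h4
  have h5 : geo cs v (geo cs κ (ee t)) = 0 := le_antisymm (neg_nonneg.1 h3) h4
  rw [← Module.End.mul_apply, ← map_mul] at h5
  exact geo_ee_ne_zero cs _ t h5

variable (cs T)

theorem mn_one : Mn cs T 1 := fun t _ => by
  rw [map_one, Module.End.one_apply]
  exact ee_nonneg t

/-- an element of minimal length of a set closed under right multiplication by `T` is minimal -/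
theorem mn_of_min {v : W} (h : ∀ t ∈ T, cs.length v ≤ cs.length (v * cs.simple t)) : Mn cs T v := by
  intro t ht
  apply geo_nonneg
  have h1 := h t ht
  rcases cs.length_mul_simple v t with h2 | h2 <;> omega

theorem exists_mn (x : W ⧸ Par cs T) : ∃ v : W, (QuotientGroup.mk v : W ⧸ Par cs T) = x ∧
    Mn cs T v := by
  classical
  have hne : ∃ n, ∃ v : W, (QuotientGroup.mk v : W ⧸ Par cs T) = x ∧ cs.length v = n := by
    obtain ⟨v, hv⟩ := QuotientGroup.mk_surjective x
    exact ⟨_, v, hv, rfl⟩
  obtain ⟨v, hv, hl⟩ := Nat.find_spec hne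
  refine ⟨v, hv, mn_of_min cs T fun t ht => ?_⟩
  rw [hl]
  apply Nat.find_min' hne
  refine ⟨v * cs.simple t, ?_, rfl⟩
  rw [← hv, QuotientGroup.eq]
  have e : (v * cs.simple t)⁻¹ * v = (cs.simple t)⁻¹ := by group
  rw [e]
  exact inv_mem (simple_mem ht)

/-- the minimal representative -/
noncomputable def rp (x : W ⧸ Par cs T) : W := (exists_mn cs T x).choose

theorem rp_mk (x : W ⧸ Par cs T) : (QuotientGroup.mk (rp cs T x) : W ⧸ Par cs T) = x :=
  (exists_mn cs T x).choose_spec.1

theorem rp_mn (x : W ⧸ Par cs T) : Mn cs T (rp cs T x) := (exists_mn cs T x).choose_spec.2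

variable {cs T}

theorem rp_eq {v : W} (hv : Mn cs T v) : rp cs T (QuotientGroup.mk v) = v := by
  have h1 := rp_mk cs T (QuotientGroup.mk v)
  rw [eq_comm, QuotientGroup.eq] at h1
  have h2 := hv.unique (κ := v⁻¹ * rp cs T (QuotientGroup.mk v)) h1 (by
    rw [mul_inv_cancel_left]
    exact rp_mn cs T _)
  rw [inv_mul_eq_one] at h2
  exact h2.symm

theorem ee_inj {i j : B} (h : (ee i : B →₀ ℝ) = ee j) : i = j :=
  Finsupp.single_left_injective one_ne_zero h

/-- if `v α_t = α_b` then `s_b v = v s_t` -/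
theorem conj_of {v : W} {t b : B} (h : geo cs v (ee t) = ee b) :
    cs.simple b * v = v * cs.simple t := by
  have h1 : v * cs.simple t * v⁻¹ = cs.simple b := by
    apply geo_injective cs
    apply LinearMap.ext
    intro x
    rw [geo_conj_simple, h, geo_simple, sg_apply, bil_ee_left]
  rw [← h1]
  group

/-- a positive root in the plane of `α_a, α_b` which is the image of a simple root under a doubly
minimal element is simple -/
theorem dich {v : W} (hv : Mn cs T v) {a b : B} (ha : 0 ≤ geo cs v⁻¹ (ee a))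
    (hb : 0 ≤ geo cs v⁻¹ (ee b)) {t : B} (ht : t ∈ T) :
    (∃ i, i ≠ a ∧ i ≠ b ∧ 0 < geo cs v (ee t) i) ∨ geo cs v (ee t) = ee a ∨
      geo cs v (ee t) = ee b := by
  classical
  by_cases h0 : ∃ i, i ≠ a ∧ i ≠ b ∧ 0 < geo cs v (ee t) i
  · exact Or.inl h0
  right
  push Not at h0
  set u := geo cs v (ee t) with hu
  have hu0 : 0 ≤ u := hv t ht
  have huv : geo cs v⁻¹ u = ee t := by rw [hu, geo_inv_apply]
  have key : ∀ c : B, 0 ≤ geo cs v⁻¹ (ee c) → 0 < u c → (∀ i, i ≠ t → u c * geo cs v⁻¹ (ee c) i ≤ 0) →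
      u = ee c := by
    intro c hc huc hle
    have h1 : geo cs v⁻¹ (ee c) = (geo cs v⁻¹ (ee c) t) • ee t := by
      ext i
      by_cases hi : i = t
      · subst hi
        simp [ee]
      · have h2 := hle i hi
        have h3 := hc i
        simp only [Finsupp.zero_apply] at h3
        have h4 : geo cs v⁻¹ (ee c) i = 0 := by nlinarith
        rw [h4]
        simp [ee, Ne.symm hi]
    have h2 : geo cs v⁻¹ (ee c) = ee t :=
      PR.eq_of_smul ⟨(isRt_ee cs c).geo _, hc⟩ (PR_ee cs t) h1
    rw [hu, ← h2, geo_apply_inv]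
  by_cases hab : a = b
  · subst hab
    have hu1 : u = u a • ee a := by
      ext i
      by_cases hi : i = a
      · subst hi; simp [ee]
      · have h2 := h0 i hi hi
        have h3 := hu0 i
        simp only [Finsupp.zero_apply] at h3
        have : u i = 0 := le_antisymm h2 h3
        simp [ee, Ne.symm hi, this]
    left
    exact PR.eq_of_smul ⟨(isRt_ee cs t).geo v, hu0⟩ (PR_ee cs a) hu1
  have hu1 : u = u a • ee a + u b • ee b := by
    ext i
    by_cases hi : i = a
    · subst hi
      simp [ee, Ne.symm hab]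
    · by_cases hi' : i = b
      · subst hi'
        simp [ee, hab]
      · have h2 := h0 i hi hi'
        have h3 := hu0 i
        simp only [Finsupp.zero_apply] at h3
        have : u i = 0 := le_antisymm h2 h3
        simp [ee, Ne.symm hi, Ne.symm hi', this]
  have h5 : ee t = u a • geo cs v⁻¹ (ee a) + u b • geo cs v⁻¹ (ee b) := by
    rw [← huv]
    conv_lhs => rw [hu1]
    rw [map_add, map_smul, map_smul]
  have h6 : ∀ i, i ≠ t → u a * geo cs v⁻¹ (ee a) i + u b * geo cs v⁻¹ (ee b) i = 0 := by
    intro i hi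
    have := DFunLike.congr_fun h5 i
    simp only [ee, Finsupp.add_apply, Finsupp.smul_apply, smul_eq_mul,
      Finsupp.single_apply, if_neg (Ne.symm hi)] at this
    exact this.symm
  have ga : 0 ≤ u a := hu0 a
  have gb : 0 ≤ u b := hu0 b
  rcases ga.eq_or_lt with g1 | g1
  · rcases gb.eq_or_lt with g2 | g2
    · exfalso
      rw [← g1, ← g2, zero_smul, zero_smul, add_zero] at hu1
      exact geo_ee_ne_zero cs v t hu1
    · right
      apply key b hb g2
      intro i hi
      have h7 := h6 i hi
      rw [← g1, zero_mul, zero_add] at h7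
      exact h7.le
  · left
    apply key a ha g1
    intro i hi
    have h7 := h6 i hi
    have h8 : 0 ≤ u b * geo cs v⁻¹ (ee b) i := mul_nonneg gb (hb i)
    linarith

end minimal

end Pool.Agent.H73AR
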