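import Pool.Agent.H73AR.Stm

/-!
# Quotients of Artin groups by even powers of the generators: statements

Owner helper73.  `Shp M p`: the Artin group of `M` modulo the relations `σ_b ^ p b = 1`, where `p b` is even
(`0` allowed: no relation) and `p a = p b` whenever `M a b` is odd.  `p = 0`: Artin group; `p = 2`: Coxeter group.
-/

set_option autoImplicit false

namespace Pool.Agent.H73AR

open Pool.Agent.Y110.FJ (ClosedE)
open Pool.Agent.Y462.SS (Closed Wr)

section shp

variable {B : Type} (M : CoxeterMatrix B) (p : B → ℕ)

/-- the braid relations and the power relations -/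
def shRel : Set (FreeGroup B) := braidRel M ∪ {r | ∃ b : B, r = FreeGroup.of b ^ p b}

/-- the quotient of the Artin group by powers of the generators (the exponent `0` stands for `∞`) -/
abbrev Shp : Type := PresentedGroup (shRel M p)

/-- the standard generators -/
def gen (b : B) : Shp M p := PresentedGroup.of b

/-- admissible exponents: even (or `0`), and equal for generators joined by an odd label -/
def Adm : Prop := (∀ b, Even (p b)) ∧ ∀ a b, Odd (M a b) → p a = p b

/-- the restriction of the exponents -/
def resp (T : Set B) : T → ℕ := fun t => p t.1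

end shp

/-- (CP2) like `S_CP`, for `Shp M p`.

Sketch: the same action as for `S_CP`. New: the relation `σ_b ^ p b`. At a coset `x` moved by `s_b` the
permutation part of `Ψ σ_b` exchanges `x` and `s_b x` with trivial sections, and `p b` is even; at a coset
fixed by `s_b` the section is `σ_t` with `v α_t = α_b`, so `v s_t v⁻¹ = s_b`; `p` is a class function on the
simple reflections (let `c` be the quotient of `B` by the equivalence relation generated by the odd labels;
`s_b ↦ e_(c b)` is a homomorphism from `W` to the group of functions `c → ZMod 2`, so `t` and `b` are in the same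
class and `p t = p b`); hence the `p b`-th power is trivial. -/
def S_CP2 : Prop := ∀ (B : Type) (M : CoxeterMatrix B) (p : B → ℕ), Adm M p → ∀ (T : Set B),
  ∃ (X : Type) (x0 : X) (Ψ : Shp M p →* Wr X (Shp (rest M T) (resp p T)))
    (ρ : M.Group →* Equiv.Perm X),
    (∀ t : T, (Ψ (gen M p t)).p x0 = x0 ∧ (Ψ (gen M p t)).s x0 = gen (rest M T) (resp p T) t) ∧
    (∀ (b : B) (x : X), (Ψ (gen M p b)).s x = 1 ∨
      ∃ t : T, (Ψ (gen M p b)).s x = gen (rest M T) (resp p T) t) ∧
    (∀ b : B, (Ψ (gen M p b)).p = ρ (M.toCoxeterSystem.simple b))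

/-- (EP2) like `S_EP`, with exponents -/
def S_EP2 : Prop := ∀ (B : Type) (M : CoxeterMatrix B) (p : B → ℕ) (m : Equiv.Perm B),
  (∀ x y, M (m x) (m y) = M x y) → (∀ x, p (m x) = p x) → ∀ J : Set B, J.Finite →
  ∃ (T : Type) (_ : Finite T) (M' : CoxeterMatrix T) (p' : T → ℕ) (ι : B → T) (τ : Equiv.Perm T),
    Set.InjOn ι (J ∪ m '' J) ∧
    (∀ x ∈ J ∪ m '' J, ∀ y ∈ J ∪ m '' J, M' (ι x) (ι y) = M x y) ∧
    (∀ x ∈ J ∪ m '' J, p' (ι x) = p x) ∧
    (∀ x y, M' (τ x) (τ y) = M' x y) ∧
    (∀ x, p' (τ x) = p' x) ∧
    (∀ x ∈ J, τ (ι x) = ι (m x)) ∧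
    (∀ K : Set T, (∀ x ∈ K, ∀ y ∈ K, M' x y ≠ 0) →
      ∃ φ : K → B, Function.Injective φ ∧ (∀ x y : K, M (φ x) (φ y) = M' x y) ∧
        ∀ x : K, p (φ x) = p' x)

/-- (FR) **kernels of sections of finite range**: `N` is the kernel of the action of `G` on `X` (or a smaller normal
subgroup), every element of `N` has sections of finite range, `Ψ` is injective on `N`.

Sketch: by `S_CRIT` (`Pool.Agent.R779.FJ.t_crit`, or `Q30.FJ.crit`) one has to realize the conjugation by `g` on a
finite set `E ⊆ N`. Let `π = (Ψ g).p`, `a x = (Ψ g).s x`, `L` = closure of `E ∪ g E g⁻¹`. The section of `n ∈ L` at `x` is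
determined by the colour `c x` = the tuple of the values at `x` of the elements of `E ∪ g E g⁻¹`; there are
finitely many colours; choose `x_κ` with each colour. For each `κ` map `L ⟨g⟩` or rather `L` to the wreath product
over the `π`-orbit of `x_κ`: if the orbit is finite this is a homomorphism of the whole group to a finite
wreath product (`wres` in H73AR/Tr.lean); if it is infinite identify it with `ℤ` (`x_k = π^k x_κ`) and proceed
as in FV (there the element `g` is the pure shift, here it is `(a_k)` times the shift, where `a_k` may take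
infinitely many values; only finitely many `a_k` are needed because the window is finite: take
`r : ℤ → ℤ` or the finite window of FV with `c (r k + 1) = c (r (k+1))` and use `a_(r k)`).
A finite product over `κ` is injective on `L` and realizes the conjugation. (If it is easier, assume in
addition that `(Ψ g).s` has finite range for all `g : G`: then `N ⟨g⟩` has a homomorphism to a product of groups
as in `S_FV` and finite wreath products which is injective on `L`, and one can use
`MP_5d3e93_al.DetectedKernels`. But the statement below is the one wanted.) -/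
def S_FR : Prop := ∀ C : ∀ (G : Type) [Group G], Prop, ClosedE C →
  ∀ (A : Type) [Group A], C A → ∀ (X G : Type) [Group G] (N : Subgroup G) [N.Normal]
    (Ψ : G →* Wr X A), C (G ⧸ N) → (∀ n ∈ N, (Ψ n).p = 1) → (∀ n ∈ N, (Set.range (Ψ n).s).Finite) →
    (∀ n ∈ N, Ψ n = 1 → n = 1) → C G

end Pool.Agent.H73AR
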