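import Pool.Agent.H73AR.CP
import Pool.Agent.H73AR.Stm2

/-!
# The Charney–Paris homomorphism for the quotients of Artin groups by even powers
-/

set_option autoImplicit false

namespace Pool.Agent.H73AR

open Pool.Agent.Y462.SS (Wr)
open Pool.Agent.R676.Cox

/-! ## change of the coefficient group of a wreath product -/

/-- apply a homomorphism to the sections -/
def wmap {X A A' : Type} [Group A] [Group A'] (φ : A →* A') : Wr X A →* Wr X A' where
  toFun w := ⟨fun x => φ (w.s x), w.p⟩
  map_one' := by
    apply Wr.ext
    · funext x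
      exact map_one φ
    · rfl
  map_mul' a b := by
    apply Wr.ext
    · funext x
      exact map_mul φ _ _
    · rfl

theorem wmap_s {X A A' : Type} [Group A] [Group A'] (φ : A →* A') (w : Wr X A) (x : X) :
    (wmap φ w).s x = φ (w.s x) := rfl

theorem wmap_p {X A A' : Type} [Group A] [Group A'] (φ : A →* A') (w : Wr X A) :
    (wmap φ w).p = w.p := rfl

/-! ## powers in wreath products -/

theorem pow_p' {X A : Type} [Group A] (f : Wr X A) (n : ℕ) : (f ^ n).p = f.p ^ n := by
  induction n with
  | zero => rfl
  | succ n ih => rw [pow_succ, pow_succ, Wr.mul_p, ih]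

theorem pow_s_fix {X A : Type} [Group A] (f : Wr X A) (x : X) (h : f.p x = x) (n : ℕ) :
    (f ^ n).s x = (f.s x) ^ n := by
  induction n with
  | zero => rw [pow_zero, pow_zero, Wr.one_s]
  | succ n ih => rw [pow_succ, pow_succ, Wr.mul_s, h, ih]

theorem pow_s_one {X A : Type} [Group A] (f : Wr X A) (P : X → Prop) (hP : ∀ x, P x → P (f.p x))
    (h : ∀ x, P x → f.s x = 1) (n : ℕ) : ∀ x, P x → (f ^ n).s x = 1 := by
  induction n with
  | zero => exact fun x _ => rfl
  | succ n ih =>
    intro x hx
    rw [pow_succ, Wr.mul_s, h x hx, mul_one]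
    exact ih _ (hP x hx)

/-! ## the relations of `Shp` -/

section shp

variable {B : Type} (M : CoxeterMatrix B) (p : B → ℕ)

theorem gen_pow (b : B) : gen M p b ^ p b = 1 := by
  have h := PresentedGroup.one_of_mem (rels := shRel M p) (x := FreeGroup.of b ^ p b)
    (Or.inr ⟨b, rfl⟩)
  rw [map_pow] at h
  exact h

/-- the projection of the Artin group -/
def toShp : Art M →* Shp M p :=
  PresentedGroup.toGroup (f := fun b => gen M p b) (by
    intro r hr
    have h := PresentedGroup.one_of_mem (rels := shRel M p) (x := r) (Or.inl hr)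
    have e : FreeGroup.lift (fun b => gen M p b) = PresentedGroup.mk (shRel M p) := by
      apply FreeGroup.ext_hom
      intro b
      rw [FreeGroup.lift_apply_of]
      rfl
    rw [e]
    exact h)

theorem toShp_sig (b : B) : toShp M p (sig M b) = gen M p b := PresentedGroup.toGroup.of _

end shp

/-! ## the exponent is a class function on the simple reflections -/

theorem class_fun {B W : Type} [Group W] {M : CoxeterMatrix B} (cs : CoxeterSystem M W) (p : B → ℕ)
    (hp : ∀ a b, Odd (M a b) → p a = p b) {v : W} {t b : B}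
    (h : cs.simple b * v = v * cs.simple t) : p t = p b := by
  classical
  let f : B → Multiplicative (ZMod 2) := fun x => Multiplicative.ofAdd (if p x = p b then 1 else 0)
  have hf : M.IsLiftable f := by
    intro x y
    show Multiplicative.ofAdd _ = Multiplicative.ofAdd 0
    congr 1
    show (M x y) • ((if p x = p b then (1 : ZMod 2) else 0) + (if p y = p b then 1 else 0)) = 0
    rcases Nat.even_or_odd (M x y) with he | ho
    · obtain ⟨k, hk⟩ := he
      rw [hk, ← two_mul, mul_comm, mul_smul, two_smul, ← two_mul]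
      have : (2 : ZMod 2) = 0 := rfl
      rw [this, zero_mul, smul_zero]
    · rw [hp x y ho, ← two_mul]
      have : (2 : ZMod 2) = 0 := rfl
      rw [this, zero_mul, smul_zero]
  let F : W →* Multiplicative (ZMod 2) := cs.lift ⟨f, hf⟩
  have h1 := congrArg F h
  rw [map_mul, map_mul, mul_comm (F v)] at h1
  have h2 := mul_right_cancel h1
  have hb : F (cs.simple b) = f b := cs.lift_apply_simple hf b
  have ht : F (cs.simple t) = f t := cs.lift_apply_simple hf t
  rw [hb, ht] at h2
  have h3 : (if p b = p b then (1 : ZMod 2) else 0) = (if p t = p b then 1 else 0) := h2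
  rw [if_pos rfl] at h3
  by_contra hne
  rw [if_neg hne] at h3
  exact one_ne_zero h3

variable {B W : Type} [Group W] {M : CoxeterMatrix B} {cs : CoxeterSystem M W} {T : Set B}

/-- either the section is trivial or the coset is fixed and the section is `σ_t` with `s_b v = v s_t` -/
theorem gg_cases (b : B) (x : W ⧸ Par cs T) : (gg cs T b).s x = 1 ∨
    ∃ t : T, (gg cs T b).s x = sig (rest M T) t ∧ (gg cs T b).p x = x ∧
      cs.simple b * rp cs T x = rp cs T x * cs.simple t.1 := by
  by_cases h : ∃ t : T, geo cs (rp cs T x) (ee t.1) = ee b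
  · right
    refine ⟨h.choose, ?_, ?_, conj_of h.choose_spec⟩
    · show oo cs T b x = _
      unfold oo
      rw [dif_pos h]
    · have h1 := gg_fix (cs := cs) (T := T) h.choose.2 h.choose_spec
      have h2 : (QuotientGroup.mk (rp cs T x) : W ⧸ Par cs T) = x := rp_mk cs T x
      rwa [h2] at h1
  · left
    show oo cs T b x = _
    unfold oo
    rw [dif_neg h]

theorem gg_inv (b : B) (x : W ⧸ Par cs T) : (gg cs T b).p ((gg cs T b).p x) = x := by
  obtain ⟨v, rfl⟩ := QuotientGroup.mk_surjective x
  rw [gg_p, gg_p, cs.simple_mul_simple_cancel_left]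

theorem gg_pow (p : B → ℕ) (hA : Adm M p) (b : B) :
    (wmap (toShp (rest M T) (resp p T)) (gg cs T b)) ^ p b = 1 := by
  set w := wmap (toShp (rest M T) (resp p T)) (gg cs T b) with hw
  have hp : ∀ x, w.p (w.p x) = x := fun x => gg_inv b x
  obtain ⟨k, hk⟩ := hA.1 b
  apply Wr.ext
  · funext x
    show (w ^ p b).s x = 1
    by_cases hx : w.p x = x
    · rw [pow_s_fix w x hx]
      rcases gg_cases (cs := cs) (T := T) b x with h | ⟨t, h1, _, h3⟩
      · have : w.s x = 1 := by
          rw [hw, wmap_s, h, map_one]
        rw [this, one_pow]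
      · have h4 : p t.1 = p b := class_fun cs p hA.2 h3
        have h5 : w.s x = gen (rest M T) (resp p T) t := by
          rw [hw, wmap_s, h1, toShp_sig]
        rw [h5, ← h4]
        exact gen_pow (rest M T) (resp p T) t
    · refine pow_s_one w (fun y => w.p y ≠ y) ?_ ?_ _ x hx
      · intro y hy h
        rw [hp] at h
        exact hy h.symm
      · intro y hy
        rcases gg_cases (cs := cs) (T := T) b y with h | ⟨t, h1, h2, h3⟩
        · rw [hw, wmap_s, h, map_one]
        · exact absurd h2 hy
  · rw [pow_p', hk]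
    have h2 : w.p * w.p = 1 := Equiv.ext hp
    rw [← two_mul, pow_mul, pow_two, h2, one_pow]
    rfl

theorem t_CP2 : S_CP2 := by
  intro B M p hA T
  set cs := M.toCoxeterSystem with hcs
  have hlift : ∀ r ∈ braidRel M, FreeGroup.lift (gg cs T) r = 1 := by
    rintro r ⟨a, b, h0, rfl⟩
    have key : ∀ (x y : FreeGroup B) (n : ℕ),
        FreeGroup.lift (gg cs T) (alt x y n) =
          alt (FreeGroup.lift (gg cs T) x) (FreeGroup.lift (gg cs T) y) n := by
      intro x y n
      induction n generalizing x y with
      | zero => exact map_one _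
      | succ n ih =>
        show FreeGroup.lift (gg cs T) (x * alt y x n) = _ * _
        rw [map_mul, ih]
    rw [map_mul, map_inv, key, key, FreeGroup.lift_apply_of, FreeGroup.lift_apply_of, mul_inv_eq_one]
    exact gg_rel a b h0
  set φ := toShp (rest M T) (resp p T) with hφ
  have e : FreeGroup.lift (fun b => wmap φ (gg cs T b)) =
      (wmap φ).comp (FreeGroup.lift (gg cs T)) := by
    apply FreeGroup.ext_hom
    intro b
    rw [FreeGroup.lift_apply_of, MonoidHom.comp_apply, FreeGroup.lift_apply_of]
  have hlift2 : ∀ r ∈ shRel M p, FreeGroup.lift (fun b => wmap φ (gg cs T b)) r = 1 := by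
    rintro r (hr | ⟨b, rfl⟩)
    · rw [e, MonoidHom.comp_apply, hlift r hr, map_one]
    · rw [map_pow, FreeGroup.lift_apply_of]
      exact gg_pow p hA b
  refine ⟨M.Group ⧸ Par cs T, QuotientGroup.mk 1, PresentedGroup.toGroup hlift2,
    MulAction.toPermHom M.Group (M.Group ⧸ Par cs T), ?_, ?_, ?_⟩
  · intro t
    have e : PresentedGroup.toGroup hlift2 (gen M p t.1) = wmap φ (gg cs T t.1) :=
      PresentedGroup.toGroup.of hlift2
    rw [e]
    have h1 : geo cs 1 (ee t.1) = ee t.1 := by rw [map_one, Module.End.one_apply]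
    refine ⟨gg_fix t.2 h1, ?_⟩
    rw [wmap_s, oo_of (mn_one cs T) t h1, hφ, toShp_sig]
  · intro b x
    have e : PresentedGroup.toGroup hlift2 (gen M p b) = wmap φ (gg cs T b) :=
      PresentedGroup.toGroup.of hlift2
    rw [e]
    rcases gg_cases (cs := cs) (T := T) b x with h | ⟨t, h1, _, _⟩
    · left
      rw [wmap_s, h, map_one]
    · right
      exact ⟨t, by rw [wmap_s, h1, hφ, toShp_sig]⟩
  · intro b
    have e : PresentedGroup.toGroup hlift2 (gen M p b) = wmap φ (gg cs T b) :=
      PresentedGroup.toGroup.of hlift2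
    rw [e]
    rfl

end Pool.Agent.H73AR
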