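import Pool.Agent.H73AR.Art
import Pool.Agent.Y812.SS.Wr

/-!
# Artin groups which are products of dihedral ones
-/

set_option autoImplicit false

namespace Pool.Agent.H73AR

open Pool.Agent.Y110.FJ (ClosedE)
open Pool.Agent.Y462.SS (Closed Wr)

variable {C : ∀ (G : Type) [Group G], Prop}

/-! ## products -/

section prod

variable {B : Type} (M : CoxeterMatrix B) (S : Set B)

theorem alt_one {G : Type} [Group G] (n : ℕ) : alt (1 : G) 1 n = 1 := by
  induction n with
  | zero => rfl
  | succ n ih =>
    show 1 * alt (1 : G) 1 n = 1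
    rw [ih, one_mul]

theorem alt_prod {G H : Type} [Group G] [Group H] (n : ℕ) : ∀ (x y : G × H),
    alt x y n = (alt x.1 y.1 n, alt x.2 y.2 n) := by
  induction n with
  | zero => intro x y; rfl
  | succ n ih =>
    intro x y
    show x * alt y x n = _
    rw [ih]
    rfl

theorem C_prod_parts (hC : Closed C) (h : ∀ x y, x ∈ S → y ∉ S → M x y = 2)
    (h1 : C (Art (rest M S))) (h2 : C (Art (rest M Sᶜ))) : C (Art M) := by
  classical
  let F : B → Art (rest M S) × Art (rest M Sᶜ) := fun b =>
    if hb : b ∈ S then (sig (rest M S) ⟨b, hb⟩, 1) else (1, sig (rest M Sᶜ) ⟨b, hb⟩)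
  have hF1 : ∀ b (hb : b ∈ S), F b = (sig (rest M S) ⟨b, hb⟩, 1) := fun b hb => dif_pos hb
  have hF2 : ∀ b (hb : b ∉ S), F b = (1, sig (rest M Sᶜ) ⟨b, hb⟩) := fun b hb => dif_neg hb
  have hrel : ∀ a b, M a b ≠ 0 → alt (F a) (F b) (M a b) = alt (F b) (F a) (M a b) := by
    intro a b hab
    by_cases ha : a ∈ S
    · by_cases hb : b ∈ S
      · rw [hF1 a ha, hF1 b hb, alt_prod, alt_prod]
        have h3 := sig_rel (M := rest M S) (a := ⟨a, ha⟩) (b := ⟨b, hb⟩) hab
        exact Prod.ext h3 rfl
      · rw [hF1 a ha, hF2 b hb, h a b ha hb, alt_prod, alt_prod]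
        simp [alt]
    · by_cases hb : b ∈ S
      · rw [hF2 a ha, hF1 b hb, M.symmetric, h b a hb ha, alt_prod, alt_prod]
        simp [alt]
      · rw [hF2 a ha, hF2 b hb, alt_prod, alt_prod]
        have h3 := sig_rel (M := rest M Sᶜ) (a := ⟨a, ha⟩) (b := ⟨b, hb⟩) hab
        exact Prod.ext rfl h3
  -- the images commute
  have hcomm : ∀ (u : Art (rest M S)) (v : Art (rest M Sᶜ)), Commute (inc M S u) (inc M Sᶜ v) := by
    have hgen : ∀ (s : S) (t : (Sᶜ : Set B)), Commute (sig M s.1) (sig M t.1) := by
      intro s t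
      have h3 := h s.1 t.1 s.2 t.2
      have h4 := sig_rel (M := M) (a := s.1) (b := t.1) (by rw [h3]; exact two_ne_zero)
      rw [h3] at h4
      have h5 : sig M s.1 * sig M t.1 = sig M t.1 * sig M s.1 := by simpa [alt] using h4
      exact h5
    have h5 : ∀ (s : S) (v : Art (rest M Sᶜ)), Commute (sig M s.1) (inc M Sᶜ v) := by
      intro s v
      induction v using aind with
      | one => rw [map_one]; exact Commute.one_right _
      | mul t x ih => rw [map_mul, inc_sig]; exact (hgen s t).mul_right ih
      | inv_mul t x ih => rw [map_mul, map_inv, inc_sig]; exact ((hgen s t).inv_right).mul_right ih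
    intro u v
    induction u using aind with
    | one => rw [map_one]; exact Commute.one_left _
    | mul s x ih => rw [map_mul, inc_sig]; exact (h5 s v).mul_left ih
    | inv_mul s x ih => rw [map_mul, map_inv, inc_sig]; exact ((h5 s v).inv_left).mul_left ih
  let Φ : Art (rest M S) × Art (rest M Sᶜ) →* Art M :=
    MonoidHom.noncommCoprod (inc M S) (inc M Sᶜ) hcomm
  have hΦ : ∀ u v, Φ (u, v) = inc M S u * inc M Sᶜ v := fun u v => rfl
  have hid : Φ.comp (alift F hrel) = MonoidHom.id _ := by
    apply aext
    intro b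
    rw [MonoidHom.comp_apply, alift_sig]
    by_cases hb : b ∈ S
    · rw [hF1 b hb, hΦ, inc_sig, map_one, mul_one]
      rfl
    · rw [hF2 b hb, hΦ, inc_sig, map_one, one_mul]
      rfl
  refine hC.of_injective _ _ (alift F hrel) ?_ (hC.prod _ _ h1 h2)
  intro x y hxy
  have h3 := congrArg Φ hxy
  have h4 : ∀ z, Φ (alift F hrel z) = z := fun z => DFunLike.congr_fun hid z
  rwa [h4, h4] at h3

end prod

/-! ## one and two generators -/

section small

/-- the length homomorphism -/
def len {B : Type} (M : CoxeterMatrix B) : Art M →* Multiplicative ℤ :=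
  alift (fun _ => Multiplicative.ofAdd 1) (fun _ _ _ => rfl)

theorem len_sig {B : Type} (M : CoxeterMatrix B) (b : B) :
    len M (sig M b) = Multiplicative.ofAdd 1 := alift_sig _ _ b

theorem C_one (hC : Closed C) {B : Type} (M : CoxeterMatrix B) (b : B) (hb : ∀ x, x = b) :
    C (Art M) := by
  refine hC.of_injective _ _ (len M) ?_ hC.int
  rw [injective_iff_map_eq_one]
  intro x hx
  have h1 : ∀ x : Art M, x ∈ Subgroup.zpowers (sig M b) := by
    intro x
    induction x using aind with
    | one => exact one_mem _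
    | mul c x ih =>
      rw [hb c]
      exact mul_mem (Subgroup.mem_zpowers _) ih
    | inv_mul c x ih =>
      rw [hb c]
      exact mul_mem (inv_mem (Subgroup.mem_zpowers _)) ih
  obtain ⟨k, rfl⟩ := Subgroup.mem_zpowers_iff.1 (h1 x)
  rw [map_zpow, len_sig, ← ofAdd_zsmul, smul_eq_mul, mul_one] at hx
  have h2 : k = 0 := by simpa using hx
  rw [h2, zpow_zero]

/-- homomorphisms from finite cyclic groups -/
def zhom (n : ℕ) {G : Type} [Group G] (g : G) (h : g ^ n = 1) : Multiplicative (ZMod n) →* G :=
  AddMonoidHom.toMultiplicativeLeft (ZMod.lift n ⟨zmultiplesHom (Additive G) (Additive.ofMul g), by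
    rw [zmultiplesHom_apply, ← ofMul_zpow, zpow_natCast, h]
    rfl⟩)

theorem zhom_one (n : ℕ) {G : Type} [Group G] (g : G) (h : g ^ n = 1) :
    zhom n g h (Multiplicative.ofAdd 1) = g := by
  show Additive.toMul (ZMod.lift n _ (1 : ZMod n)) = g
  rw [← Int.cast_one, ZMod.lift_coe]
  simp

/-- a group with a central cyclic subgroup which is detected by a homomorphism to `ℤ` -/
theorem C_central (hC : Closed C) {G P : Type} [Group G] [Group P] (hP : C P)
    (l : G →* Multiplicative ℤ) (F : G →* P) (z : G) (hz : l z ≠ 1)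
    (hF : ∀ g, F g = 1 → g ∈ Subgroup.zpowers z) : C G := by
  refine hC.of_injective _ _ (F.prod l) ?_ (hC.prod _ _ hP hC.int)
  rw [injective_iff_map_eq_one]
  intro g hg
  have h1 : F g = 1 := congrArg Prod.fst hg
  have h2 : l g = 1 := congrArg Prod.snd hg
  obtain ⟨k, rfl⟩ := Subgroup.mem_zpowers_iff.1 (hF g h1)
  rw [map_zpow] at h2
  have h3 : k • Multiplicative.toAdd (l z) = 0 := by
    have := congrArg Multiplicative.toAdd h2
    simpa using this
  rw [smul_eq_mul, mul_eq_zero] at h3
  rcases h3 with h3 | h3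
  · rw [h3, zpow_zero]
  · exact absurd (Multiplicative.toAdd.injective (by simpa using h3)) hz

variable {B : Type} {M : CoxeterMatrix B} {a b : B}

theorem alt_two_mul {G : Type} [Group G] (x y : G) (k : ℕ) : alt x y (2 * k) = (x * y) ^ k := by
  induction k with
  | zero => simp [alt]
  | succ k ih =>
    show x * (y * alt x y (2 * k)) = _
    rw [ih, pow_succ', mul_assoc]

theorem alt_two_mul_add {G : Type} [Group G] (x y : G) (k : ℕ) :
    alt x y (2 * k + 1) = (x * y) ^ k * x := by
  induction k with
  | zero => simp [alt]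
  | succ k ih =>
    show x * (y * alt x y (2 * k + 1)) = _
    rw [ih, pow_succ']
    simp only [mul_assoc]

theorem conj_pow' {G : Type} [Group G] (x y : G) (k : ℕ) : x * (y * x) ^ k = (x * y) ^ k * x := by
  induction k with
  | zero => simp
  | succ k ih =>
    rw [pow_succ, ← mul_assoc, ih, pow_succ]
    simp only [mul_assoc]

/-- the relation of the two generators, as a family of homomorphisms -/
theorem rel_two {G : Type} [Group G] (hB : ∀ x, x = a ∨ x = b) (x y : G)
    (h : alt x y (M a b) = alt y x (M a b)) :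
    ∃ F : Art M →* G, F (sig M a) = x ∧ (a ≠ b → F (sig M b) = y) := by
  classical
  have hrel : ∀ c d, M c d ≠ 0 → alt (if c = a then x else y) (if d = a then x else y) (M c d) =
      alt (if d = a then x else y) (if c = a then x else y) (M c d) := by
    intro c d _
    by_cases hc : c = a
    · by_cases hd : d = a
      · rw [if_pos hc, if_pos hd]
      · have hd' : d = b := (hB d).resolve_left hd
        rw [if_pos hc, if_neg hd, hc, hd', h]
    · have hc' : c = b := (hB c).resolve_left hc
      by_cases hd : d = a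
      · rw [if_neg hc, if_pos hd, hc', hd, M.symmetric, h]
      · rw [if_neg hc, if_neg hd]
  refine ⟨alift (fun c => if c = a then x else y) hrel, ?_, fun hab => ?_⟩
  · rw [alift_sig, if_pos rfl]
  · rw [alift_sig, if_neg (Ne.symm hab)]

theorem C_two (hC : Closed C) (hab : a ≠ b) (hB : ∀ x, x = a ∨ x = b) (h0 : M a b ≠ 0) :
    C (Art M) := by
  classical
  obtain ⟨x, hx⟩ : ∃ x, x = sig M a := ⟨_, rfl⟩
  obtain ⟨y, hy⟩ : ∃ y, y = sig M b := ⟨_, rfl⟩
  have hxy : alt x y (M a b) = alt y x (M a b) := by rw [hx, hy]; exact sig_rel h0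
  have hlx : len M x = Multiplicative.ofAdd 1 := by rw [hx]; exact len_sig M a
  have hly : len M y = Multiplicative.ofAdd 1 := by rw [hy]; exact len_sig M b
  have hall : ∀ {H : Type} [Group H] (f g : Art M →* H), f x = g x → f y = g y → f = g := by
    intro H _ f g h1 h2
    apply aext
    intro c
    rcases hB c with rfl | rfl
    · rw [← hx]; exact h1
    · rw [← hy]; exact h2
  rcases Nat.even_or_odd' (M a b) with ⟨k, hk | hk⟩
  · -- even label
    have hk0 : k ≠ 0 := by
      rintro rfl
      exact h0 (by rw [hk])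
    have : NeZero k := ⟨hk0⟩
    obtain ⟨z, hz⟩ : ∃ z, z = (x * y) ^ k := ⟨_, rfl⟩
    have hzr : z = (y * x) ^ k := by
      rw [hz]
      rw [hk, alt_two_mul, alt_two_mul] at hxy
      exact hxy
    have hzx : x * z = z * x := by
      conv_lhs => rw [hzr, conj_pow', ← hz]
    have hzy : y * z = z * y := by
      conv_lhs => rw [hz, conj_pow', ← hzr]
    have hcen : ∀ g : Art M, g * z = z * g := by
      intro g
      have h1 : ∀ c, sig M c * z = z * sig M c := by
        intro c
        rcases hB c with rfl | rfl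
        · rw [← hx]; exact hzx
        · rw [← hy]; exact hzy
      induction g using aind with
      | one => rw [one_mul, mul_one]
      | mul c g ih => rw [mul_assoc, ih, ← mul_assoc, h1, mul_assoc]
      | inv_mul c g ih =>
        have h2 : (sig M c)⁻¹ * z = z * (sig M c)⁻¹ := by
          rw [inv_mul_eq_iff_eq_mul, ← mul_assoc, h1, mul_inv_cancel_right]
        rw [mul_assoc, ih, ← mul_assoc, h2, mul_assoc]
    have hnorm : (Subgroup.zpowers z).Normal := by
      refine ⟨?_⟩
      rintro _ ⟨j, rfl⟩ g
      have h1 : Commute g z := hcen g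
      have h2 : g * z ^ j * g⁻¹ = z ^ j := by
        rw [(h1.zpow_right j).eq, mul_inv_cancel_right]
      show g * z ^ j * g⁻¹ ∈ _
      rw [h2]
      exact ⟨j, rfl⟩
    -- the free product
    obtain ⟨F, hFa, hFb⟩ := rel_two (M := M) (a := a) (b := b)
      (G := Monoid.Coprod (Multiplicative ℤ) (Multiplicative (ZMod k))) hB
      (Monoid.Coprod.inl (Multiplicative.ofAdd 1))
      ((Monoid.Coprod.inl (Multiplicative.ofAdd 1))⁻¹ * Monoid.Coprod.inr (Multiplicative.ofAdd 1))
      (by
        have h1 : (Monoid.Coprod.inr (Multiplicative.ofAdd (1 : ZMod k)) :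
            Monoid.Coprod (Multiplicative ℤ) (Multiplicative (ZMod k))) ^ k = 1 := by
          rw [← map_pow, ← ofAdd_nsmul]
          simp
        rw [hk, alt_two_mul, alt_two_mul, mul_inv_cancel_left, h1]
        generalize (Monoid.Coprod.inl (Multiplicative.ofAdd 1) :
          Monoid.Coprod (Multiplicative ℤ) (Multiplicative (ZMod k))) = u at *
        generalize (Monoid.Coprod.inr (Multiplicative.ofAdd (1 : ZMod k)) :
            Monoid.Coprod (Multiplicative ℤ) (Multiplicative (ZMod k))) = v at *
        have h2 : (u⁻¹ * v * u) ^ k = u⁻¹ * v ^ k * u := by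
          have := conj_pow (a := u⁻¹) (b := v) (i := k)
          simpa using this
        rw [h2, h1]
        group)
    rw [← hx] at hFa
    have hFb' := hFb hab
    rw [← hy] at hFb'
    refine C_central hC (P := Monoid.Coprod (Multiplicative ℤ) (Multiplicative (ZMod k)))
      (hC.coprod _ _ hC.int (Pool.Agent.Y812.SS.C_finite hC _)) (len M) F z ?_ ?_
    · rw [hz, map_pow, map_mul, hlx, hly, ← ofAdd_add, ← ofAdd_nsmul]
      intro h
      have h1 : k • ((1 : ℤ) + 1) = 0 := by simpa using h
      simp [hk0] at h1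
    · -- the map back
      let q : Art M →* Art M ⧸ Subgroup.zpowers z := QuotientGroup.mk' _
      have hqz : q z = 1 := (QuotientGroup.eq_one_iff _).2 (Subgroup.mem_zpowers z)
      let R : Monoid.Coprod (Multiplicative ℤ) (Multiplicative (ZMod k)) →*
          Art M ⧸ Subgroup.zpowers z :=
        Monoid.Coprod.lift (zpowersHom _ (q x))
          (zhom k (q (x * y)) (by rw [← map_pow, ← hz, hqz]))
      have hR1 : R (Monoid.Coprod.inl (Multiplicative.ofAdd 1)) = q x := by
        show Monoid.Coprod.lift _ _ _ = _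
        rw [Monoid.Coprod.lift_apply_inl]
        simp
      have hR2 : R (Monoid.Coprod.inr (Multiplicative.ofAdd 1)) = q (x * y) := by
        show Monoid.Coprod.lift _ _ _ = _
        rw [Monoid.Coprod.lift_apply_inr, zhom_one]
      have hRF : R.comp F = q := by
        apply hall
        · rw [MonoidHom.comp_apply, hFa, hR1]
        · rw [MonoidHom.comp_apply, hFb', map_mul, map_inv, hR1, hR2, map_mul,
            inv_mul_cancel_left]
      intro g hg
      have h1 : q g = 1 := by
        rw [← hRF, MonoidHom.comp_apply, hg, map_one]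
      exact (QuotientGroup.eq_one_iff _).1 h1
  · -- odd label
    obtain ⟨m, hm⟩ : ∃ m, m = 2 * k + 1 := ⟨_, rfl⟩
    have : NeZero m := ⟨by omega⟩
    obtain ⟨d, hd⟩ : ∃ d, d = (x * y) ^ k * x := ⟨_, rfl⟩
    have hdr : d = (y * x) ^ k * y := by
      rw [hk, alt_two_mul_add, alt_two_mul_add] at hxy
      rw [hd]; exact hxy
    have hxd : x * d = d * y := by
      rw [hdr, ← mul_assoc, conj_pow', ← hd, hdr]
    have hyd : y * d = d * x := by
      rw [hd, ← mul_assoc, conj_pow', ← hdr, hd]
    obtain ⟨z, hz⟩ : ∃ z, z = d * d := ⟨_, rfl⟩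
    have hzx : x * z = z * x := by
      rw [hz, ← mul_assoc, hxd, mul_assoc, hyd, ← mul_assoc]
    have hzy : y * z = z * y := by
      rw [hz, ← mul_assoc, hyd, mul_assoc, hxd, ← mul_assoc]
    have hzc : z = (x * y) ^ m := by
      rw [hz, hm]
      have h1 : d = y * (x * y) ^ k := by rw [hdr, conj_pow']
      conv_lhs => rw [hd, ← hd]
      calc d * d = ((x * y) ^ k * x) * (y * (x * y) ^ k) := by rw [← h1, ← hd]
        _ = (x * y) ^ k * (x * y) * (x * y) ^ k := by simp only [mul_assoc]
        _ = (x * y) ^ (2 * k + 1) := by rw [← pow_succ, ← pow_add]; congr 1; omega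
    have hcen : ∀ g : Art M, g * z = z * g := by
      intro g
      have h1 : ∀ c, sig M c * z = z * sig M c := by
        intro c
        rcases hB c with rfl | rfl
        · rw [← hx]; exact hzx
        · rw [← hy]; exact hzy
      induction g using aind with
      | one => rw [one_mul, mul_one]
      | mul c g ih => rw [mul_assoc, ih, ← mul_assoc, h1, mul_assoc]
      | inv_mul c g ih =>
        have h2 : (sig M c)⁻¹ * z = z * (sig M c)⁻¹ := by
          rw [inv_mul_eq_iff_eq_mul, ← mul_assoc, h1, mul_inv_cancel_right]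
        rw [mul_assoc, ih, ← mul_assoc, h2, mul_assoc]
    have hnorm : (Subgroup.zpowers z).Normal := by
      refine ⟨?_⟩
      rintro _ ⟨j, rfl⟩ g
      have h1 : Commute g z := hcen g
      have h2 : g * z ^ j * g⁻¹ = z ^ j := by
        rw [(h1.zpow_right j).eq, mul_inv_cancel_right]
      show g * z ^ j * g⁻¹ ∈ _
      rw [h2]
      exact ⟨j, rfl⟩
    obtain ⟨u, hu⟩ : ∃ u : Monoid.Coprod (Multiplicative (ZMod 2)) (Multiplicative (ZMod m)),
      u = Monoid.Coprod.inl (Multiplicative.ofAdd 1) := ⟨_, rfl⟩
    obtain ⟨v, hv⟩ : ∃ v : Monoid.Coprod (Multiplicative (ZMod 2)) (Multiplicative (ZMod m)),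
      v = Monoid.Coprod.inr (Multiplicative.ofAdd 1) := ⟨_, rfl⟩
    have huu : u * u = 1 := by
      rw [hu, ← map_mul]
      have : (Multiplicative.ofAdd (1 : ZMod 2)) * Multiplicative.ofAdd (1 : ZMod 2) = 1 := by
        decide
      rw [this, map_one]
    have hvv : v ^ m = 1 := by
      rw [hv, ← map_pow, ← ofAdd_nsmul]
      simp
    obtain ⟨F, hFa, hFb⟩ := rel_two (M := M) (a := a) (b := b)
      (G := Monoid.Coprod (Multiplicative (ZMod 2)) (Multiplicative (ZMod m))) hB
      ((v ^ k)⁻¹ * u) (u * v ^ (k + 1))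
      (by
        have h1 : (v ^ k)⁻¹ * u * (u * v ^ (k + 1)) = v := by
          rw [mul_assoc, ← mul_assoc u u, huu, one_mul, pow_succ, inv_mul_cancel_left]
        rw [hk, alt_two_mul_add, h1, mul_inv_cancel_left, alt_two_mul_add, ← conj_pow', h1, mul_assoc,
          ← pow_add]
        have h2 : k + 1 + k = m := by omega
        rw [h2, hvv, mul_one])
    rw [← hx] at hFa
    have hFb' := hFb hab
    rw [← hy] at hFb'
    refine C_central hC (P := Monoid.Coprod (Multiplicative (ZMod 2)) (Multiplicative (ZMod m)))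
      (hC.coprod _ _ (Pool.Agent.Y812.SS.C_finite hC _) (Pool.Agent.Y812.SS.C_finite hC _)) (len M) F
      z ?_ ?_
    · rw [hzc, map_pow, map_mul, hlx, hly, ← ofAdd_add, ← ofAdd_nsmul]
      intro h
      have h1 : m • ((1 : ℤ) + 1) = 0 := by simpa using h
      simp at h1
      omega
    · let q : Art M →* Art M ⧸ Subgroup.zpowers z := QuotientGroup.mk' _
      have hqz : q z = 1 := (QuotientGroup.eq_one_iff _).2 (Subgroup.mem_zpowers z)
      let R : Monoid.Coprod (Multiplicative (ZMod 2)) (Multiplicative (ZMod m)) →*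
          Art M ⧸ Subgroup.zpowers z :=
        Monoid.Coprod.lift
          (zhom 2 (q d) (by rw [← map_pow, pow_two, ← hz, hqz]))
          (zhom m (q (x * y)) (by rw [← map_pow, ← hzc, hqz]))
      have hR1 : R u = q d := by
        rw [hu]
        show Monoid.Coprod.lift _ _ _ = _
        rw [Monoid.Coprod.lift_apply_inl, zhom_one]
      have hR2 : R v = q (x * y) := by
        rw [hv]
        show Monoid.Coprod.lift _ _ _ = _
        rw [Monoid.Coprod.lift_apply_inr, zhom_one]
      have hRF : R.comp F = q := by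
        apply hall
        · rw [MonoidHom.comp_apply, hFa, map_mul, map_inv, map_pow, hR1, hR2, ← map_pow, ← map_inv,
            ← map_mul, hd, inv_mul_cancel_left]
        · rw [MonoidHom.comp_apply, hFb', map_mul, map_pow, hR1, hR2, ← map_pow, ← map_mul]
          have h1 : d * (x * y) ^ (k + 1) = z * y := by
            have h2 : (x * y) ^ (k + 1) = d * y := by
              rw [pow_succ, hd]
              simp only [mul_assoc]
            rw [h2, hz, mul_assoc]
          rw [h1, map_mul, hqz, one_mul]
      intro g hg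
      have h1 : q g = 1 := by
        rw [← hRF, MonoidHom.comp_apply, hg, map_one]
      exact (QuotientGroup.eq_one_iff _).1 h1

end small

/-- Artin groups whose matrix has no label `∞` and whose labels greater than `2` are disjoint -/
theorem C_dih (hC : Closed C) (n : ℕ) : ∀ (B : Type) [Finite B] (M : CoxeterMatrix B),
    Nat.card B = n → (∀ x y, M x y ≠ 0) →
    (∀ x y z, x ≠ y → x ≠ z → y ≠ z → M x y = 2 ∨ M x z = 2) → C (Art M) := by
  classical
  induction n using Nat.strong_induction_on with
  | _ n ih =>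
    intro B _ M hB h0 h2
    rcases isEmpty_or_nonempty B with hE | ⟨⟨x⟩⟩
    · have : Subsingleton (Art M) := ⟨fun u v => by
        have h : ∀ u : Art M, u = 1 := by
          intro u
          induction u using aind with
          | one => rfl
          | mul b _ _ => exact (hE.false b).elim
          | inv_mul b _ _ => exact (hE.false b).elim
        rw [h u, h v]⟩
      exact Pool.Agent.Y812.SS.C_subsingleton hC _
    · have hstep : ∀ S : Set B, x ∈ S → (∀ u v, u ∈ S → v ∉ S → M u v = 2) →
          C (Art (rest M S)) → C (Art M) := by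
        intro S hxS hS hCS
        refine C_prod_parts M S hC hS hCS (ih (Nat.card (Sᶜ : Set B)) ?_ _ _ rfl
          (fun u v => h0 _ _) (fun u v w huv huw hvw => h2 _ _ _ (fun h => huv (Subtype.ext h))
            (fun h => huw (Subtype.ext h)) (fun h => hvw (Subtype.ext h))))
        rw [Nat.card_coe_set_eq, ← hB, ← Set.ncard_univ]
        refine Set.ncard_lt_ncard ?_ (Set.toFinite _)
        rw [Set.ssubset_univ_iff]
        intro h
        have h3 : x ∈ (Sᶜ : Set B) := by rw [h]; trivial
        exact h3 hxS
      by_cases hy : ∃ y, x ≠ y ∧ M x y ≠ 2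
      · obtain ⟨y, hxy, hxy2⟩ := hy
        have hyx2 : M y x ≠ 2 := by rw [M.symmetric]; exact hxy2
        refine hstep {x, y} (Set.mem_insert _ _) ?_ ?_
        · intro u v hu hv
          have hvx : v ≠ x := fun h => hv (by rw [h]; exact Set.mem_insert _ _)
          have hvy : v ≠ y := fun h => hv (by rw [h]; exact Set.mem_insert_of_mem _ rfl)
          rcases hu with rfl | hu
          · exact (h2 u y v hxy hvx.symm hvy.symm).resolve_left hxy2
          · have hu' : u = y := hu
            rw [hu']
            exact (h2 y x v hxy.symm hvy.symm hvx.symm).resolve_left hyx2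
        · refine C_two (M := rest M {x, y}) (a := ⟨x, Set.mem_insert _ _⟩)
            (b := ⟨y, Set.mem_insert_of_mem _ rfl⟩) hC (fun h => hxy (congrArg Subtype.val h)) ?_
            (h0 _ _)
          rintro ⟨u, hu⟩
          rcases hu with rfl | hu
          · exact Or.inl rfl
          · exact Or.inr (Subtype.ext hu)
      · push Not at hy
        refine hstep {x} rfl ?_ ?_
        · intro u v hu hv
          have hu' : u = x := hu
          rw [hu']
          exact hy v (fun h => hv (by rw [← h]; rfl))
        · refine C_one hC (rest M {x}) ⟨x, rfl⟩ ?_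
          rintro ⟨u, hu⟩
          exact Subtype.ext hu

end Pool.Agent.H73AR
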