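import Pool.Agent.H73AR.Stm

/-!
# Piece EP: finite parts of automorphisms of Coxeter matrices
-/

set_option autoImplicit false

namespace Pool.Agent.H73AR.EPp

variable {B : Type} (m : Equiv.Perm B) (J₁ : Set B)

/-- periodic elements -/
def Per (x : B) : Prop := ∃ p : ℤ, 0 < p ∧ (m ^ p) x = x

/-- close pairs -/
def Cl (x y : B) : Prop := ∃ j : ℤ, (m ^ j) x ∈ J₁ ∧ (m ^ j) y ∈ J₁

theorem zz (a b : ℤ) (x : B) : (m ^ (a + b)) x = (m ^ a) ((m ^ b) x) := by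
  rw [zpow_add, Equiv.Perm.mul_apply]

theorem fixmul {p : ℤ} {x : B} (h : (m ^ p) x = x) (k : ℤ) : (m ^ (p * k)) x = x := by
  rw [zpow_mul]
  exact Equiv.Perm.zpow_apply_eq_self_of_apply_eq_self h k

theorem Per.zpow {x : B} (h : Per m x) (j : ℤ) : Per m ((m ^ j) x) := by
  obtain ⟨p, hp, h⟩ := h
  refine ⟨p, hp, ?_⟩
  rw [← zz, add_comm, zz, h]

theorem Per.of_zpow {x : B} {j : ℤ} (h : Per m ((m ^ j) x)) : Per m x := by
  have := h.zpow m (-j)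
  rwa [← zz, neg_add_cancel, zpow_zero, Equiv.Perm.one_apply] at this

theorem inj_of_not_per {x : B} (h : ¬ Per m x) : Function.Injective fun j : ℤ => (m ^ j) x := by
  intro a b hab
  simp only at hab
  by_contra hne
  apply h
  rcases lt_or_gt_of_ne hne with h1 | h1
  · refine ⟨b - a, by omega, ?_⟩
    rw [sub_eq_neg_add, zz, ← hab, ← zz, neg_add_cancel, zpow_zero, Equiv.Perm.one_apply]
  · refine ⟨a - b, by omega, ?_⟩
    rw [sub_eq_neg_add, zz, hab, ← zz, neg_add_cancel, zpow_zero, Equiv.Perm.one_apply]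

theorem exists_n (hJ : J₁.Finite) : ∃ n : ℤ, 0 < n ∧ (∀ x ∈ J₁, Per m x → (m ^ n) x = x) ∧
    (∀ x ∈ J₁, ¬ Per m x → ∀ j : ℤ, (m ^ j) x ∈ J₁ → 3 * |j| < n) := by
  classical
  have h1 : ∃ N : ℤ, 0 < N ∧ ∀ x ∈ J₁, Per m x → (m ^ N) x = x := by
    have : ∀ x : B, ∃ p : ℤ, 0 < p ∧ (Per m x → (m ^ p) x = x) := by
      intro x
      by_cases h : Per m x
      · obtain ⟨p, hp, h⟩ := h
        exact ⟨p, hp, fun _ => h⟩
      · exact ⟨1, one_pos, fun h' => absurd h' h⟩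
    choose p hp hp' using this
    refine ⟨∏ x ∈ hJ.toFinset, p x, Finset.prod_pos fun x _ => hp x, ?_⟩
    intro x hx hper
    have hd : p x ∣ ∏ x ∈ hJ.toFinset, p x := Finset.dvd_prod_of_mem p (by simpa using hx)
    obtain ⟨k, hk⟩ := hd
    rw [hk]
    exact fixmul m (hp' x hper) k
  obtain ⟨N, hN, h1⟩ := h1
  have h2 : ({j : ℤ | ∃ x ∈ J₁, ¬ Per m x ∧ (m ^ j) x ∈ J₁}).Finite := by
    have : {j : ℤ | ∃ x ∈ J₁, ¬ Per m x ∧ (m ^ j) x ∈ J₁} =
        ⋃ x ∈ {x ∈ J₁ | ¬ Per m x}, {j : ℤ | (m ^ j) x ∈ J₁} := by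
      ext j
      simp [and_assoc]
    rw [this]
    refine Set.Finite.biUnion (hJ.subset (Set.sep_subset _ _)) ?_
    rintro x ⟨_, hx⟩
    exact Set.Finite.preimage (f := fun j : ℤ => (m ^ j) x) (inj_of_not_per m hx).injOn hJ
  obtain ⟨D, hD⟩ := (h2.image fun j => |j|).bddAbove
  have hD' : ∀ x ∈ J₁, ¬ Per m x → ∀ j : ℤ, (m ^ j) x ∈ J₁ → |j| ≤ |D| := by
    intro x hx hper j hj
    have : |j| ≤ D := hD ⟨j, ⟨x, hx, hper, hj⟩, rfl⟩
    exact this.trans (le_abs_self D)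
  refine ⟨N * (3 * |D| + 1), by positivity, ?_, ?_⟩
  · intro x hx hper
    exact fixmul m (h1 x hx hper) _
  · intro x hx hper j hj
    have := hD' x hx hper j hj
    nlinarith [abs_nonneg D]

variable {m J₁}

theorem Cl.symm {x y : B} (h : Cl m J₁ x y) : Cl m J₁ y x := by
  obtain ⟨j, h1, h2⟩ := h
  exact ⟨j, h2, h1⟩

theorem Cl.zpow {x y : B} (h : Cl m J₁ x y) (k : ℤ) : Cl m J₁ ((m ^ k) x) ((m ^ k) y) := by
  obtain ⟨j, h1, h2⟩ := h
  refine ⟨j - k, ?_, ?_⟩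
  · rwa [← zz, sub_add_cancel]
  · rwa [← zz, sub_add_cancel]

section

variable {n : ℤ} (hn1 : ∀ x ∈ J₁, Per m x → (m ^ n) x = x)
  (hn2 : ∀ x ∈ J₁, ¬ Per m x → ∀ j : ℤ, (m ^ j) x ∈ J₁ → 3 * |j| < n)

include hn1 in
theorem fix_of_per {x : B} {j : ℤ} (hx : (m ^ j) x ∈ J₁) (hp : Per m x) (k : ℤ) :
    (m ^ (n * k)) x = x := by
  apply fixmul
  have h := hn1 _ hx (hp.zpow m j)
  rw [← zz, add_comm, zz] at h
  exact (m ^ j).injective h

include hn2 in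
theorem bound_of_not_per {x : B} {a b : ℤ} (ha : (m ^ a) x ∈ J₁) (hb : (m ^ b) x ∈ J₁)
    (hp : ¬ Per m x) : 3 * |b - a| < n := by
  apply hn2 _ ha (fun h => hp (h.of_zpow m))
  rw [← zz, sub_add_cancel]
  exact hb

end

/-- the automorphisms of a matrix -/
def autS {B : Type} (M : CoxeterMatrix B) : Subgroup (Equiv.Perm B) where
  carrier := {g | ∀ x y, M (g x) (g y) = M x y}
  mul_mem' := by
    intro a b ha hb x y
    rw [Equiv.Perm.mul_apply, Equiv.Perm.mul_apply, ha, hb]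
  one_mem' := fun _ _ => rfl
  inv_mem' := by
    intro a ha x y
    have := ha (a.symm x) (a.symm y)
    rw [Equiv.apply_symm_apply, Equiv.apply_symm_apply] at this
    exact this.symm

theorem aut_zpow {M : CoxeterMatrix B} (hm : ∀ x y, M (m x) (m y) = M x y) (k : ℤ) (x y : B) :
    M ((m ^ k) x) ((m ^ k) y) = M x y :=
  (autS M).zpow_mem (show m ∈ autS M from hm) k x y

/-- the quotient -/
def Vt (m : Equiv.Perm B) (J₁ : Set B) : Type := {x : B // ∃ j : ℤ, (m ^ j) x ∈ J₁}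

/-- the quotient -/
def qs (m : Equiv.Perm B) (J₁ : Set B) (n : ℤ) : Setoid (Vt m J₁) where
  r x y := ∃ k : ℤ, y.1 = (m ^ (n * k)) x.1
  iseqv := by
    refine ⟨fun x => ⟨0, by simp⟩, ?_, ?_⟩
    · rintro x y ⟨k, hk⟩
      refine ⟨-k, ?_⟩
      rw [hk, ← zz]
      simp
    · rintro x y z ⟨k, hk⟩ ⟨l, hl⟩
      refine ⟨l + k, ?_⟩
      rw [hl, hk, ← zz, mul_add]


section Main

variable {B : Type} {M : CoxeterMatrix B} {m : Equiv.Perm B} {J₁ : Set B} {n : ℤ}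
  (hm : ∀ x y, M (m x) (m y) = M x y)
  (hn0 : 0 < n)
  (hn1 : ∀ x ∈ J₁, Per m x → (m ^ n) x = x)
  (hn2 : ∀ x ∈ J₁, ¬ Per m x → ∀ j : ℤ, (m ^ j) x ∈ J₁ → 3 * |j| < n)

include hm hn0 hn1 hn2 in
/-- close pairs in the same pair of classes have the same label -/
theorem wd {x y : B} {c : ℤ} (h : Cl m J₁ x y) (h' : Cl m J₁ x ((m ^ (n * c)) y)) :
    M x ((m ^ (n * c)) y) = M x y := by
  obtain ⟨j, h1, h2⟩ := h
  obtain ⟨j', h1', h2'⟩ := h'
  by_cases hy : Per m y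
  · rw [fix_of_per hn1 h2 hy]
  by_cases hx : Per m x
  · have := aut_zpow hm (n * c) x y
    rwa [fix_of_per hn1 h1 hx] at this
  rw [← zz] at h2'
  have b1 := bound_of_not_per hn2 h1 h1' hx
  have b2 := bound_of_not_per hn2 h2 h2' hy
  have hc : c = 0 := by
    by_contra hc
    have h3 : n ≤ |n * c| := by
      rw [abs_mul, abs_of_pos hn0]
      nlinarith [Int.one_le_abs hc]
    have h4 : |n * c| ≤ |j' + n * c - j| + |j' - j| := by
      have : n * c = (j' + n * c - j) - (j' - j) := by ring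
      calc |n * c| = |(j' + n * c - j) - (j' - j)| := by rw [← this]
        _ ≤ _ := abs_sub _ _
    omega
  rw [hc, mul_zero, zpow_zero, Equiv.Perm.one_apply]

include hm hn0 hn1 hn2 in
/-- the general form -/
theorem wd' {x y : B} {a b : ℤ} (h : Cl m J₁ x y)
    (h' : Cl m J₁ ((m ^ (n * a)) x) ((m ^ (n * b)) y)) :
    M ((m ^ (n * a)) x) ((m ^ (n * b)) y) = M x y := by
  have e : (m ^ (n * b)) y = (m ^ (n * a)) ((m ^ (n * (b - a))) y) := by
    rw [← zz]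
    congr 2
    ring
  rw [e] at h' ⊢
  rw [aut_zpow hm]
  apply wd hm hn0 hn1 hn2 h
  have := h'.zpow (-(n * a))
  rwa [← zz, ← zz, neg_add_cancel, zpow_zero, Equiv.Perm.one_apply, Equiv.Perm.one_apply] at this

/-- the class -/
def qc (m : Equiv.Perm B) (J₁ : Set B) (n : ℤ) (x : Vt m J₁) : Quotient (qs m J₁ n) :=
  Quotient.mk _ x

theorem qc_eq {x y : Vt m J₁} : qc m J₁ n x = qc m J₁ n y ↔ ∃ k : ℤ, y.1 = (m ^ (n * k)) x.1 :=
  Quotient.eq (r := qs m J₁ n)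

/-- there is a close pair -/
def HasCl (m : Equiv.Perm B) (J₁ : Set B) (n : ℤ) (X Y : Quotient (qs m J₁ n)) : Prop :=
  ∃ p : Vt m J₁ × Vt m J₁, qc m J₁ n p.1 = X ∧ qc m J₁ n p.2 = Y ∧ Cl m J₁ p.1.1 p.2.1

open scoped Classical in
/-- the label -/
noncomputable def lab (M : CoxeterMatrix B) (m : Equiv.Perm B) (J₁ : Set B) (n : ℤ)
    (X Y : Quotient (qs m J₁ n)) : ℕ :=
  if h : HasCl m J₁ n X Y then M h.choose.1.1 h.choose.2.1 else 0

include hm hn0 hn1 hn2 in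
theorem lab_eq {x y : Vt m J₁} (h : Cl m J₁ x.1 y.1) :
    lab M m J₁ n (qc m J₁ n x) (qc m J₁ n y) = M x.1 y.1 := by
  have hh : HasCl m J₁ n (qc m J₁ n x) (qc m J₁ n y) := ⟨(x, y), rfl, rfl, h⟩
  unfold lab
  rw [dif_pos hh]
  obtain ⟨h1, h2, h3⟩ := hh.choose_spec
  obtain ⟨a, ha⟩ := qc_eq.1 h1.symm
  obtain ⟨b, hb⟩ := qc_eq.1 h2.symm
  rw [ha, hb] at h3 ⊢
  exact wd' hm hn0 hn1 hn2 h h3

theorem lab_zero {X Y : Quotient (qs m J₁ n)} (h : ¬ HasCl m J₁ n X Y) :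
    lab M m J₁ n X Y = 0 := by
  unfold lab
  rw [dif_neg h]

theorem HasCl.symm {X Y : Quotient (qs m J₁ n)} (h : HasCl m J₁ n X Y) : HasCl m J₁ n Y X := by
  obtain ⟨⟨x, y⟩, h1, h2, h3⟩ := h
  exact ⟨(y, x), h2, h1, h3.symm⟩

include hm hn0 hn1 hn2 in
theorem lab_symm (X Y : Quotient (qs m J₁ n)) : lab M m J₁ n X Y = lab M m J₁ n Y X := by
  by_cases h : HasCl m J₁ n X Y
  · obtain ⟨⟨x, y⟩, rfl, rfl, h3⟩ := h
    rw [lab_eq hm hn0 hn1 hn2 h3, lab_eq hm hn0 hn1 hn2 h3.symm]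
    exact M.symmetric _ _
  · rw [lab_zero h, lab_zero (fun h' => h h'.symm)]

theorem cl_self (x : Vt m J₁) : Cl m J₁ x.1 x.1 := by
  obtain ⟨j, hj⟩ := x.2
  exact ⟨j, hj, hj⟩

/-- the finite Coxeter matrix -/
noncomputable def fM (M : CoxeterMatrix B) (m : Equiv.Perm B) (J₁ : Set B) (n : ℤ)
    (hm : ∀ x y, M (m x) (m y) = M x y) (hn0 : 0 < n)
    (hn1 : ∀ x ∈ J₁, Per m x → (m ^ n) x = x)
    (hn2 : ∀ x ∈ J₁, ¬ Per m x → ∀ j : ℤ, (m ^ j) x ∈ J₁ → 3 * |j| < n) :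
    CoxeterMatrix (Quotient (qs m J₁ n)) where
  M := Matrix.of fun X Y => lab M m J₁ n X Y
  isSymm := by
    ext X Y
    exact lab_symm hm hn0 hn1 hn2 _ _
  diagonal X := by
    obtain ⟨x, rfl⟩ := Quotient.exists_rep X
    have := lab_eq hm hn0 hn1 hn2 (cl_self x)
    rw [M.diagonal] at this
    exact this
  off_diagonal X Y hXY := by
    intro h
    change lab M m J₁ n X Y = 1 at h
    by_cases hc : HasCl m J₁ n X Y
    · obtain ⟨⟨x, y⟩, rfl, rfl, h3⟩ := hc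
      rw [lab_eq hm hn0 hn1 hn2 h3] at h
      refine M.off_diagonal _ _ ?_ h
      intro hxy
      exact hXY (congrArg (qc m J₁ n) (Subtype.ext hxy))
    · rw [lab_zero hc] at h
      exact absurd h (by norm_num)

/-- the shift on representatives -/
def vs (m : Equiv.Perm B) (J₁ : Set B) : Equiv.Perm (Vt m J₁) where
  toFun x := ⟨m x.1, by
    obtain ⟨j, hj⟩ := x.2
    refine ⟨j - 1, ?_⟩
    have : m x.1 = (m ^ (1 : ℤ)) x.1 := by rw [zpow_one]
    rwa [this, ← zz, sub_add_cancel]⟩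
  invFun x := ⟨m.symm x.1, by
    obtain ⟨j, hj⟩ := x.2
    refine ⟨j + 1, ?_⟩
    rw [zz, zpow_one, Equiv.apply_symm_apply]
    exact hj⟩
  left_inv x := Subtype.ext (m.symm_apply_apply _)
  right_inv x := Subtype.ext (m.apply_symm_apply _)

theorem comm1 (k : ℤ) (x : B) : m ((m ^ k) x) = (m ^ k) (m x) := by
  have : m ((m ^ k) x) = (m ^ (1 : ℤ)) ((m ^ k) x) := by rw [zpow_one]
  rw [this, ← zz, add_comm, zz, zpow_one]

/-- the shift on classes -/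
def ts (m : Equiv.Perm B) (J₁ : Set B) (n : ℤ) : Equiv.Perm (Quotient (qs m J₁ n)) :=
  Quotient.congr (vs m J₁) (by
    intro x y
    constructor
    · rintro ⟨k, hk⟩
      refine ⟨k, ?_⟩
      change m y.1 = (m ^ (n * k)) (m x.1)
      rw [hk, comm1]
    · rintro ⟨k, hk⟩
      refine ⟨k, ?_⟩
      change m y.1 = (m ^ (n * k)) (m x.1) at hk
      apply m.injective
      rw [hk, comm1])

theorem ts_qc (x : Vt m J₁) : ts m J₁ n (qc m J₁ n x) = qc m J₁ n (vs m J₁ x) := rfl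

theorem cl_vs {x y : Vt m J₁} : Cl m J₁ (vs m J₁ x).1 (vs m J₁ y).1 ↔ Cl m J₁ x.1 y.1 := by
  constructor
  · intro h
    have := h.zpow (-1)
    change Cl m J₁ ((m ^ (-1 : ℤ)) (m x.1)) ((m ^ (-1 : ℤ)) (m y.1)) at this
    rw [← comm1, ← comm1] at this
    have e : ∀ z, m ((m ^ (-1 : ℤ)) z) = z := by
      intro z
      have : m ((m ^ (-1 : ℤ)) z) = (m ^ (1 : ℤ)) ((m ^ (-1 : ℤ)) z) := by rw [zpow_one]
      rw [this, ← zz]
      simp
    rwa [e, e] at this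
  · intro h
    have := h.zpow 1
    rwa [zpow_one] at this

include hm hn0 hn1 hn2 in
theorem lab_ts (X Y : Quotient (qs m J₁ n)) :
    lab M m J₁ n (ts m J₁ n X) (ts m J₁ n Y) = lab M m J₁ n X Y := by
  by_cases h : HasCl m J₁ n X Y
  · obtain ⟨⟨x, y⟩, rfl, rfl, h3⟩ := h
    simp only at h3 ⊢
    rw [ts_qc, ts_qc, lab_eq hm hn0 hn1 hn2 h3, lab_eq hm hn0 hn1 hn2 (cl_vs.2 h3)]
    exact hm _ _
  · rw [lab_zero h, lab_zero]
    rintro ⟨⟨x, y⟩, h1, h2, h3⟩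
    apply h
    obtain ⟨x, rfl⟩ := (vs m J₁).surjective x
    obtain ⟨y, rfl⟩ := (vs m J₁).surjective y
    refine ⟨(x, y), ?_, ?_, cl_vs.1 h3⟩
    · rw [← ts_qc] at h1
      exact (ts m J₁ n).injective h1
    · rw [← ts_qc] at h2
      exact (ts m J₁ n).injective h2

theorem finite_q (hJ : J₁.Finite) (hn0 : 0 < n) : Finite (Quotient (qs m J₁ n)) := by
  have : Finite J₁ := hJ
  let f : J₁ × Fin n.toNat → Quotient (qs m J₁ n) := fun p =>
    qc m J₁ n ⟨(m ^ (p.2.1 : ℤ)) p.1.1, ⟨-(p.2.1 : ℤ), by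
      rw [← zz, neg_add_cancel, zpow_zero, Equiv.Perm.one_apply]
      exact p.1.2⟩⟩
  apply Finite.of_surjective f
  intro X
  obtain ⟨⟨x, j, hj⟩, rfl⟩ := Quotient.exists_rep X
  have h1 : 0 ≤ (-j) % n := Int.emod_nonneg _ hn0.ne'
  have h2 : (-j) % n < n := Int.emod_lt_of_pos _ hn0
  refine ⟨(⟨(m ^ j) x, hj⟩, ⟨((-j) % n).toNat, by omega⟩), ?_⟩
  apply qc_eq.2
  refine ⟨(-j) / n, ?_⟩
  change x = (m ^ (n * ((-j) / n))) ((m ^ ((((-j) % n).toNat : ℕ) : ℤ)) ((m ^ j) x))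
  rw [Int.toNat_of_nonneg h1, ← zz, ← zz]
  have : n * (-j / n) + (-j) % n + j = 0 := by
    have := Int.mul_ediv_add_emod (-j) n
    omega
  rw [this, zpow_zero, Equiv.Perm.one_apply]

include hm hn0 hn1 hn2 in
theorem emb (K : Set (Quotient (qs m J₁ n)))
    (hK : ∀ x ∈ K, ∀ y ∈ K, lab M m J₁ n x y ≠ 0) :
    ∃ φ : K → B, Function.Injective φ ∧ ∀ x y : K, M (φ x) (φ y) = lab M m J₁ n x y := by
  have hcl : ∀ X ∈ K, ∀ Y ∈ K, HasCl m J₁ n X Y := by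
    intro X hX Y hY
    by_contra h
    exact hK X hX Y hY (lab_zero h)
  by_cases hper : ∀ x : Vt m J₁, qc m J₁ n x ∈ K → Per m x.1
  · have hrep : ∀ X : K, ∃ x : Vt m J₁, qc m J₁ n x = X.1 := fun X => Quotient.exists_rep X.1
    choose r hr using hrep
    have key : ∀ (X : K) (x : Vt m J₁), qc m J₁ n x = X.1 → x = r X := by
      intro X x hx
      have h1 : Per m x.1 := hper x (by rw [hx]; exact X.2)
      obtain ⟨k, hk⟩ := qc_eq.1 (hx.trans (hr X).symm)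
      obtain ⟨j, hj⟩ := x.2
      rw [fix_of_per hn1 hj h1] at hk
      exact Subtype.ext hk.symm
    refine ⟨fun X => (r X).1, ?_, ?_⟩
    · intro X Y h
      apply Subtype.ext
      rw [← hr X, ← hr Y, Subtype.ext h]
    · intro X Y
      obtain ⟨⟨x, y⟩, h1, h2, h3⟩ := hcl X.1 X.2 Y.1 Y.2
      simp only at h1 h2 h3
      rw [← lab_eq hm hn0 hn1 hn2 (x := r X) (y := r Y), hr, hr]
      rw [← key X x h1, ← key Y y h2]
      exact h3
  · push Not at hper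
    obtain ⟨x₀, hx₀, hnp⟩ := hper
    have hrep : ∀ Y : K, ∃ y : Vt m J₁, qc m J₁ n y = Y.1 ∧ Cl m J₁ x₀.1 y.1 := by
      intro Y
      obtain ⟨⟨x, y⟩, h1, h2, h3⟩ := hcl _ hx₀ Y.1 Y.2
      simp only at h1 h2 h3
      obtain ⟨k, hk⟩ := qc_eq.1 h1
      have h4 := h3.zpow (n * k)
      rw [← hk] at h4
      obtain ⟨j, hj⟩ := y.2
      refine ⟨⟨(m ^ (n * k)) y.1, ⟨j - n * k, by rwa [← zz, sub_add_cancel]⟩⟩, ?_, h4⟩
      rw [← h2]
      apply (qc_eq.2 ⟨k, rfl⟩).symm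
    choose r hr hrc using hrep
    refine ⟨fun X => (r X).1, ?_, ?_⟩
    · intro X Y h
      apply Subtype.ext
      rw [← hr X, ← hr Y, Subtype.ext h]
    · intro X Y
      obtain ⟨⟨z, z'⟩, h1, h2, h3⟩ := hcl X.1 X.2 Y.1 Y.2
      simp only at h1 h2 h3
      rw [← h1, ← h2, lab_eq hm hn0 hn1 hn2 h3]
      obtain ⟨a, ha⟩ := qc_eq.1 (h1.trans (hr X).symm)
      obtain ⟨b, hb⟩ := qc_eq.1 (h2.trans (hr Y).symm)
      simp only
      obtain ⟨j₁, h11, h12⟩ := hrc X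
      obtain ⟨j₂, h21, h22⟩ := hrc Y
      obtain ⟨j₃, h31, h32⟩ := h3
      rw [ha, hb]
      have e : (m ^ (n * b)) z'.1 = (m ^ (n * a)) ((m ^ (n * (b - a))) z'.1) := by
        rw [← zz]
        congr 2
        ring
      by_cases hz' : Per m z'.1
      · rw [e, aut_zpow hm, fix_of_per hn1 h32 hz']
      by_cases hz : Per m z.1
      · have e' : (m ^ (n * a)) z.1 = (m ^ (n * b)) ((m ^ (n * (a - b))) z.1) := by
          rw [← zz]
          congr 2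
          ring
        rw [e', aut_zpow hm, fix_of_per hn1 h31 hz]
      have b1 := bound_of_not_per hn2 h11 h21 hnp
      rw [ha, ← zz] at h12
      rw [hb, ← zz] at h22
      have b2 := bound_of_not_per hn2 h12 h31 hz
      have b3 := bound_of_not_per hn2 h22 h32 hz'
      have hc : b - a = 0 := by
        by_contra hc
        have h3 : n ≤ |n * (b - a)| := by
          rw [abs_mul, abs_of_pos hn0]
          nlinarith [Int.one_le_abs hc]
        have h4 : |n * (b - a)| ≤ |j₃ - (j₁ + n * a)| + |j₃ - (j₂ + n * b)| + |j₂ - j₁| := by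
          have : n * (b - a) = (j₃ - (j₁ + n * a)) - (j₃ - (j₂ + n * b)) - (j₂ - j₁) := by ring
          calc |n * (b - a)| = |(j₃ - (j₁ + n * a)) - (j₃ - (j₂ + n * b)) - (j₂ - j₁)| := by
                rw [← this]
            _ ≤ |(j₃ - (j₁ + n * a)) - (j₃ - (j₂ + n * b))| + |j₂ - j₁| := abs_sub _ _
            _ ≤ _ := by
                gcongr
                exact abs_sub _ _
        omega
      rw [e, hc, mul_zero, zpow_zero, Equiv.Perm.one_apply, aut_zpow hm]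

end Main

/-- the main statement for a nonempty set -/
theorem main_ne {B : Type} (M : CoxeterMatrix B) (m : Equiv.Perm B)
    (hm : ∀ x y, M (m x) (m y) = M x y) (J : Set B) (hJ : J.Finite) (hne : J.Nonempty) :
  ∃ (T : Type) (_ : Finite T) (M' : CoxeterMatrix T) (ι : B → T) (τ : Equiv.Perm T),
    Set.InjOn ι (J ∪ m '' J) ∧
    (∀ x ∈ J ∪ m '' J, ∀ y ∈ J ∪ m '' J, M' (ι x) (ι y) = M x y) ∧
    (∀ x y, M' (τ x) (τ y) = M' x y) ∧
    (∀ x ∈ J, τ (ι x) = ι (m x)) ∧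
    (∀ K : Set T, (∀ x ∈ K, ∀ y ∈ K, M' x y ≠ 0) →
      ∃ φ : K → B, Function.Injective φ ∧ ∀ x y : K, M (φ x) (φ y) = M' x y) := by
  classical
  have hJ1 : (J ∪ m '' J).Finite := hJ.union (hJ.image _)
  obtain ⟨n, hn0, hn1, hn2⟩ := exists_n m (J ∪ m '' J) hJ1
  obtain ⟨b0, hb0⟩ := hne
  have h0 : ∃ j : ℤ, (m ^ j) b0 ∈ J ∪ m '' J := ⟨0, Or.inl hb0⟩
  let ι : B → Quotient (qs m (J ∪ m '' J) n) := fun x =>
    if h : ∃ j : ℤ, (m ^ j) x ∈ J ∪ m '' J then qc m _ n ⟨x, h⟩ else qc m _ n ⟨b0, h0⟩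
  have hι : ∀ x (h : ∃ j : ℤ, (m ^ j) x ∈ J ∪ m '' J), ι x = qc m _ n ⟨x, h⟩ :=
    fun x h => dif_pos h
  have hmem : ∀ x ∈ J ∪ m '' J, ∃ j : ℤ, (m ^ j) x ∈ J ∪ m '' J := fun x hx => ⟨0, hx⟩
  refine ⟨Quotient (qs m (J ∪ m '' J) n), finite_q hJ1 hn0, fM M m _ n hm hn0 hn1 hn2, ι,
    ts m _ n, ?_, ?_, ?_, ?_, ?_⟩
  · intro x hx y hy hxy
    rw [hι x (hmem x hx), hι y (hmem y hy)] at hxy
    obtain ⟨k, hk⟩ := qc_eq.1 hxy
    simp only at hk
    by_cases hp : Per m x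
    · have h1 : (m ^ (0 : ℤ)) x ∈ J ∪ m '' J := hx
      rw [hk, fix_of_per hn1 h1 hp]
    · have h1 : (m ^ (0 : ℤ)) x ∈ J ∪ m '' J := hx
      have h2 : (m ^ (n * k)) x ∈ J ∪ m '' J := by rw [← hk]; exact hy
      have b := bound_of_not_per hn2 h1 h2 hp
      have hk0 : k = 0 := by
        by_contra hc
        have h3 : n ≤ |n * k| := by
          rw [abs_mul, abs_of_pos hn0]
          nlinarith [Int.one_le_abs hc]
        rw [sub_zero] at b
        omega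
      rw [hk, hk0, mul_zero, zpow_zero, Equiv.Perm.one_apply]
  · intro x hx y hy
    rw [hι x (hmem x hx), hι y (hmem y hy)]
    exact lab_eq hm hn0 hn1 hn2 (x := ⟨x, hmem x hx⟩) (y := ⟨y, hmem y hy⟩) ⟨0, hx, hy⟩
  · intro X Y
    exact lab_ts hm hn0 hn1 hn2 X Y
  · intro x hx
    have h1 : x ∈ J ∪ m '' J := Or.inl hx
    have h2 : m x ∈ J ∪ m '' J := Or.inr ⟨x, hx, rfl⟩
    rw [hι x (hmem x h1), hι (m x) (hmem _ h2)]
    rfl
  · intro K hK
    exact emb hm hn0 hn1 hn2 K hK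

end Pool.Agent.H73AR.EPp

namespace Pool.Agent.H73AR

theorem t_EP : S_EP := by
  intro B M m hm J hJ
  by_cases hB : Nonempty B
  · obtain ⟨b0⟩ := hB
    obtain ⟨T, hT, M', ι, τ, h1, h2, h3, h4, h5⟩ := EPp.main_ne M m hm (insert b0 J)
      (hJ.insert b0) ⟨b0, Set.mem_insert _ _⟩
    have hsub : J ∪ m '' J ⊆ insert b0 J ∪ m '' (insert b0 J) := by
      gcongr <;> exact Set.subset_insert _ _
    exact ⟨T, hT, M', ι, τ, h1.mono hsub, fun x hx y hy => h2 x (hsub hx) y (hsub hy), h3,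
      fun x hx => h4 x (Set.mem_insert_of_mem _ hx), h5⟩
  · rw [not_nonempty_iff] at hB
    refine ⟨B, Finite.of_subsingleton, M, id, m, fun x => isEmptyElim x, fun x => isEmptyElim x,
      hm, fun x => isEmptyElim x, ?_⟩
    intro K _
    exact ⟨Subtype.val, Subtype.val_injective, fun _ _ => rfl⟩

end Pool.Agent.H73AR
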