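import Pool.Agent.H73AR.Stm2
import Pool.Agent.H73AR.EP

/-!
# Piece EP2: finite parts of automorphisms of Coxeter matrices with exponents
-/

set_option autoImplicit false

namespace Pool.Agent.H73AR.EPp

section Main2

variable {B : Type} {M : CoxeterMatrix B} {m : Equiv.Perm B} {J₁ : Set B} {n : ℤ}
  (hm : ∀ x y, M (m x) (m y) = M x y)
  (hn0 : 0 < n)
  (hn1 : ∀ x ∈ J₁, Per m x → (m ^ n) x = x)
  (hn2 : ∀ x ∈ J₁, ¬ Per m x → ∀ j : ℤ, (m ^ j) x ∈ J₁ → 3 * |j| < n)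

include hm hn0 hn1 hn2 in
theorem emb2 (K : Set (Quotient (qs m J₁ n)))
    (hK : ∀ x ∈ K, ∀ y ∈ K, lab M m J₁ n x y ≠ 0) :
    ∃ φ : K → B, Function.Injective φ ∧ (∀ x y : K, M (φ x) (φ y) = lab M m J₁ n x y) ∧
      ∀ x : K, ∃ y : Vt m J₁, φ x = y.1 ∧ qc m J₁ n y = x.1 := by
  have hcl : ∀ X ∈ K, ∀ Y ∈ K, HasCl m J₁ n X Y := by
    intro X hX Y hY
    by_contra h
    exact hK X hX Y hY (lab_zero h)
  by_cases hper : ∀ x : Vt m J₁, qc m J₁ n x ∈ K → Per m x.1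
  · have hrep : ∀ X : K, ∃ x : Vt m J₁, qc m J₁ n x = X.1 := fun X => Quotient.exists_rep X.1
    choose r hr using hrep
    have key : ∀ (X : K) (x : Vt m J₁), qc m J₁ n x = X.1 → x = r X := by
      intro X x hx
      have h1 : Per m x.1 := hper x (by rw [hx]; exact X.2)
      obtain ⟨k, hk⟩ := qc_eq.1 (hx.trans (hr X).symm)
      obtain ⟨j, hj⟩ := x.2
      rw [fix_of_per hn1 hj h1] at hk
      exact Subtype.ext hk.symm
    refine ⟨fun X => (r X).1, ?_, ?_, fun X => ⟨r X, rfl, hr X⟩⟩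
    · intro X Y h
      apply Subtype.ext
      rw [← hr X, ← hr Y, Subtype.ext h]
    · intro X Y
      obtain ⟨⟨x, y⟩, h1, h2, h3⟩ := hcl X.1 X.2 Y.1 Y.2
      simp only at h1 h2 h3
      rw [← lab_eq hm hn0 hn1 hn2 (x := r X) (y := r Y), hr, hr]
      rw [← key X x h1, ← key Y y h2]
      exact h3
  · push Not at hper
    obtain ⟨x₀, hx₀, hnp⟩ := hper
    have hrep : ∀ Y : K, ∃ y : Vt m J₁, qc m J₁ n y = Y.1 ∧ Cl m J₁ x₀.1 y.1 := by
      intro Y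
      obtain ⟨⟨x, y⟩, h1, h2, h3⟩ := hcl _ hx₀ Y.1 Y.2
      simp only at h1 h2 h3
      obtain ⟨k, hk⟩ := qc_eq.1 h1
      have h4 := h3.zpow (n * k)
      rw [← hk] at h4
      obtain ⟨j, hj⟩ := y.2
      refine ⟨⟨(m ^ (n * k)) y.1, ⟨j - n * k, by rwa [← zz, sub_add_cancel]⟩⟩, ?_, h4⟩
      rw [← h2]
      apply (qc_eq.2 ⟨k, rfl⟩).symm
    choose r hr hrc using hrep
    refine ⟨fun X => (r X).1, ?_, ?_, fun X => ⟨r X, rfl, hr X⟩⟩
    · intro X Y h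
      apply Subtype.ext
      rw [← hr X, ← hr Y, Subtype.ext h]
    · intro X Y
      obtain ⟨⟨z, z'⟩, h1, h2, h3⟩ := hcl X.1 X.2 Y.1 Y.2
      simp only at h1 h2 h3
      rw [← h1, ← h2, lab_eq hm hn0 hn1 hn2 h3]
      obtain ⟨a, ha⟩ := qc_eq.1 (h1.trans (hr X).symm)
      obtain ⟨b, hb⟩ := qc_eq.1 (h2.trans (hr Y).symm)
      simp only
      obtain ⟨j₁, h11, h12⟩ := hrc X
      obtain ⟨j₂, h21, h22⟩ := hrc Y
      obtain ⟨j₃, h31, h32⟩ := h3
      rw [ha, hb]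
      have e : (m ^ (n * b)) z'.1 = (m ^ (n * a)) ((m ^ (n * (b - a))) z'.1) := by
        rw [← zz]
        congr 2
        ring
      by_cases hz' : Per m z'.1
      · rw [e, aut_zpow hm, fix_of_per hn1 h32 hz']
      by_cases hz : Per m z.1
      · have e' : (m ^ (n * a)) z.1 = (m ^ (n * b)) ((m ^ (n * (a - b))) z.1) := by
          rw [← zz]
          congr 2
          ring
        rw [e', aut_zpow hm, fix_of_per hn1 h31 hz]
      have b1 := bound_of_not_per hn2 h11 h21 hnp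
      rw [ha, ← zz] at h12
      rw [hb, ← zz] at h22
      have b2 := bound_of_not_per hn2 h12 h31 hz
      have b3 := bound_of_not_per hn2 h22 h32 hz'
      have hc : b - a = 0 := by
        by_contra hc
        have h3 : n ≤ |n * (b - a)| := by
          rw [abs_mul, abs_of_pos hn0]
          nlinarith [Int.one_le_abs hc]
        have h4 : |n * (b - a)| ≤ |j₃ - (j₁ + n * a)| + |j₃ - (j₂ + n * b)| + |j₂ - j₁| := by
          have : n * (b - a) = (j₃ - (j₁ + n * a)) - (j₃ - (j₂ + n * b)) - (j₂ - j₁) := by ring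
          calc |n * (b - a)| = |(j₃ - (j₁ + n * a)) - (j₃ - (j₂ + n * b)) - (j₂ - j₁)| := by
                rw [← this]
            _ ≤ |(j₃ - (j₁ + n * a)) - (j₃ - (j₂ + n * b))| + |j₂ - j₁| := abs_sub _ _
            _ ≤ _ := by
                gcongr
                exact abs_sub _ _
        omega
      rw [e, hc, mul_zero, zpow_zero, Equiv.Perm.one_apply, aut_zpow hm]

end Main2

/-- an invariant function is constant on the orbits -/
theorem inv_zpow {B : Type} {m : Equiv.Perm B} {p : B → ℕ} (hp : ∀ x, p (m x) = p x) (k : ℤ) (x : B) :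
    p ((m ^ k) x) = p x := by
  induction k with
  | zero => rw [zpow_zero, Equiv.Perm.one_apply]
  | succ k ih => rw [add_comm, zz, zpow_one, hp, ih]
  | pred k ih =>
    have h1 : m ((m ^ (-(k : ℤ) - 1)) x) = (m ^ (-(k : ℤ))) x := by
      have h2 : m ((m ^ (-(k : ℤ) - 1)) x) = (m ^ (1 : ℤ)) ((m ^ (-(k : ℤ) - 1)) x) := by
        rw [zpow_one]
      rw [h2, ← zz]
      congr 2
      ring
    rw [← hp ((m ^ (-(k : ℤ) - 1)) x), h1, ih]

/-- the exponent of a class -/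
def qp {B : Type} {m : Equiv.Perm B} (p : B → ℕ) (hp : ∀ x, p (m x) = p x) (J₁ : Set B) (n : ℤ) :
    Quotient (qs m J₁ n) → ℕ :=
  Quotient.lift (fun x : Vt m J₁ => p x.1) (by
    rintro x y ⟨k, hk⟩
    show p x.1 = p y.1
    rw [hk, inv_zpow hp])

/-- the main statement for a nonempty set -/
theorem main_ne2 {B : Type} (M : CoxeterMatrix B) (p : B → ℕ) (m : Equiv.Perm B)
    (hm : ∀ x y, M (m x) (m y) = M x y) (hp : ∀ x, p (m x) = p x) (J : Set B) (hJ : J.Finite) (hne : J.Nonempty) :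
  ∃ (T : Type) (_ : Finite T) (M' : CoxeterMatrix T) (p' : T → ℕ) (ι : B → T) (τ : Equiv.Perm T),
    Set.InjOn ι (J ∪ m '' J) ∧
    (∀ x ∈ J ∪ m '' J, ∀ y ∈ J ∪ m '' J, M' (ι x) (ι y) = M x y) ∧
    (∀ x ∈ J ∪ m '' J, p' (ι x) = p x) ∧
    (∀ x y, M' (τ x) (τ y) = M' x y) ∧
    (∀ x, p' (τ x) = p' x) ∧
    (∀ x ∈ J, τ (ι x) = ι (m x)) ∧
    (∀ K : Set T, (∀ x ∈ K, ∀ y ∈ K, M' x y ≠ 0) →
      ∃ φ : K → B, Function.Injective φ ∧ (∀ x y : K, M (φ x) (φ y) = M' x y) ∧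
        ∀ x : K, p (φ x) = p' x) := by
  classical
  have hJ1 : (J ∪ m '' J).Finite := hJ.union (hJ.image _)
  obtain ⟨n, hn0, hn1, hn2⟩ := exists_n m (J ∪ m '' J) hJ1
  obtain ⟨b0, hb0⟩ := hne
  have h0 : ∃ j : ℤ, (m ^ j) b0 ∈ J ∪ m '' J := ⟨0, Or.inl hb0⟩
  let ι : B → Quotient (qs m (J ∪ m '' J) n) := fun x =>
    if h : ∃ j : ℤ, (m ^ j) x ∈ J ∪ m '' J then qc m _ n ⟨x, h⟩ else qc m _ n ⟨b0, h0⟩
  have hι : ∀ x (h : ∃ j : ℤ, (m ^ j) x ∈ J ∪ m '' J), ι x = qc m _ n ⟨x, h⟩ :=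
    fun x h => dif_pos h
  have hmem : ∀ x ∈ J ∪ m '' J, ∃ j : ℤ, (m ^ j) x ∈ J ∪ m '' J := fun x hx => ⟨0, hx⟩
  refine ⟨Quotient (qs m (J ∪ m '' J) n), finite_q hJ1 hn0, fM M m _ n hm hn0 hn1 hn2, qp p hp _ n, ι,
    ts m _ n, ?_, ?_, ?_, ?_, ?_, ?_, ?_⟩
  · intro x hx y hy hxy
    rw [hι x (hmem x hx), hι y (hmem y hy)] at hxy
    obtain ⟨k, hk⟩ := qc_eq.1 hxy
    simp only at hk
    by_cases hp : Per m x
    · have h1 : (m ^ (0 : ℤ)) x ∈ J ∪ m '' J := hx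
      rw [hk, fix_of_per hn1 h1 hp]
    · have h1 : (m ^ (0 : ℤ)) x ∈ J ∪ m '' J := hx
      have h2 : (m ^ (n * k)) x ∈ J ∪ m '' J := by rw [← hk]; exact hy
      have b := bound_of_not_per hn2 h1 h2 hp
      have hk0 : k = 0 := by
        by_contra hc
        have h3 : n ≤ |n * k| := by
          rw [abs_mul, abs_of_pos hn0]
          nlinarith [Int.one_le_abs hc]
        rw [sub_zero] at b
        omega
      rw [hk, hk0, mul_zero, zpow_zero, Equiv.Perm.one_apply]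
  · intro x hx y hy
    rw [hι x (hmem x hx), hι y (hmem y hy)]
    exact lab_eq hm hn0 hn1 hn2 (x := ⟨x, hmem x hx⟩) (y := ⟨y, hmem y hy⟩) ⟨0, hx, hy⟩
  · intro x hx
    rw [hι x (hmem x hx)]
    rfl
  · intro X Y
    exact lab_ts hm hn0 hn1 hn2 X Y
  · intro X
    obtain ⟨x, rfl⟩ := Quotient.exists_rep X
    exact hp x.1
  · intro x hx
    have h1 : x ∈ J ∪ m '' J := Or.inl hx
    have h2 : m x ∈ J ∪ m '' J := Or.inr ⟨x, hx, rfl⟩
    rw [hι x (hmem x h1), hι (m x) (hmem _ h2)]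
    rfl
  · intro K hK
    obtain ⟨φ, h1, h2, h3⟩ := emb2 hm hn0 hn1 hn2 K hK
    refine ⟨φ, h1, h2, fun X => ?_⟩
    obtain ⟨y, hy1, hy2⟩ := h3 X
    rw [hy1, ← hy2]
    rfl

end Pool.Agent.H73AR.EPp

namespace Pool.Agent.H73AR

theorem t_EP2 : S_EP2 := by
  intro B M p m hm hp J hJ
  by_cases hB : Nonempty B
  · obtain ⟨b0⟩ := hB
    obtain ⟨T, hT, M', p', ι, τ, h1, h2, h2', h3, h3', h4, h5⟩ := EPp.main_ne2 M p m hm hp
      (insert b0 J) (hJ.insert b0) ⟨b0, Set.mem_insert _ _⟩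
    have hsub : J ∪ m '' J ⊆ insert b0 J ∪ m '' (insert b0 J) := by
      gcongr <;> exact Set.subset_insert _ _
    exact ⟨T, hT, M', p', ι, τ, h1.mono hsub, fun x hx y hy => h2 x (hsub hx) y (hsub hy),
      fun x hx => h2' x (hsub hx), h3, h3', fun x hx => h4 x (Set.mem_insert_of_mem _ hx), h5⟩
  · rw [not_nonempty_iff] at hB
    refine ⟨B, Finite.of_subsingleton, M, p, id, m, fun x => isEmptyElim x, fun x => isEmptyElim x,
      fun x => isEmptyElim x, hm, hp, fun x => isEmptyElim x, ?_⟩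
    intro K _
    exact ⟨Subtype.val, Subtype.val_injective, fun _ _ => rfl, fun _ => rfl⟩

end Pool.Agent.H73AR
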