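import Pool.Agent.H73AR.Tr
import Pool.Agent.N77.GP.Basic
import Pool.Agent.R779.FJ.Col
import Pool.Agent.Y961.FJ.Perm

/-!
# Extensions by Artin groups of arbitrary rank
-/

set_option autoImplicit false

namespace Pool.Agent.H73AR

open Pool.Agent.Y110.FJ (ClosedE Realized)
open Pool.Agent.Y462.SS (Closed Wr)
open Pool.Agent.N77.GP (MT tt mt_pow mt_one tt_conj)

variable {C : ∀ (G : Type) [Group G], Prop}

/-- realization in a mapping torus -/
theorem realized_of {G : Type} [Group G] (S : Subgroup G) {g n m : G} (hg : g = n * m) {E : Set G}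
    (hES : E ⊆ S) (hn : n ∈ S) (hmE : ∀ x ∈ E, m * x * m⁻¹ ∈ S) {P : Type} [Group P] (hP : C P)
    (f : S →* P) (hf : Function.Injective f) (t : P)
    (ht : ∀ x (hx : x ∈ E), f ⟨m * x * m⁻¹, hmE x hx⟩ = t * f ⟨x, hES hx⟩ * t⁻¹) :
    Realized C g E := by
  have hgx : ∀ x, g * x * g⁻¹ = n * (m * x * m⁻¹) * n⁻¹ := by
    intro x
    rw [hg]
    group
  have hle : Subgroup.closure (E ∪ (fun x => g * x * g⁻¹) '' E) ≤ S := by
    rw [Subgroup.closure_le]
    refine Set.union_subset hES ?_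
    rintro _ ⟨x, hx, rfl⟩
    show g * x * g⁻¹ ∈ S
    rw [hgx]
    exact mul_mem (mul_mem hn (hmE x hx)) (inv_mem hn)
  refine ⟨P, inferInstance, f.comp (Subgroup.inclusion hle), f ⟨n, hn⟩ * t, hP,
    hf.comp (Subgroup.inclusion_injective hle), ?_⟩
  intro x y hx hy
  have h1 : Subgroup.inclusion hle y = ⟨n, hn⟩ * ⟨m * x * m⁻¹, hmE x hx⟩ * (⟨n, hn⟩ : S)⁻¹ := by
    apply Subtype.ext
    show (y : G) = n * (m * x * m⁻¹) * n⁻¹
    rw [hy, hgx]
  have h2 : Subgroup.inclusion hle x = ⟨x, hES hx⟩ := rfl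
  rw [MonoidHom.comp_apply, MonoidHom.comp_apply, h1, h2, map_mul, map_mul, map_inv, ht x hx]
  group

/-! ## signed diagram automorphisms -/

theorem alt_succ' {G : Type} [Monoid G] (n : ℕ) : ∀ x y : G,
    alt x y (n + 1) = alt x y n * (if Even n then x else y) := by
  induction n with
  | zero =>
    intro x y
    simp [alt]
  | succ n ih =>
    intro x y
    show x * alt y x (n + 1) = x * alt y x n * _
    rw [ih y x, mul_assoc]
    congr 2
    by_cases h : Even n
    · have h1 : ¬ Even (n + 1) := by simpa [Nat.even_add_one] using h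
      rw [if_pos h, if_neg h1]
    · have h1 : Even (n + 1) := by simpa [Nat.even_add_one] using h
      rw [if_neg h, if_pos h1]

theorem alt_inv {G : Type} [Group G] (n : ℕ) : ∀ x y : G,
    (alt x y n)⁻¹ = if Even n then alt y⁻¹ x⁻¹ n else alt x⁻¹ y⁻¹ n := by
  induction n with
  | zero =>
    intro x y
    simp [alt]
  | succ n ih =>
    intro x y
    rw [alt_succ', mul_inv_rev, ih]
    by_cases h : Even n
    · have h1 : ¬ Even (n + 1) := by simpa [Nat.even_add_one] using h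
      rw [if_pos h, if_pos h, if_neg h1]
      rfl
    · have h1 : Even (n + 1) := by simpa [Nat.even_add_one] using h
      rw [if_neg h, if_neg h, if_pos h1]
      rfl

theorem alt_inv_rel {G : Type} [Group G] {x y : G} {n : ℕ} (h : alt x y n = alt y x n) :
    alt x⁻¹ y⁻¹ n = alt y⁻¹ x⁻¹ n := by
  have h1 := congrArg (fun z => z⁻¹) h
  simp only [alt_inv] at h1
  by_cases hn : Even n
  · rw [if_pos hn, if_pos hn] at h1
    exact h1.symm
  · rw [if_neg hn, if_neg hn] at h1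
    exact h1

theorem alt_sign {G : Type} [Group G] {x y : G} {n : ℕ} (h : alt x y n = alt y x n) (s : ℤˣ) :
    alt (x ^ (s : ℤ)) (y ^ (s : ℤ)) n = alt (y ^ (s : ℤ)) (x ^ (s : ℤ)) n := by
  rcases Int.units_eq_one_or s with rfl | rfl
  · simpa using h
  · simpa using alt_inv_rel h

theorem sign_sign {G : Type} [Group G] (x : G) (s : ℤˣ) : (x ^ (s : ℤ)) ^ (s : ℤ) = x := by
  rw [← zpow_mul]
  have h : (s : ℤ) * (s : ℤ) = 1 := by
    rcases Int.units_eq_one_or s with rfl | rfl <;> rfl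
  rw [h, zpow_one]

section auto

variable {T : Type} {M' : CoxeterMatrix T}

/-- the homomorphism given by a permutation of the generators and a sign -/
def sautHom (τ : Equiv.Perm T) (hτ : ∀ x y, M' (τ x) (τ y) = M' x y) (s : ℤˣ) : Art M' →* Art M' :=
  alift (fun x => sig M' (τ x) ^ (s : ℤ)) (fun a b hab => by
    rw [← hτ] at hab ⊢
    exact alt_sign (sig_rel hab) s)

theorem sautHom_sig (τ : Equiv.Perm T) (hτ : ∀ x y, M' (τ x) (τ y) = M' x y) (s : ℤˣ) (x : T) :
    sautHom τ hτ s (sig M' x) = sig M' (τ x) ^ (s : ℤ) := alift_sig _ _ x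

/-- the automorphism given by a permutation of the generators and a sign -/
def saut (τ : Equiv.Perm T) (hτ : ∀ x y, M' (τ x) (τ y) = M' x y) (s : ℤˣ) : MulAut (Art M') :=
  MonoidHom.toMulEquiv (sautHom τ hτ s)
    (sautHom τ.symm (fun x y => by
      rw [← hτ, τ.apply_symm_apply, τ.apply_symm_apply]) s)
    (aext fun x => by
      rw [MonoidHom.comp_apply, sautHom_sig, map_zpow, sautHom_sig, τ.symm_apply_apply, sign_sign]
      rfl)
    (aext fun x => by
      rw [MonoidHom.comp_apply, sautHom_sig, map_zpow, sautHom_sig, τ.apply_symm_apply, sign_sign]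
      rfl)

theorem saut_sig (τ : Equiv.Perm T) (hτ : ∀ x y, M' (τ x) (τ y) = M' x y) (s : ℤˣ) (x : T) :
    saut τ hτ s (sig M' x) = sig M' (τ x) ^ (s : ℤ) := sautHom_sig τ hτ s x

theorem saut_pow_sig (τ : Equiv.Perm T) (hτ : ∀ x y, M' (τ x) (τ y) = M' x y) (s : ℤˣ) (k : ℕ)
    (x : T) : (saut τ hτ s ^ k) (sig M' x) = sig M' ((τ ^ k) x) ^ ((s : ℤ) ^ k) := by
  induction k with
  | zero => simp
  | succ k ih =>
    rw [pow_succ', MulAut.mul_apply, ih, map_zpow, saut_sig, ← zpow_mul, pow_succ', pow_succ']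
    rfl

theorem C_saut (hC : ClosedE C) [Finite T] (hW : C (Art M')) (τ : Equiv.Perm T)
    (hτ : ∀ x y, M' (τ x) (τ y) = M' x y) (s : ℤˣ) : C (MT (Art M') (saut τ hτ s)) := by
  have hfin : IsOfFinOrder τ := isOfFinOrder_of_finite τ
  refine mt_pow hC.base (k := orderOf τ * 2) (Nat.mul_pos hfin.orderOf_pos two_pos) ?_
  have h1 : saut τ hτ s ^ (orderOf τ * 2) = 1 := by
    apply MulEquiv.toMonoidHom_injective
    apply aext
    intro x
    have h := saut_pow_sig τ hτ s (orderOf τ * 2) x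
    have h2 : (s : ℤ) ^ (orderOf τ * 2) = 1 := by
      rw [mul_comm, pow_mul]
      rcases Int.units_eq_one_or s with rfl | rfl <;> simp
    have h3 : τ ^ (orderOf τ * 2) = 1 := by rw [pow_mul, pow_orderOf_eq_one, one_pow]
    rw [h3, h2, zpow_one] at h
    exact h
  rw [h1]
  exact mt_one hC.base hW

end auto

section main

variable {G B : Type} [Group G] {N : Subgroup G} {M : CoxeterMatrix B} (e : Art M ≃* N)

/-- the subgroup generated by some generators -/
def PJ (J : Set B) : Subgroup G := Subgroup.closure ((fun b => (e (sig M b) : G)) '' J)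

theorem PJ_mono {J J' : Set B} (h : J ⊆ J') : PJ e J ≤ PJ e J' :=
  Subgroup.closure_mono (Set.image_mono h)

theorem ex_supp {x : G} (hx : x ∈ N) : ∃ J : Set B, J.Finite ∧ x ∈ PJ e J := by
  obtain ⟨y, hy⟩ : ∃ y : Art M, (e y : G) = x := ⟨e.symm ⟨x, hx⟩, by rw [e.apply_symm_apply]⟩
  subst hy
  clear hx
  induction y using aind with
  | one => exact ⟨∅, Set.finite_empty, by rw [map_one]; exact one_mem _⟩
  | mul i w ih =>
    obtain ⟨J, hJ, h1⟩ := ih
    refine ⟨insert i J, hJ.insert i, ?_⟩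
    have h2 : (e (sig M i) : G) ∈ PJ e (insert i J) :=
      Subgroup.subset_closure ⟨i, Set.mem_insert i J, rfl⟩
    rw [map_mul, Subgroup.coe_mul]
    exact mul_mem h2 (PJ_mono e (Set.subset_insert i J) h1)
  | inv_mul i w ih =>
    obtain ⟨J, hJ, h1⟩ := ih
    refine ⟨insert i J, hJ.insert i, ?_⟩
    have h2 : (e (sig M i) : G) ∈ PJ e (insert i J) :=
      Subgroup.subset_closure ⟨i, Set.mem_insert i J, rfl⟩
    rw [map_mul, map_inv, Subgroup.coe_mul, Subgroup.coe_inv]
    exact mul_mem (inv_mem h2) (PJ_mono e (Set.subset_insert i J) h1)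

theorem ex_supp_fin {E : Set G} (hE : E.Finite) (hEN : E ⊆ N) :
    ∃ J : Set B, J.Finite ∧ ∀ x ∈ E, x ∈ PJ e J := by
  induction E, hE using Set.Finite.induction_on with
  | empty => exact ⟨∅, Set.finite_empty, fun x hx => absurd hx (Set.notMem_empty x)⟩
  | @insert a s _ _ ih =>
    obtain ⟨S, hS, h1⟩ := ih (fun x hx => hEN (Set.mem_insert_of_mem _ hx))
    obtain ⟨S', hS', h2⟩ := ex_supp e (hEN (Set.mem_insert _ _))
    refine ⟨S ∪ S', hS.union hS', fun x hx => ?_⟩
    rcases hx with rfl | hx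
    · exact PJ_mono e (Set.subset_union_right : S' ⊆ S ∪ S') h2
    · exact PJ_mono e (Set.subset_union_left : S ⊆ S ∪ S') (h1 x hx)

/-- the Artin group of a finite matrix all of whose parts without label `∞` embed in `M` -/
theorem C_local (hCP : S_CP) (hFV : S_FV) (hC : ClosedE C)
    (hcox : ∀ (S : Type) (_ : Finite S) (A : CoxeterMatrix S), C A.Group)
    (hT : ∀ T : Set B, T.Finite → (∀ x ∈ T, ∀ y ∈ T, M x y ≠ 0) → C (Art (rest M T)))
    {T : Type} [Finite T] (M' : CoxeterMatrix T)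
    (hM' : ∀ K : Set T, (∀ x ∈ K, ∀ y ∈ K, M' x y ≠ 0) →
      ∃ φ : K → B, Function.Injective φ ∧ ∀ x y : K, M (φ x) (φ y) = M' x y) : C (Art M') := by
  refine art_fin hCP hFV hC hcox _ T M' rfl fun K hK => ?_
  obtain ⟨φ, hφ, hφM⟩ := hM' K hK
  refine C_rest_equiv (M := rest M' K) (M' := rest M (Set.range φ)) hC.base
    (Equiv.ofInjective φ hφ) (fun x y => hφM x y) (hT _ (Set.finite_range φ) ?_)
  rintro _ ⟨x, rfl⟩ _ ⟨y, rfl⟩
  rw [hφM]
  exact hK x x.2 y y.2

/-- **extensions by Artin groups** -/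
theorem art_main (hCP : S_CP) (hFV : S_FV) (hEP : S_EP) (hC : ClosedE C)
    (hcox : ∀ (S : Type) (_ : Finite S) (A : CoxeterMatrix S), C A.Group)
    (hT : ∀ T : Set B, T.Finite → (∀ x ∈ T, ∀ y ∈ T, M x y ≠ 0) → C (Art (rest M T)))
    [N.Normal] (Q : Subgroup G) [MulAction Q B] (ε : Q → ℤˣ) (hNQ : N ⊔ Q = ⊤)
    (hM : ∀ (m : Q) (b b' : B), M (m • b) (m • b') = M b b')
    (hconj : ∀ (m : Q) (b : B),
      (m : G) * (e (sig M b) : G) * (m : G)⁻¹ = (e (sig M (m • b)) : G) ^ (ε m : ℤ))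
    (hQ : C (G ⧸ N)) : C G := by
  refine Pool.Agent.R779.FJ.t_crit Pool.Agent.Y529.FJ.t_ext
    (Pool.Agent.Y961.FJ.t_perm Pool.Agent.Y529.FJ.t_ext) C hC G N hQ fun g E hE hEN => ?_
  have hg : g ∈ N ⊔ Q := by
    rw [hNQ]
    exact Subgroup.mem_top g
  rw [Subgroup.mem_sup_of_normal_left] at hg
  obtain ⟨n, hn, m, hm, hnm⟩ := hg
  obtain ⟨J, hJ, hJE⟩ := ex_supp_fin e (hE.insert n) (Set.insert_subset hn hEN)
  obtain ⟨μ, hμ⟩ : ∃ μ : Equiv.Perm B, ∀ b, μ b = (⟨m, hm⟩ : Q) • b :=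
    ⟨MulAction.toPerm (⟨m, hm⟩ : Q), fun _ => rfl⟩
  obtain ⟨s, hs⟩ : ∃ s : ℤˣ, s = ε ⟨m, hm⟩ := ⟨_, rfl⟩
  obtain ⟨T, _, M', ι, τ, hι, hιM, hτ, hτι, hcl⟩ := hEP B M μ
    (fun x y => by rw [hμ, hμ]; exact hM _ x y) J hJ
  obtain ⟨J', hJ'⟩ : ∃ J' : Set B, J' = J ∪ μ '' J := ⟨_, rfl⟩
  rw [← hJ'] at hι hιM
  have hJJ' : ∀ b ∈ J, b ∈ J' := fun b hb => by rw [hJ']; exact Or.inl hb
  have hmJ : ∀ b ∈ J, μ b ∈ J' := fun b hb => by
    rw [hJ']
    exact Or.inr ⟨b, hb, rfl⟩
  have hAM' : C (Art M') := C_local hCP hFV hC hcox hT M' hcl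
  have hιM' : ∀ x y : J', M' (ι x.1) (ι y.1) = rest M J' x y := fun x y => hιM x.1 x.2 y.1 y.2
  -- the embeddings of the Artin group of `J'`
  obtain ⟨a, ha⟩ : ∃ a : Art (rest M J') →* G,
    a = N.subtype.comp (e.toMonoidHom.comp (inc M J')) := ⟨_, rfl⟩
  have hainj : Function.Injective a := by
    rw [ha]
    exact Subtype.val_injective.comp (e.injective.comp (inc_injective hCP M J'))
  have has : ∀ b : J', a (sig (rest M J') b) = (e (sig M b.1) : G) := by
    intro b
    rw [ha, MonoidHom.comp_apply, MonoidHom.comp_apply, inc_sig]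
    rfl
  obtain ⟨β, hβ⟩ : ∃ β : Art (rest M J') →* Art M',
    β = amap (fun x : J' => ι x.1) hιM' := ⟨_, rfl⟩
  have hβs : ∀ b : J', β (sig (rest M J') b) = sig M' (ι b) := by
    intro b
    rw [hβ, amap_sig]
  have hβinj : Function.Injective β := by
    have hinj : Function.Injective (fun x : J' => ι x.1) := fun x y hxy =>
      Subtype.ext (hι x.2 y.2 hxy)
    have h1 : β = (inc M' (Set.range fun x : J' => ι x.1)).comp
        (aequiv (M := rest M J') (M' := rest M' (Set.range fun x : J' => ι x.1))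
          (Equiv.ofInjective _ hinj) (fun x y => hιM x.1 x.2 y.1 y.2)).toMonoidHom := by
      apply aext
      intro b
      rw [hβs, MonoidHom.comp_apply]
      have h2 := aequiv_sig (M := rest M J') (M' := rest M' (Set.range fun x : J' => ι x.1))
          (Equiv.ofInjective _ hinj) (fun x y => hιM x.1 x.2 y.1 y.2) b
      exact ((congrArg (inc M' (Set.range fun x : J' => ι x.1)) h2).trans (inc_sig _ _ _)).symm
    rw [h1]
    exact (inc_injective hCP M' _).comp (MulEquiv.injective _)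
  -- conjugation by `m`
  have key : ∀ x ∈ PJ e J, ∃ w w' : Art (rest M J'), a w = x ∧ a w' = m * x * m⁻¹ ∧
      β w' = saut τ hτ s (β w) := by
    intro x hx
    induction hx using Subgroup.closure_induction with
    | mem x hx =>
      obtain ⟨b, hb, rfl⟩ := hx
      refine ⟨sig (rest M J') ⟨b, hJJ' b hb⟩, sig (rest M J') ⟨μ b, hmJ b hb⟩ ^ (s : ℤ), has _, ?_, ?_⟩
      · have h1 := hconj ⟨m, hm⟩ b
        rw [← hs, ← hμ] at h1
        rw [map_zpow, has]
        exact h1.symm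
      · rw [map_zpow, hβs, hβs, saut_sig]
        congr 2
        exact (hτι b hb).symm
    | one => exact ⟨1, 1, by simp, by simp, by simp⟩
    | mul x y _ _ hx hy =>
      obtain ⟨w, w', h1, h2, h3⟩ := hx
      obtain ⟨v, v', h4, h5, h6⟩ := hy
      refine ⟨w * v, w' * v', by rw [map_mul, h1, h4], ?_, by rw [map_mul, map_mul, map_mul, h3, h6]⟩
      rw [map_mul, h2, h5]
      group
    | inv x _ hx =>
      obtain ⟨w, w', h1, h2, h3⟩ := hx
      refine ⟨w⁻¹, w'⁻¹, by rw [map_inv, h1], ?_, by rw [map_inv, map_inv, map_inv, h3]⟩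
      rw [map_inv, h2]
      group
  have hES : E ⊆ (a.range : Set G) := by
    intro x hx
    obtain ⟨w, -, h1, -⟩ := key x (hJE x (Set.mem_insert_of_mem n hx))
    exact ⟨w, h1⟩
  have hnS : n ∈ a.range := by
    obtain ⟨w, -, h1, -⟩ := key n (hJE n (Set.mem_insert n E))
    exact ⟨w, h1⟩
  have hmE : ∀ x ∈ E, m * x * m⁻¹ ∈ a.range := by
    intro x hx
    obtain ⟨w, w', h1, h2, -⟩ := key x (hJE x (Set.mem_insert_of_mem n hx))
    exact ⟨w', h2⟩
  have hsymm : ∀ (w : Art (rest M J')) (x : G) (hx : x ∈ a.range), a w = x →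
      (MonoidHom.ofInjective hainj).symm ⟨x, hx⟩ = w := by
    intro w x hx hw
    rw [MulEquiv.symm_apply_eq]
    apply Subtype.ext
    exact hw.symm
  refine realized_of a.range hnm.symm hES hnS hmE (C_saut hC hAM' τ hτ s)
    ((Pool.Agent.N77.GP.il (saut τ hτ s)).comp (β.comp (MonoidHom.ofInjective hainj).symm.toMonoidHom)) ?_
    (tt (saut τ hτ s)) ?_
  · exact SemidirectProduct.inl_injective.comp
      (hβinj.comp (MonoidHom.ofInjective hainj).symm.injective)
  · intro x hx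
    obtain ⟨w, w', h1, h2, h3⟩ := key x (hJE x (Set.mem_insert_of_mem n hx))
    show Pool.Agent.N77.GP.il _ (β ((MonoidHom.ofInjective hainj).symm _)) =
      tt _ * Pool.Agent.N77.GP.il _ (β ((MonoidHom.ofInjective hainj).symm _)) * (tt _)⁻¹
    rw [hsymm w x _ h1, hsymm w' _ _ h2, tt_conj, h3]

end main

end Pool.Agent.H73AR
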