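import Pool.Agent.H73AR.Stm
import Pool.Agent.N24.FV.Fs

/-!
# Sections of finite range over the translations of `ℤ` (part `S_FV`)

Owner helper47.  Finitely supported sections are removed by `Pool.Agent.N24.FV.fs`; the rest embeds in two
groups of germs at infinity, where finitely many sections are recurrent, so that conjugation by the shift is
realized in a finite wreath product.
-/

set_option autoImplicit false

namespace Pool.Agent.H73AR.FVp

open Pool.Agent.Y110.FJ Pool.Agent.Y462.SS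
open Filter

open scoped Pointwise

/-! ### Realization in a quotient -/

theorem realized_quot {C : ∀ (G : Type) [Group G], Prop} {G : Type} [Group G] (K : Subgroup G)
    [K.Normal] (g : G) (E : Set G) (P : Type) [Group P] (hP : C P)
    (φ : ↥(Subgroup.closure (E ∪ (fun x => g * x * g⁻¹) '' E)) →* P) (p : P)
    (hker : ∀ h, φ h = 1 ↔ (h : G) ∈ K)
    (hp : ∀ x y : ↥(Subgroup.closure (E ∪ (fun x => g * x * g⁻¹) '' E)),
      (x : G) ∈ E → (y : G) = g * x * g⁻¹ → φ y = p * φ x * p⁻¹) :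
    Realized C (QuotientGroup.mk g : G ⧸ K) ((QuotientGroup.mk : G → G ⧸ K) '' E) := by
  have hmap : (Subgroup.closure (E ∪ (fun x => g * x * g⁻¹) '' E)).map (QuotientGroup.mk' K) =
      Subgroup.closure ((QuotientGroup.mk : G → G ⧸ K) '' E ∪
        (fun x => (QuotientGroup.mk g : G ⧸ K) * x * (QuotientGroup.mk g : G ⧸ K)⁻¹) ''
          ((QuotientGroup.mk : G → G ⧸ K) '' E)) := by
    rw [MonoidHom.map_closure, Set.image_union, Set.image_image, Set.image_image]
    rfl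
  let π : ↥(Subgroup.closure (E ∪ (fun x => g * x * g⁻¹) '' E)) →*
      ↥(Subgroup.closure ((QuotientGroup.mk : G → G ⧸ K) '' E ∪
        (fun x => (QuotientGroup.mk g : G ⧸ K) * x * (QuotientGroup.mk g : G ⧸ K)⁻¹) ''
          ((QuotientGroup.mk : G → G ⧸ K) '' E))) :=
    ((QuotientGroup.mk' K).comp (Subgroup.subtype _)).codRestrict _ (fun h => by
      rw [← hmap]
      exact ⟨h.1, h.2, rfl⟩)
  have hπ : Function.Surjective π := by
    rintro ⟨y, hy⟩
    have hy' := hy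
    rw [← hmap] at hy'
    obtain ⟨h, hh, rfl⟩ := hy'
    exact ⟨⟨h, hh⟩, rfl⟩
  have hπ1 : ∀ h, π h = 1 ↔ (h : G) ∈ K := by
    intro h
    rw [← QuotientGroup.eq_one_iff]
    constructor
    · intro h1
      exact congrArg Subtype.val h1
    · intro h1
      exact Subtype.ext h1
  let f := π.liftOfSurjective hπ ⟨φ, fun h hh => by
    rw [MonoidHom.mem_ker] at hh ⊢
    exact (hker h).2 ((hπ1 h).1 hh)⟩
  have hf : ∀ h, f (π h) = φ h := fun h =>
    MonoidHom.liftOfRightInverse_comp_apply π _ (Function.rightInverse_surjInv hπ) _ h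
  refine ⟨P, inferInstance, f, p, hP, ?_, ?_⟩
  · rw [injective_iff_map_eq_one]
    intro y hy
    obtain ⟨h, rfl⟩ := hπ y
    rw [hf, hker] at hy
    exact (hπ1 h).2 hy
  · intro x y hx hy
    obtain ⟨x0, hx0, hx1⟩ := hx
    have hxm : x0 ∈ Subgroup.closure (E ∪ (fun x => g * x * g⁻¹) '' E) :=
      Subgroup.subset_closure (Or.inl hx0)
    have hym : g * x0 * g⁻¹ ∈ Subgroup.closure (E ∪ (fun x => g * x * g⁻¹) '' E) :=
      Subgroup.subset_closure (Or.inr ⟨x0, hx0, rfl⟩)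
    have e1 : x = π ⟨x0, hxm⟩ := Subtype.ext hx1.symm
    have e2 : y = π ⟨g * x0 * g⁻¹, hym⟩ := by
      apply Subtype.ext
      rw [hy, ← hx1]
      rfl
    rw [e1, e2, hf, hf]
    exact hp _ _ hx0 rfl

/-! ### Recurrence -/

/-- a window in which everything that recurs occurs -/
theorem window {U V : Type} (c : ℤ → U) (d : ℤ → V) (hc : (Set.range c).Finite)
    (hd : (Set.range d).Finite) : ∃ (n₀ : ℤ) (m : ℕ), c n₀ = c (n₀ + (m + 1)) ∧
      (∀ n, n₀ < n → ∃ i : Fin (m + 1), d (n₀ + 1 + (i : ℕ)) = d n) ∧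
      (∀ n, n₀ < n → ∀ M : ℤ, ∃ n' ≥ M, d n' = d n) := by
  have h1 : ∀ᶠ n in (atTop : Filter ℤ), ∀ v ∈ Set.range d, d n = v → ∃ᶠ n' in (atTop : Filter ℤ), d n' = v := by
    rw [eventually_all_finite hd]
    intro v _
    by_cases hv : ∃ᶠ n' in (atTop : Filter ℤ), d n' = v
    · exact Eventually.of_forall fun _ _ => hv
    · rw [not_frequently] at hv
      filter_upwards [hv] with n hn h
      exact absurd h hn
  have h2 : ∃ v, ∃ᶠ n in (atTop : Filter ℤ), c n = v := by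
    by_contra hcon
    push Not at hcon
    have h3 : ∀ᶠ n in (atTop : Filter ℤ), ∀ v ∈ Set.range c, c n ≠ v := by
      rw [eventually_all_finite hc]
      intro v _
      exact hcon v
    obtain ⟨n, hn⟩ := h3.exists
    exact hn (c n) ⟨n, rfl⟩ rfl
  obtain ⟨N₀, hN₀⟩ := eventually_atTop.1 h1
  obtain ⟨v₀, hv₀⟩ := h2
  obtain ⟨n₀, hn₀, hn₀'⟩ := (hv₀.and_eventually (eventually_ge_atTop N₀)).exists
  have hrec : ∀ n, n₀ < n → ∃ᶠ n' in (atTop : Filter ℤ), d n' = d n := fun n hn =>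
    hN₀ n (by omega) (d n) ⟨n, rfl⟩ rfl
  have h4 : ∀ᶠ n₂ in (atTop : Filter ℤ), ∀ v ∈ Set.range d, (∃ᶠ n' in (atTop : Filter ℤ), d n' = v) →
      ∃ i, n₀ < i ∧ i ≤ n₂ ∧ d i = v := by
    rw [eventually_all_finite hd]
    intro v _
    by_cases hv : ∃ᶠ n' in (atTop : Filter ℤ), d n' = v
    · obtain ⟨i, hi, hi'⟩ := (hv.and_eventually (eventually_gt_atTop n₀)).exists
      filter_upwards [eventually_ge_atTop i] with n₂ hn₂ _
      exact ⟨i, hi', hn₂, hi⟩
    · exact Eventually.of_forall fun _ h => absurd h hv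
  obtain ⟨n₂, ⟨hn₂, hn₂'⟩, hn₂''⟩ := ((hv₀.and_eventually h4).and_eventually
    (eventually_gt_atTop n₀)).exists
  obtain ⟨m, hm⟩ : ∃ m : ℕ, n₂ = n₀ + (m + 1) := ⟨(n₂ - n₀ - 1).toNat, by omega⟩
  refine ⟨n₀, m, ?_, ?_, ?_⟩
  · rw [← hm, hn₀, hn₂]
  · intro n hn
    obtain ⟨i, hi1, hi2, hi3⟩ := hn₂' (d n) ⟨n, rfl⟩ (hrec n hn)
    refine ⟨⟨(i - n₀ - 1).toNat, by omega⟩, ?_⟩
    have e1 : n₀ + 1 + (((i - n₀ - 1).toNat : ℕ) : ℤ) = i := by omega
    show d (n₀ + 1 + (((i - n₀ - 1).toNat : ℕ) : ℤ)) = d n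
    rw [e1, hi3]
  · intro n hn M
    obtain ⟨n', h5, h6⟩ := ((hrec n hn).and_eventually (eventually_ge_atTop M)).exists
    exact ⟨n', h6, h5⟩

/-! ### The full group -/

section full

variable (A : Type) [Group A]

/-- all elements of finite range whose permutation is a translation -/
def Full : Subgroup (Wr ℤ A) where
  carrier := {w | (∃ k : ℤ, ∀ n : ℤ, w.p n = n + k) ∧ (Set.range w.s).Finite}
  one_mem' := ⟨⟨0, fun n => by simp⟩, Set.finite_range_const⟩
  mul_mem' := by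
    rintro a b ⟨⟨k, hk⟩, ha⟩ ⟨⟨l, hl⟩, hb⟩
    refine ⟨⟨l + k, fun n => ?_⟩, (ha.mul hb).subset ?_⟩
    · rw [Wr.mul_p, Equiv.Perm.mul_apply, hl, hk, add_assoc]
    · rintro _ ⟨n, rfl⟩
      exact Set.mul_mem_mul ⟨_, rfl⟩ ⟨_, rfl⟩
  inv_mem' := by
    rintro a ⟨⟨k, hk⟩, ha⟩
    refine ⟨⟨-k, fun n => ?_⟩, (ha.inv).subset ?_⟩
    · rw [Wr.inv_p, Equiv.Perm.inv_eq_iff_eq, hk]
      ring
    · rintro _ ⟨n, rfl⟩
      rw [Set.mem_inv]
      exact ⟨_, (inv_inv _).symm⟩

theorem full_p (w : Full A) (n : ℤ) : w.1.p n = n + w.1.p 0 := by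
  obtain ⟨k, hk⟩ := w.2.1
  rw [hk, hk, zero_add]

/-- the translation number -/
def deg : Full A →* Multiplicative ℤ where
  toFun w := Multiplicative.ofAdd (w.1.p 0)
  map_one' := rfl
  map_mul' a b := by
    show Multiplicative.ofAdd (a.1.p (b.1.p 0)) = _
    rw [full_p A a, ← ofAdd_add, add_comm]

theorem deg_ker (w : Full A) : w ∈ (deg A).ker ↔ w.1.p = 1 := by
  rw [MonoidHom.mem_ker]
  constructor
  · intro h
    have h1 : w.1.p 0 = 0 := h
    ext n
    rw [full_p A w n, h1, add_zero]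
    rfl
  · intro h
    show Multiplicative.ofAdd (w.1.p 0) = 1
    rw [h]
    rfl

/-- the elements which are trivial near `+∞` -/
def Np : Subgroup (Full A) where
  carrier := {w | w.1.p = 1 ∧ ∃ M : ℤ, ∀ n ≥ M, w.1.s n = 1}
  one_mem' := ⟨rfl, 0, fun n _ => rfl⟩
  mul_mem' := by
    rintro a b ⟨ha, M, hM⟩ ⟨hb, M', hM'⟩
    refine ⟨?_, max M M', fun n hn => ?_⟩
    · show a.1.p * b.1.p = 1
      rw [ha, hb, one_mul]
    · show a.1.s (b.1.p n) * b.1.s n = 1
      rw [hb, hM' n ((le_max_right _ _).trans hn)]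
      show a.1.s n * 1 = 1
      rw [hM n ((le_max_left _ _).trans hn), one_mul]
  inv_mem' := by
    rintro a ⟨ha, M, hM⟩
    refine ⟨?_, M, fun n hn => ?_⟩
    · show (a.1.p)⁻¹ = 1
      rw [ha, inv_one]
    · show (a.1.s (a.1.p⁻¹ n))⁻¹ = 1
      rw [ha, inv_one]
      show (a.1.s n)⁻¹ = 1
      rw [hM n hn, inv_one]

instance : (Np A).Normal where
  conj_mem := by
    rintro w ⟨hw, M, hM⟩ g
    refine ⟨?_, M + g.1.p 0, fun n hn => ?_⟩
    · show g.1.p * w.1.p * g.1.p⁻¹ = 1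
      rw [hw, mul_one, mul_inv_cancel]
    · have h1 : (g * w * g⁻¹) * g = g * w := by rw [inv_mul_cancel_right]
      have h2 : ((g * w * g⁻¹).1 * g.1).s (n - g.1.p 0) = (g.1 * w.1).s (n - g.1.p 0) := by
        have := congrArg (fun t : Full A => t.1.s (n - g.1.p 0)) h1
        exact this
      rw [Wr.mul_s, Wr.mul_s, full_p A g, sub_add_cancel, hw, hM _ (by omega), mul_one] at h2
      have h3 : (1 : Equiv.Perm ℤ) (n - g.1.p 0) = n - g.1.p 0 := rfl
      rw [h3] at h2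
      exact mul_right_cancel (h2.trans (one_mul _).symm)

theorem Np_le : Np A ≤ (deg A).ker := fun w hw => (deg_ker A w).2 hw.1

/-- the shift -/
def shift : Full A := ⟨⟨fun _ => 1, Equiv.addRight 1⟩, ⟨⟨1, fun _ => rfl⟩, Set.finite_range_const⟩⟩

theorem shift_conj (x : Full A) (n : ℤ) : (shift A * x * (shift A)⁻¹).1.s n = x.1.s (n - 1) := by
  have h1 : (shift A * x * (shift A)⁻¹) * shift A = shift A * x := by rw [inv_mul_cancel_right]
  have h2 : ((shift A * x * (shift A)⁻¹).1 * (shift A).1).s (n - 1) = ((shift A).1 * x.1).s (n - 1) :=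
    congrArg (fun t : Full A => t.1.s (n - 1)) h1
  rw [Wr.mul_s, Wr.mul_s] at h2
  have h3 : (shift A).1.p (n - 1) = n := sub_add_cancel n 1
  have h4 : ∀ k, (shift A).1.s k = 1 := fun _ => rfl
  rw [h3, h4, h4, mul_one, one_mul] at h2
  exact h2

theorem deg_shift : deg A (shift A) = Multiplicative.ofAdd 1 := rfl

/-- the reflection -/
def nu : Wr ℤ A := ⟨fun _ => 1, Equiv.neg ℤ⟩

theorem nu_conj_s (w : Wr ℤ A) (n : ℤ) : (nu A * w * (nu A)⁻¹).s n = w.s (-n) := by
  have h1 : (nu A * w * (nu A)⁻¹) * nu A = nu A * w := by rw [inv_mul_cancel_right]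
  have h2 : (nu A * w * (nu A)⁻¹).s ((nu A).p (-n)) * (nu A).s (-n) = (nu A).s (w.p (-n)) * w.s (-n) :=
    congrArg (fun t : Wr ℤ A => t.s (-n)) h1
  have h3 : (nu A).p (-n) = n := neg_neg n
  have h4 : ∀ k, (nu A).s k = 1 := fun _ => rfl
  rw [h3, h4, h4, mul_one, one_mul] at h2
  exact h2

theorem nu_conj_p (w : Wr ℤ A) (n : ℤ) : (nu A * w * (nu A)⁻¹).p n = - w.p (-n) := rfl

def refl : Full A →* Full A :=
  ((MulAut.conj (nu A)).toMonoidHom.comp (Full A).subtype).codRestrict (Full A) (by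
    intro w
    show nu A * w.1 * (nu A)⁻¹ ∈ Full A
    refine ⟨⟨-(w.1.p 0), fun n => ?_⟩, w.2.2.subset ?_⟩
    · rw [nu_conj_p, full_p A w]
      ring
    · rintro _ ⟨n, rfl⟩
      rw [nu_conj_s]
      exact ⟨_, rfl⟩)

theorem refl_s (w : Full A) (n : ℤ) : (refl A w).1.s n = w.1.s (-n) := nu_conj_s A w.1 n

/-- the embedding modulo finitely supported sections -/
def ends : Full A →* (Full A ⧸ Np A) × (Full A ⧸ Np A) :=
  (QuotientGroup.mk' (Np A)).prod ((QuotientGroup.mk' (Np A)).comp (refl A))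

theorem ends_ker (w : Full A) (hw : w ∈ (ends A).ker) : w.1.p = 1 ∧ {n | w.1.s n ≠ 1}.Finite := by
  rw [MonoidHom.mem_ker] at hw
  have h1 : w ∈ Np A := (QuotientGroup.eq_one_iff w).1 (congrArg Prod.fst hw)
  have h2 : refl A w ∈ Np A := (QuotientGroup.eq_one_iff (refl A w)).1 (congrArg Prod.snd hw)
  obtain ⟨h3, M, hM⟩ := h1
  obtain ⟨_, M', hM'⟩ := h2
  refine ⟨h3, (Set.finite_Icc (-M') M).subset fun n hn => ?_⟩
  by_contra hcon
  apply hn
  rw [Set.mem_Icc, not_and_or, not_le, not_le] at hcon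
  rcases hcon with h | h
  · have := hM' (-n) (by omega)
    rwa [refl_s, neg_neg] at this
  · exact hM n h.le

end full

/-! ### Germs at infinity -/

section germs

variable {C : ∀ (G : Type) [Group G], Prop} (hC : ClosedE C) (A : Type) [Group A]

theorem t_col' : S_COL := Pool.Agent.R779.FJ.t_col (Pool.Agent.Y961.FJ.t_perm Pool.Agent.Y529.FJ.t_ext)

include hC in
theorem realize (hA : C A) (E : Set (Full A)) (hE : E.Finite) (hEN : E ⊆ (deg A).ker) :
    Realized C (QuotientGroup.mk (shift A) : Full A ⧸ Np A)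
      ((QuotientGroup.mk : Full A → Full A ⧸ Np A) '' E) := by
  classical
  have : Finite E := hE
  obtain ⟨c, hc⟩ : ∃ c : ℤ → (E → A), ∀ n x, c n x = x.1.1.s n := ⟨fun n x => x.1.1.s n, fun _ _ => rfl⟩
  obtain ⟨d, hd⟩ : ∃ d : ℤ → (E → A) × (E → A), ∀ n, d n = (c (n - 1), c n) := ⟨_, fun _ => rfl⟩
  have hcf : (Set.range c).Finite := by
    refine (Set.Finite.pi' (fun x : E => x.1.2.2)).subset ?_
    rintro _ ⟨n, rfl⟩ x
    exact ⟨n, (hc n x).symm⟩
  have hdf : (Set.range d).Finite := by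
    refine (hcf.prod hcf).subset ?_
    rintro _ ⟨n, rfl⟩
    rw [hd]
    exact ⟨⟨_, rfl⟩, ⟨_, rfl⟩⟩
  obtain ⟨n₀, m, h1, h2, h3⟩ := window c d hcf hdf
  -- the sections of the elements of the closure are functions of `d`
  let S : Subgroup (Full A) :=
    { carrier := {h | h.1.p = 1 ∧ ∀ n n', d n = d n' → h.1.s n = h.1.s n'}
      one_mem' := ⟨rfl, fun _ _ _ => rfl⟩
      mul_mem' := by
        rintro a b ⟨ha, ha'⟩ ⟨hb, hb'⟩
        refine ⟨?_, fun n n' h => ?_⟩
        · show a.1.p * b.1.p = 1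
          rw [ha, hb, one_mul]
        · show a.1.s (b.1.p n) * b.1.s n = a.1.s (b.1.p n') * b.1.s n'
          rw [hb, hb' n n' h]
          show a.1.s n * _ = a.1.s n' * _
          rw [ha' n n' h]
      inv_mem' := by
        rintro a ⟨ha, ha'⟩
        refine ⟨?_, fun n n' h => ?_⟩
        · show (a.1.p)⁻¹ = 1
          rw [ha, inv_one]
        · show (a.1.s (a.1.p⁻¹ n))⁻¹ = (a.1.s (a.1.p⁻¹ n'))⁻¹
          rw [ha, inv_one]
          show (a.1.s n)⁻¹ = (a.1.s n')⁻¹
          rw [ha' n n' h] }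
  have hS : Subgroup.closure (E ∪ (fun x => shift A * x * (shift A)⁻¹) '' E) ≤ S := by
    rw [Subgroup.closure_le]
    rintro _ (hx | ⟨x, hx, rfl⟩)
    · rename_i x
      refine ⟨(deg_ker A x).1 (hEN hx), fun n n' h => ?_⟩
      rw [hd, hd, Prod.mk.injEq] at h
      have := congrFun h.2 ⟨x, hx⟩
      rwa [hc, hc] at this
    · refine ⟨?_, fun n n' h => ?_⟩
      · show (shift A).1.p * x.1.p * ((shift A).1.p)⁻¹ = 1
        rw [(deg_ker A x).1 (hEN hx), mul_one, mul_inv_cancel]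
      · rw [hd, hd, Prod.mk.injEq] at h
        have := congrFun h.1 ⟨x, hx⟩
        rw [hc, hc] at this
        simp only [shift_conj]
        exact this
  refine realized_quot (C := C) (Np A) (shift A) E (Wr (Fin (m + 1)) A)
    (Pool.Agent.Y812.SS.t_wr C hC.base (Fin (m + 1)) A inferInstance hA)
    { toFun := fun h => ⟨fun i => h.1.1.s (n₀ + 1 + (i : ℕ)), 1⟩
      map_one' := rfl
      map_mul' := fun a b => by
        apply Wr.ext
        · funext i
          show a.1.1.s (b.1.1.p (n₀ + 1 + (i : ℕ))) * b.1.1.s (n₀ + 1 + (i : ℕ)) =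
            a.1.1.s (n₀ + 1 + (i : ℕ)) * b.1.1.s (n₀ + 1 + (i : ℕ))
          rw [(hS b.2).1]
          rfl
        · show (1 : Equiv.Perm (Fin (m + 1))) = 1 * 1
          rw [mul_one] }
    ⟨fun _ => 1, finRotate (m + 1)⟩ ?_ ?_
  · intro h
    constructor
    · intro h4
      refine ⟨(hS h.2).1, n₀ + 1, fun n hn => ?_⟩
      obtain ⟨i, hi⟩ := h2 n (by omega)
      rw [← (hS h.2).2 _ _ hi]
      exact congrFun (congrArg Wr.s h4) i
    · rintro ⟨-, M, hM⟩
      apply Wr.ext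
      · funext i
        show h.1.1.s (n₀ + 1 + (i : ℕ)) = 1
        obtain ⟨n', hn', h5⟩ := h3 (n₀ + 1 + (i : ℕ)) (by omega) M
        rw [← (hS h.2).2 _ _ h5]
        exact hM n' hn'
      · rfl
  · intro x y hx hy
    rw [eq_mul_inv_iff_mul_eq]
    apply Wr.ext
    · funext i
      show y.1.1.s (n₀ + 1 + ((finRotate (m + 1) i : Fin (m + 1)) : ℕ)) * 1 =
        1 * x.1.1.s (n₀ + 1 + (i : ℕ))
      rw [mul_one, one_mul, hy, shift_conj, coe_finRotate]
      split_ifs with hi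
      · subst hi
        have h6 := congrFun h1 ⟨x.1, hx⟩
        rw [hc, hc] at h6
        have e1 : n₀ + 1 + ((0 : ℕ) : ℤ) - 1 = n₀ := by simp
        have e2 : n₀ + 1 + ((Fin.last m : Fin (m + 1)) : ℕ) = n₀ + (m + 1) := by
          rw [Fin.val_last]; ring
        rw [e1, e2]
        exact h6
      · congr 1
        push_cast
        ring
    · show (1 : Equiv.Perm (Fin (m + 1))) * finRotate (m + 1) = finRotate (m + 1) * 1
      rw [one_mul, mul_one]

include hC in
theorem germs_mem (hA : C A) : C (Full A ⧸ Np A) := by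
  have hcol := t_col' C hC (Full A ⧸ Np A) ((deg A).ker.map (QuotientGroup.mk' (Np A)))
    (QuotientGroup.mk (shift A)) ?_ ?_
  · refine hC.base.of_injective _ _ (MonoidHom.codRestrict (MonoidHom.id (Full A ⧸ Np A)) _ ?_) ?_ hcol
    · intro y
      obtain ⟨w, rfl⟩ := QuotientGroup.mk_surjective y
      obtain ⟨k, hk⟩ : ∃ k : ℤ, w.1.p 0 = k := ⟨_, rfl⟩
      have h1 : w * (shift A ^ k)⁻¹ ∈ (deg A).ker := by
        rw [MonoidHom.mem_ker, map_mul, map_inv, map_zpow, deg_shift]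
        show Multiplicative.ofAdd (w.1.p 0) * (Multiplicative.ofAdd 1 ^ k)⁻¹ = 1
        rw [hk, ← ofAdd_zsmul, smul_eq_mul, mul_one, mul_inv_cancel]
      have h2 : (MonoidHom.id (Full A ⧸ Np A)) (QuotientGroup.mk w) =
          (QuotientGroup.mk' (Np A)) (w * (shift A ^ k)⁻¹) * (QuotientGroup.mk (shift A) : Full A ⧸ Np A) ^ k := by
        rw [map_mul, map_inv, map_zpow]
        show (QuotientGroup.mk w : Full A ⧸ Np A) = QuotientGroup.mk w *
          ((QuotientGroup.mk (shift A) : Full A ⧸ Np A) ^ k)⁻¹ * (QuotientGroup.mk (shift A) : Full A ⧸ Np A) ^ k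
        rw [inv_mul_cancel_right]
      rw [h2]
      exact Subgroup.mul_mem_sup ⟨_, h1, rfl⟩ (Subgroup.zpow_mem_zpowers _ k)
    · intro x y h
      exact congrArg Subtype.val h
  · rintro n hn ⟨w, hw, hwn⟩
    have h1 : w⁻¹ * shift A ^ n ∈ Np A := by
      rw [← QuotientGroup.eq]
      exact hwn
    have h2 := (deg A).ker.mul_mem hw (Np_le A h1)
    rw [mul_inv_cancel_left, MonoidHom.mem_ker, map_pow, deg_shift, ← ofAdd_nsmul] at h2
    have h3 : n • (1 : ℤ) = 0 := h2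
    simp at h3
    omega
  · intro E hE hEN
    have hch : ∀ e ∈ E, ∃ w : Full A, w ∈ (deg A).ker ∧ (QuotientGroup.mk w : Full A ⧸ Np A) = e := by
      intro e he
      obtain ⟨w, hw, hwe⟩ := hEN he
      exact ⟨w, hw, hwe⟩
    choose! r hr1 hr2 using hch
    have h1 : (QuotientGroup.mk : Full A → Full A ⧸ Np A) '' (r '' E) = E := by
      rw [Set.image_image]
      ext e
      constructor
      · rintro ⟨e', he', rfl⟩
        show (QuotientGroup.mk (r e') : Full A ⧸ Np A) ∈ E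
        rw [hr2 e' he']
        exact he'
      · intro he
        exact ⟨e, he, hr2 e he⟩
    have h2 := realize hC A hA (r '' E) (hE.image r) (by
      rintro _ ⟨e, he, rfl⟩
      exact hr1 e he)
    rwa [h1] at h2

include hC in
theorem full_mem (hA : C A) : C (Full A) := by
  have hQ : C (Full A ⧸ (ends A).ker) :=
    hC.base.of_injective _ _ (QuotientGroup.kerLift (ends A)) (QuotientGroup.kerLift_injective (ends A))
      (hC.base.prod _ _ (germs_mem hC A hA) (germs_mem hC A hA))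
  exact Pool.Agent.N24.FV.fs hC (Full A).subtype (ends A).ker hQ hA (fun n _ h => Subtype.ext h)
    (fun n hn => (ends_ker A n hn).1) (fun n hn => (ends_ker A n hn).2)

end germs

end Pool.Agent.H73AR.FVp

namespace Pool.Agent.H73AR

open Pool.Agent.Y462.SS

/-- **`S_FV`.** -/
theorem t_FV : S_FV := by
  intro C hC A _ hA G _ Ψ hΨ h1 h2
  refine hC.base.of_injective G (FVp.Full A) (Ψ.codRestrict (FVp.Full A) fun g => ⟨h1 g, h2 g⟩) ?_
    (FVp.full_mem hC A hA)
  intro x y h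
  exact hΨ (congrArg Subtype.val h)

end Pool.Agent.H73AR
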