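import Pool.Agent.H73AR.Tr
import Pool.Agent.H73AR.Stm2
import Pool.Agent.H73AR.FV

/-!
# Kernels of sections of finite range
-/

set_option autoImplicit false

namespace Pool.Agent.H73AR

open Pool.Agent.Y110.FJ (ClosedE Realized)
open Pool.Agent.Y462.SS (Closed Wr)

/-- the permutation part -/
def wpr (X A : Type) [Group A] : Wr X A →* Equiv.Perm X where
  toFun F := F.p
  map_one' := rfl
  map_mul' _ _ := rfl

theorem wr_range_mul {X A : Type} [Group A] {F F' : Wr X A} (h : (Set.range F.s).Finite)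
    (h' : (Set.range F'.s).Finite) : (Set.range (F * F').s).Finite := by
  refine (h.mul h').subset ?_
  rintro _ ⟨x, rfl⟩
  exact Set.mul_mem_mul ⟨_, rfl⟩ ⟨_, rfl⟩

theorem wr_range_inv {X A : Type} [Group A] {F : Wr X A} (h : (Set.range F.s).Finite) :
    (Set.range (F⁻¹).s).Finite := by
  refine h.inv.subset ?_
  rintro _ ⟨x, rfl⟩
  exact Set.inv_mem_inv.2 ⟨_, rfl⟩

/-- the elements with sections of finite range and permutations in the powers of `π` -/
def PG (X A : Type) [Group A] (π : Equiv.Perm X) : Subgroup (Wr X A) where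
  carrier := {F | (Set.range F.s).Finite ∧ F.p ∈ Subgroup.zpowers π}
  mul_mem' h h' := ⟨wr_range_mul h.1 h'.1, mul_mem h.2 h'.2⟩
  one_mem' := ⟨(Set.finite_singleton (1 : A)).subset (by rintro _ ⟨x, rfl⟩; rfl), one_mem _⟩
  inv_mem' h := ⟨wr_range_inv h.1, inv_mem h.2⟩

theorem t_FR : S_FR := by
  classical
  intro C hC A _ hA X G _ N _ Ψ hQ h1 h2 h3
  refine Pool.Agent.R779.FJ.t_crit Pool.Agent.Y529.FJ.t_ext
    (Pool.Agent.Y961.FJ.t_perm Pool.Agent.Y529.FJ.t_ext) C hC G N hQ fun g E hE hEN => ?_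
  obtain ⟨L, hL⟩ : ∃ L : Subgroup G, L = Subgroup.closure (E ∪ (fun x => g * x * g⁻¹) '' E) := ⟨_, rfl⟩
  have hLN : ∀ x ∈ L, x ∈ N := by
    have : L ≤ N := by
      rw [hL, Subgroup.closure_le]
      rintro x (hx | ⟨y, hy, rfl⟩)
      · exact hEN hx
      · exact Subgroup.Normal.conj_mem inferInstance y (hEN hy) g
    exact this
  -- the colours
  have hEf : Finite E := hE
  obtain ⟨col, hcol⟩ : ∃ col : X → (E → A × A), col = fun x e => ((Ψ e.1).s x, (Ψ (g * e.1 * g⁻¹)).s x) :=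
    ⟨_, rfl⟩
  have hcolf : (Set.range col).Finite := by
    have hfin : ∀ e : E, (Set.range (fun x => ((Ψ e.1).s x, (Ψ (g * e.1 * g⁻¹)).s x))).Finite := by
      intro e
      refine ((h2 e.1 (hEN e.2)).prod
        (h2 (g * e.1 * g⁻¹) (Subgroup.Normal.conj_mem inferInstance _ (hEN e.2) g))).subset ?_
      rintro _ ⟨x, rfl⟩
      exact ⟨⟨x, rfl⟩, ⟨x, rfl⟩⟩
    refine (Set.Finite.pi' hfin).subset ?_
    rintro _ ⟨x, rfl⟩ e
    rw [hcol]
    exact ⟨x, rfl⟩
  -- sections of `L` depend on the colour only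
  have hsec : ∀ x y : X, col x = col y → ∀ h ∈ L, (Ψ h).s x = (Ψ h).s y := by
    intro x y hxy h hh
    have hp : ∀ u ∈ L, (Ψ u).p = 1 := fun u hu => h1 u (hLN u hu)
    have key : ∀ u ∈ L, (Ψ u).s x = (Ψ u).s y := by
      intro u hu
      rw [hL] at hu
      induction hu using Subgroup.closure_induction with
      | mem u hu =>
        rcases hu with hu | ⟨e, he, rfl⟩
        · have := congrFun hxy ⟨u, hu⟩
          rw [hcol] at this
          exact congrArg Prod.fst this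
        · have := congrFun hxy ⟨e, he⟩
          rw [hcol] at this
          exact congrArg Prod.snd this
      | one => rw [map_one]; rfl
      | mul u v hu hv ihu ihv =>
        rw [map_mul, Wr.mul_s, Wr.mul_s, hp v (by rw [hL]; exact hv)]
        show (Ψ u).s x * (Ψ v).s x = (Ψ u).s y * (Ψ v).s y
        rw [ihu, ihv]
      | inv u hu ihu =>
        rw [map_inv, Wr.inv_s, Wr.inv_s, hp u (by rw [hL]; exact hu)]
        show ((Ψ u).s x)⁻¹ = ((Ψ u).s y)⁻¹
        rw [ihu]
    exact key h hh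
  -- the modified conjugator
  obtain ⟨π, hπ⟩ : ∃ π : Equiv.Perm X, π = (Ψ g).p := ⟨_, rfl⟩
  obtain ⟨d, hd⟩ : ∃ d : X → (E → A × A) × (E → A × A), d = fun x => (col x, col (π x)) := ⟨_, rfl⟩
  have hdf : (Set.range d).Finite := by
    refine (hcolf.prod hcolf).subset ?_
    rintro _ ⟨x, rfl⟩
    rw [hd]
    exact ⟨⟨x, rfl⟩, ⟨π x, rfl⟩⟩
  obtain ⟨r, hr⟩ : ∃ r : Set.range d → X, ∀ u, d (r u) = u.1 := by
    choose r hr using fun u : Set.range d => u.2
    exact ⟨r, hr⟩
  obtain ⟨rep, hrep⟩ : ∃ rep : X → X, rep = fun x => r ⟨d x, x, rfl⟩ := ⟨_, rfl⟩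
  have hrep1 : ∀ x, d (rep x) = d x := fun x => by
    rw [hrep]
    exact hr _
  have hrepf : (Set.range rep).Finite := by
    have : Finite (Set.range d) := hdf
    refine (Set.finite_range r).subset ?_
    rintro _ ⟨x, rfl⟩
    rw [hrep]
    exact ⟨_, rfl⟩
  obtain ⟨p, hp⟩ : ∃ p : Wr X A, p = ⟨fun x => (Ψ g).s (rep x), π⟩ := ⟨_, rfl⟩
  have hconj : ∀ e ∈ E, Ψ (g * e * g⁻¹) = p * Ψ e * p⁻¹ := by
    intro e he
    rw [eq_mul_inv_iff_mul_eq]
    have hN1 : g * e * g⁻¹ ∈ N := Subgroup.Normal.conj_mem inferInstance _ (hEN he) g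
    ext x
    · rw [Wr.mul_s, Wr.mul_s, h1 e (hEN he)]
      show (Ψ (g * e * g⁻¹)).s (p.p x) * p.s x = p.s x * (Ψ e).s x
      have h4 : Ψ (g * e * g⁻¹) * Ψ g = Ψ g * Ψ e := by
        rw [← map_mul, ← map_mul, inv_mul_cancel_right]
      have h5 := congrFun (congrArg Wr.s h4) (rep x)
      rw [Wr.mul_s, Wr.mul_s, h1 e (hEN he)] at h5
      have h6 : (Ψ (g * e * g⁻¹)).s (π (rep x)) * (Ψ g).s (rep x) =
          (Ψ g).s (rep x) * (Ψ e).s (rep x) := by rw [hπ]; exact h5
      have h7 := hrep1 x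
      rw [hd] at h7
      have h8 : col (rep x) = col x := congrArg Prod.fst h7
      have h9 : col (π (rep x)) = col (π x) := congrArg Prod.snd h7
      have h10 : (Ψ e).s (rep x) = (Ψ e).s x := by
        have := congrFun h8 ⟨e, he⟩
        rw [hcol] at this
        exact congrArg Prod.fst this
      have h11 : (Ψ (g * e * g⁻¹)).s (π (rep x)) = (Ψ (g * e * g⁻¹)).s (π x) := by
        have := congrFun h9 ⟨e, he⟩
        rw [hcol] at this
        exact congrArg Prod.snd this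
      rw [h10, h11] at h6
      rw [hp]
      exact h6
    · rw [Wr.mul_p, Wr.mul_p, h1 e (hEN he), h1 _ hN1, one_mul, mul_one]
  have hpf : (Set.range p.s).Finite := by
    have h4 : Set.range p.s ⊆ (fun y => (Ψ g).s y) '' Set.range rep := by
      rintro _ ⟨x, rfl⟩
      rw [hp]
      exact ⟨rep x, ⟨x, rfl⟩, rfl⟩
    exact (hrepf.image _).subset h4
  have hpPG : p ∈ PG X A π := ⟨hpf, by rw [hp]; exact Subgroup.mem_zpowers π⟩
  have hLPG : ∀ u ∈ L, Ψ u ∈ PG X A π := fun u hu => ⟨h2 u (hLN u hu), by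
    rw [h1 u (hLN u hu)]
    exact one_mem _⟩
  -- finitely many points
  obtain ⟨rc, hrc⟩ : ∃ rc : Set.range col → X, ∀ u, col (rc u) = u.1 := by
    choose r hr using fun u : Set.range col => u.2
    exact ⟨r, hr⟩
  have hrcf : (Set.range rc).Finite := by
    have : Finite (Set.range col) := hcolf
    exact Set.finite_range rc
  have hprod : ∀ R : Finset X, ∃ (P : Type) (_ : Group P) (f : PG X A π →* P), C P ∧
      ∀ h : PG X A π, (h : Wr X A).p = 1 → f h = 1 → ∀ x ∈ R, (h : Wr X A).s x = 1 := by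
    intro R
    induction R using Finset.induction_on with
    | empty => exact ⟨Multiplicative ℤ, inferInstance, 1, hC.base.int, fun h _ _ x hx => by simp at hx⟩
    | insert x R _ ih =>
      obtain ⟨P, _, f, hP, hf⟩ := ih
      obtain ⟨P', _, f', hP', hf'⟩ := orbit_hom (X := X) (A := A) (C := C) (H := PG X A π) t_FV hC hA
        (PG X A π).subtype π (fun h => by
          obtain ⟨k, hk⟩ := Subgroup.mem_zpowers_iff.1 h.2.2
          exact ⟨k, hk.symm⟩) (fun h => h.2.1) x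
      refine ⟨P × P', inferInstance, f.prod f', hC.base.prod _ _ hP hP', fun h hh hf1 y hy => ?_⟩
      have h4 : f h = 1 := congrArg Prod.fst hf1
      have h5 : f' h = 1 := congrArg Prod.snd hf1
      rcases Finset.mem_insert.1 hy with rfl | hy
      · refine hf' h ?_ h5
        show (h : Wr X A).p y = y
        rw [hh]
        rfl
      · exact hf h hh h4 y hy
  obtain ⟨P, _, f, hP, hf⟩ := hprod hrcf.toFinset
  obtain ⟨F, hF⟩ : ∃ F : L →* PG X A π, ∀ u : L, ((F u : PG X A π) : Wr X A) = Ψ (u : G) :=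
    ⟨(Ψ.comp L.subtype).codRestrict (PG X A π) (fun u => hLPG u.1 u.2), fun _ => rfl⟩
  subst hL
  refine ⟨P, inferInstance, f.comp F, f ⟨p, hpPG⟩, hP, ?_, ?_⟩
  · rw [injective_iff_map_eq_one]
    intro u hu
    have h4 := hf (F u) (by rw [hF]; exact h1 _ (hLN _ u.2)) hu
    apply Subtype.ext
    refine h3 _ (hLN _ u.2) ?_
    ext x
    · have h5 := h4 (rc ⟨col x, x, rfl⟩) (by
        rw [Set.Finite.mem_toFinset]
        exact ⟨_, rfl⟩)
      rw [hF] at h5
      rw [← hsec _ x (hrc ⟨col x, x, rfl⟩) _ u.2, h5]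
      rfl
    · rw [h1 _ (hLN _ u.2)]
      rfl
  · intro x y hx hy
    show f (F y) = f ⟨p, hpPG⟩ * f (F x) * (f ⟨p, hpPG⟩)⁻¹
    rw [← map_inv, ← map_mul, ← map_mul]
    congr 1
    apply Subtype.ext
    show ((F y : PG X A π) : Wr X A) = p * ((F x : PG X A π) : Wr X A) * p⁻¹
    rw [hF, hF, hy]
    exact hconj x hx

end Pool.Agent.H73AR
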