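import Pool.Agent.H73AR.Ext
import Pool.Agent.H73AR.Dih
import Pool.Agent.H73AR.CP
import Pool.Agent.H73AR.EP
import Pool.Agent.H73AR.FV

/-!
# Artin groups and extensions by Artin groups: assembly
-/

set_option autoImplicit false

namespace Pool.Agent.H73AR

open Pool.Agent.Y110.FJ (ClosedE)

variable {C : ∀ (G : Type) [Group G], Prop}

/-- an Artin group is in the class iff its finite parts without label `∞` are -/
theorem art_iff (hC : ClosedE C)
    (hcox : ∀ (S : Type) (_ : Finite S) (A : CoxeterMatrix S), C A.Group)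
    {B : Type} (M : CoxeterMatrix B) :
    C (Art M) ↔ ∀ T : Set B, T.Finite → (∀ x ∈ T, ∀ y ∈ T, M x y ≠ 0) → C (Art (rest M T)) := by
  constructor
  · intro h T _ _
    exact hC.base.of_injective _ _ (inc M T) (inc_injective t_CP M T) h
  · intro hT
    let act : MulAction (⊥ : Subgroup (Art M)) B :=
      { smul := fun _ b => b, one_smul := fun _ => rfl, mul_smul := fun _ _ _ => rfl }
    refine art_main (G := Art M) (N := ⊤) (M := M) Subgroup.topEquiv.symm t_CP t_FV t_EP hC hcox hT
      (⊥ : Subgroup (Art M)) (fun _ => 1) (by simp) (fun _ _ _ => rfl) ?_ ?_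
    · rintro ⟨m, hm⟩ b
      rw [Subgroup.mem_bot] at hm
      subst hm
      have h1 : (((1 : ℤˣ) : ℤ)) = 1 := rfl
      show (1 : Art M) * sig M b * 1⁻¹ = sig M b ^ (((1 : ℤˣ) : ℤ))
      rw [h1, zpow_one, one_mul, inv_one, mul_one]
    · have : Subsingleton (Art M ⧸ (⊤ : Subgroup (Art M))) :=
        QuotientGroup.subsingleton_quotient_top
      exact Pool.Agent.Y812.SS.C_subsingleton hC.base _

end Pool.Agent.H73AR
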