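import Pool.Agent.H73AR.Tr2
import Pool.Agent.H73AR.Fin

/-!
# Quotients of Artin groups by even powers of generators: assembly
-/

set_option autoImplicit false

namespace Pool.Agent.H73AR

open Pool.Agent.Y110.FJ (ClosedE)
open Pool.Agent.Y462.SS (Closed Wr)

variable {C : ∀ (G : Type) [Group G], Prop}

/-- the group is in the class iff its finite parts without label `∞` are -/
theorem shp_iff (hCP : S_CP2) (hEP : S_EP2) (hC : ClosedE C)
    (hcox : ∀ (S : Type) (_ : Finite S) (A : CoxeterMatrix S), C A.Group)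
    {B : Type} (M : CoxeterMatrix B) {p : B → ℕ} (hp : Adm M p) :
    C (Shp M p) ↔
      ∀ T : Set B, T.Finite → (∀ x ∈ T, ∀ y ∈ T, M x y ≠ 0) → C (Shp (rest M T) (resp p T)) := by
  constructor
  · intro h T _ _
    exact hC.base.of_injective _ _ (sinc M p T) (sinc_injective hCP M hp T) h
  · intro hT
    let act : MulAction (⊥ : Subgroup (Shp M p)) B :=
      { smul := fun _ b => b, one_smul := fun _ => rfl, mul_smul := fun _ _ _ => rfl }
    refine shp_main (G := Shp M p) (N := ⊤) (M := M) Subgroup.topEquiv.symm hCP t_FV hEP hC hcox hp hT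
      (⊥ : Subgroup (Shp M p)) (fun _ => 1) (by simp) (fun _ _ _ => rfl) (fun _ _ => rfl) ?_ ?_
    · rintro ⟨m, hm⟩ b
      rw [Subgroup.mem_bot] at hm
      subst hm
      have h1 : (((1 : ℤˣ) : ℤ)) = 1 := rfl
      show (1 : Shp M p) * gen M p b * 1⁻¹ = gen M p b ^ (((1 : ℤˣ) : ℤ))
      rw [h1, zpow_one, one_mul, inv_one, mul_one]
    · have : Subsingleton (Shp M p ⧸ (⊤ : Subgroup (Shp M p))) :=
        QuotientGroup.subsingleton_quotient_top
      exact Pool.Agent.Y812.SS.C_subsingleton hC.base _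

/-- exponent `0`: the Artin group -/
theorem C_zero (hC : Closed C) {B : Type} (M : CoxeterMatrix B) (p : B → ℕ) (hp : ∀ b, p b = 0)
    (h : C (Art M)) : C (Shp M p) := by
  let f : Shp M p →* Art M := slift (fun b => sig M b) (fun _ _ hab => sig_rel hab)
    (fun b => by rw [hp b, pow_zero])
  let g : Art M →* Shp M p := alift (fun b => gen M p b) (fun _ _ hab => gen_rel hab)
  have hgf : g.comp f = MonoidHom.id _ := sext fun b => by
    show g (f (gen M p b)) = gen M p b
    rw [show f (gen M p b) = sig M b from slift_gen _ _ _ b]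
    exact alift_sig _ _ b
  exact hC.of_injective _ _ f (fun x y hxy => by
    have h1 := DFunLike.congr_fun hgf x
    have h2 := DFunLike.congr_fun hgf y
    change g (f x) = x at h1
    change g (f y) = y at h2
    rw [← h1, ← h2, hxy]) h

/-- products of dihedral groups -/
theorem dih_Art (hC : ClosedE C)
    (hcox : ∀ (S : Type) (_ : Finite S) (A : CoxeterMatrix S), C A.Group)
    {B : Type} (M : CoxeterMatrix B)
    (h : ∀ x y z : B, x ≠ y → x ≠ z → y ≠ z → M x y ≠ 0 → M x z ≠ 0 → M y z ≠ 0 →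
      M x y = 2 ∨ M x z = 2) : C (Art M) := by
  rw [art_iff hC hcox M]
  intro T hT hTM
  have : Finite T := hT
  refine C_dih hC.base (Nat.card T) T (rest M T) rfl (fun x y => hTM x.1 x.2 y.1 y.2) ?_
  intro x y z hxy hxz hyz
  exact h x.1 y.1 z.1 (fun h => hxy (Subtype.ext h)) (fun h => hxz (Subtype.ext h))
    (fun h => hyz (Subtype.ext h)) (hTM x.1 x.2 y.1 y.2) (hTM x.1 x.2 z.1 z.2) (hTM y.1 y.2 z.1 z.2)

end Pool.Agent.H73AR
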