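import Pool.Agent.H73AR.Tr
import Pool.Agent.H73AR.Stm2

/-!
# Groups acting on trees whose vertex groups are detected by wreath recursions of finite range
-/

set_option autoImplicit false

namespace Pool.Agent.H73AR

open Pool.Agent.Y110.FJ (ClosedE)
open Pool.Agent.Y462.SS (Closed Wr)

/-- cyclic groups -/
theorem C_gen1 {C : ∀ (G : Type) [Group G], Prop} (hC : Closed C) {G : Type} [Group G] (z : G)
    (h : ∀ g : G, g ∈ Subgroup.zpowers z) : C G := by
  by_cases hz : IsOfFinOrder z
  · have h2 : ((Subgroup.zpowers z : Subgroup G) : Set G).Finite := finite_zpowers.2 hz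
    have h3 : (Set.univ : Set G).Finite := h2.subset (fun x _ => h x)
    have : Finite G := Set.finite_univ_iff.1 h3
    exact Pool.Agent.Y812.SS.C_finite hC _
  · have hinj : Function.Injective (zpowersHom G z) := by
      intro a b hab
      rw [zpowersHom_apply, zpowersHom_apply] at hab
      exact Multiplicative.toAdd.injective (injective_zpow_iff_not_isOfFinOrder.2 hz hab)
    have hsurj : Function.Surjective (zpowersHom G z) := by
      intro g
      obtain ⟨k, hk⟩ := Subgroup.mem_zpowers_iff.1 (h g)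
      exact ⟨Multiplicative.ofAdd k, by rw [zpowersHom_apply]; exact hk⟩
    let e := MulEquiv.ofBijective _ ⟨hinj, hsurj⟩
    exact hC.of_injective _ _ e.symm.toMonoidHom e.symm.injective hC.int

/-- **Trees and wreath recursions of finite range.** `G` acts on a tree, `N` is normal with quotient in the
class; for each vertex `v` there is a homomorphism `Ψ` from `G` to a wreath product `A ≀ Perm X`, `A` in the
class, such that the elements of `N` act trivially on `X` and have sections of finite range, and `Ψ` is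
injective on the elements of `N` which fix `v`. -/
theorem t_GT (hFR : S_FR) {C : ∀ (G : Type) [Group G], Prop} (hC : ClosedE C) {G V : Type} [Group G]
    [MulAction G V] (T : SimpleGraph V) (hT : T.IsTree)
    (hact : ∀ (g : G) (u v : V), T.Adj u v → T.Adj (g • u) (g • v)) (N : Subgroup G) [N.Normal]
    (hQ : C (G ⧸ N))
    (h : ∀ v : V, ∃ (A : Type) (_ : Group A) (X : Type) (Ψ : G →* Wr X A), C A ∧
      (∀ n ∈ N, (Ψ n).p = 1) ∧ (∀ n ∈ N, (Set.range (Ψ n).s).Finite) ∧
      ∀ n ∈ N, n • v = v → Ψ n = 1 → n = 1) : C G := by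
  have key : ∀ g : G, C ↥(N ⊔ Subgroup.zpowers g) := by
    intro g
    obtain ⟨H, hH⟩ : ∃ H : Subgroup G, H = N ⊔ Subgroup.zpowers g := ⟨_, rfl⟩
    rw [← hH]
    have hNH : N ≤ H := by rw [hH]; exact le_sup_left
    have hgH : g ∈ H := by
      rw [hH]
      exact le_sup_right (a := N) (Subgroup.mem_zpowers g)
    have hdec : ∀ x : H, ∃ n ∈ N, ∃ k : ℤ, (x : G) = n * g ^ k := by
      intro x
      have hx : (x : G) ∈ N ⊔ Subgroup.zpowers g := by rw [← hH]; exact x.2
      obtain ⟨n, hn, y, hy, hh⟩ := Subgroup.mem_sup_of_normal_left.1 hx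
      obtain ⟨k, rfl⟩ := Subgroup.mem_zpowers_iff.1 hy
      exact ⟨n, hn, k, hh.symm⟩
    -- quotients by the image of `N` are cyclic
    have hcyc : ∀ (P : Type) [Group P] (F : H →* P), Function.Surjective F → ∀ (N' : Subgroup P) [N'.Normal],
        (∀ n : H, (n : G) ∈ N → F n ∈ N') → C (P ⧸ N') := by
      intro P _ F hF N' _ hN'
      refine C_gen1 hC.base (QuotientGroup.mk (F ⟨g, hgH⟩)) ?_
      intro y
      obtain ⟨y, rfl⟩ := QuotientGroup.mk_surjective y
      obtain ⟨x, rfl⟩ := hF y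
      obtain ⟨n, hn, k, hk⟩ := hdec x
      have hx : x = (⟨n, hNH hn⟩ : H) * (⟨g, hgH⟩ : H) ^ k := Subtype.ext hk
      refine Subgroup.mem_zpowers_iff.2 ⟨k, ?_⟩
      rw [← QuotientGroup.mk_zpow, hx, map_mul, map_zpow, eq_comm, QuotientGroup.mk_mul,
        (QuotientGroup.eq_one_iff _).2 (hN' ⟨n, hNH hn⟩ hn), one_mul]
    refine Pool.Agent.N24.TR.tree_local hC hT (fun h u v huv => hact (h : G) u v huv) fun v => ?_
    obtain ⟨A, _, X, Ψ, hA, h1, h2, h3⟩ := h v
    obtain ⟨F, hF⟩ : ∃ F : H →* Wr X A, F = Ψ.comp H.subtype := ⟨_, rfl⟩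
    have hFΨ : ∀ x : H, F x = Ψ (x : G) := fun x => by rw [hF]; rfl
    -- the image
    obtain ⟨N₁, hN₁⟩ : ∃ N₁ : Subgroup H, N₁ = N.subgroupOf H := ⟨_, rfl⟩
    have hN₁n : N₁.Normal := by rw [hN₁]; infer_instance
    have hmem : ∀ x : H, x ∈ N₁ ↔ (x : G) ∈ N := fun x => by rw [hN₁]; rfl
    have hn2 : (N₁.map F.rangeRestrict).Normal := hN₁n.map _ F.rangeRestrict_surjective
    have hP : C F.range := by
      refine hFR C hC A hA X F.range (N₁.map F.rangeRestrict) F.range.subtype ?_ ?_ ?_ ?_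
      · exact hcyc F.range F.rangeRestrict F.rangeRestrict_surjective _ (fun n hn =>
          Subgroup.mem_map_of_mem _ ((hmem n).2 hn))
      · rintro _ ⟨n, hn, rfl⟩
        show (F n).p = 1
        rw [hFΨ]
        exact h1 _ ((hmem n).1 hn)
      · rintro _ ⟨n, hn, rfl⟩
        show (Set.range (F n).s).Finite
        rw [hFΨ]
        exact h2 _ ((hmem n).1 hn)
      · intro n _ hn
        exact Subtype.ext hn
    refine ⟨F.range × (H ⧸ N₁), inferInstance, F.rangeRestrict.prod (QuotientGroup.mk' N₁),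
      hC.base.prod _ _ hP (hcyc H (MonoidHom.id H) Function.surjective_id N₁
        (fun n hn => (hmem n).2 hn)), fun x hxv hx => ?_⟩
    have h4 : F x = 1 := congrArg Subtype.val (congrArg Prod.fst hx)
    have h5 : x ∈ N₁ := (QuotientGroup.eq_one_iff x).1 (congrArg Prod.snd hx)
    rw [hFΨ] at h4
    exact Subtype.ext (h3 (x : G) ((hmem x).1 h5) hxv h4)
  refine Pool.Agent.Y529.FJ.t_ext C hC G N ?_ hQ (fun g _ => key g)
  have h1 := key 1
  have h2 : N ⊔ Subgroup.zpowers (1 : G) = N := by
    rw [Subgroup.zpowers_one_eq_bot, sup_bot_eq]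
  rw [h2] at h1
  exact h1

end Pool.Agent.H73AR
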