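import Mathlib

/-!
# Irreducible parts without label `∞`: definition
-/

set_option autoImplicit false

namespace Pool.Agent.H73AR

/-- `T` is finite and nonempty, has no label `∞`, and is not the disjoint union of two nonempty parts
joined by labels `2` only -/
def Irr {B : Type} (M : CoxeterMatrix B) (T : Set B) : Prop :=
  T.Finite ∧ T.Nonempty ∧ (∀ x ∈ T, ∀ y ∈ T, M x y ≠ 0) ∧
    ∀ S ⊆ T, S.Nonempty → (∀ x ∈ S, ∀ y ∈ T, y ∉ S → M x y = 2) → S = T

end Pool.Agent.H73AR
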