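import Pool.Agent.H73AR.Fin2
import Pool.Agent.H73AR.Irr0

/-!
# Quotients of Artin groups by even powers of generators: irreducible parts
-/

set_option autoImplicit false

namespace Pool.Agent.H73AR

open Pool.Agent.Y110.FJ (ClosedE)
open Pool.Agent.Y462.SS (Closed Wr)

variable {C : ∀ (G : Type) [Group G], Prop}

section prod

variable {B : Type} (M : CoxeterMatrix B) {p : B → ℕ} (S : Set B)

theorem C_sprod_parts (hC : Closed C) (h : ∀ x y, x ∈ S → y ∉ S → M x y = 2)
    (h1 : C (Shp (rest M S) (resp p S))) (h2 : C (Shp (rest M Sᶜ) (resp p Sᶜ))) : C (Shp M p) := by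
  classical
  let F : B → Shp (rest M S) (resp p S) × Shp (rest M Sᶜ) (resp p Sᶜ) := fun b =>
    if hb : b ∈ S then (gen (rest M S) (resp p S) ⟨b, hb⟩, 1)
    else (1, gen (rest M Sᶜ) (resp p Sᶜ) ⟨b, hb⟩)
  have hF1 : ∀ b (hb : b ∈ S), F b = (gen (rest M S) (resp p S) ⟨b, hb⟩, 1) := fun b hb => dif_pos hb
  have hF2 : ∀ b (hb : b ∉ S), F b = (1, gen (rest M Sᶜ) (resp p Sᶜ) ⟨b, hb⟩) :=
    fun b hb => dif_neg hb
  have hrel : ∀ a b, M a b ≠ 0 → alt (F a) (F b) (M a b) = alt (F b) (F a) (M a b) := by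
    intro a b hab
    by_cases ha : a ∈ S
    · by_cases hb : b ∈ S
      · rw [hF1 a ha, hF1 b hb, alt_prod, alt_prod]
        have h3 := gen_rel (M := rest M S) (p := resp p S) (a := ⟨a, ha⟩) (b := ⟨b, hb⟩) hab
        exact Prod.ext h3 rfl
      · rw [hF1 a ha, hF2 b hb, h a b ha hb, alt_prod, alt_prod]
        simp [alt]
    · by_cases hb : b ∈ S
      · rw [hF2 a ha, hF1 b hb, M.symmetric, h b a hb ha, alt_prod, alt_prod]
        simp [alt]
      · rw [hF2 a ha, hF2 b hb, alt_prod, alt_prod]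
        have h3 := gen_rel (M := rest M Sᶜ) (p := resp p Sᶜ) (a := ⟨a, ha⟩) (b := ⟨b, hb⟩) hab
        exact Prod.ext rfl h3
  have hpow : ∀ b, F b ^ p b = 1 := by
    intro b
    by_cases hb : b ∈ S
    · rw [hF1 b hb, Prod.pow_mk, one_pow]
      exact Prod.ext (gen_pow (M := rest M S) (p := resp p S) ⟨b, hb⟩) rfl
    · rw [hF2 b hb, Prod.pow_mk, one_pow]
      exact Prod.ext rfl (gen_pow (M := rest M Sᶜ) (p := resp p Sᶜ) ⟨b, hb⟩)
  -- the images commute
  have hcomm : ∀ (u : Shp (rest M S) (resp p S)) (v : Shp (rest M Sᶜ) (resp p Sᶜ)),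
      Commute (sinc M p S u) (sinc M p Sᶜ v) := by
    have hgen : ∀ (s : S) (t : (Sᶜ : Set B)), Commute (gen M p s.1) (gen M p t.1) := by
      intro s t
      have h3 := h s.1 t.1 s.2 t.2
      have h4 := gen_rel (M := M) (p := p) (a := s.1) (b := t.1) (by rw [h3]; exact two_ne_zero)
      rw [h3] at h4
      have h5 : gen M p s.1 * gen M p t.1 = gen M p t.1 * gen M p s.1 := by simpa [alt] using h4
      exact h5
    have h5 : ∀ (s : S) (v : Shp (rest M Sᶜ) (resp p Sᶜ)), Commute (gen M p s.1) (sinc M p Sᶜ v) := by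
      intro s v
      induction v using sind with
      | one => rw [map_one]; exact Commute.one_right _
      | mul t x ih => rw [map_mul, sinc_gen]; exact (hgen s t).mul_right ih
      | inv_mul t x ih =>
        rw [map_mul, map_inv, sinc_gen]; exact ((hgen s t).inv_right).mul_right ih
    intro u v
    induction u using sind with
    | one => rw [map_one]; exact Commute.one_left _
    | mul s x ih => rw [map_mul, sinc_gen]; exact (h5 s v).mul_left ih
    | inv_mul s x ih => rw [map_mul, map_inv, sinc_gen]; exact ((h5 s v).inv_left).mul_left ih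
  let Φ : Shp (rest M S) (resp p S) × Shp (rest M Sᶜ) (resp p Sᶜ) →* Shp M p :=
    MonoidHom.noncommCoprod (sinc M p S) (sinc M p Sᶜ) hcomm
  have hΦ : ∀ u v, Φ (u, v) = sinc M p S u * sinc M p Sᶜ v := fun u v => rfl
  have hid : Φ.comp (slift F hrel hpow) = MonoidHom.id _ := by
    apply sext
    intro b
    rw [MonoidHom.comp_apply, slift_gen]
    by_cases hb : b ∈ S
    · rw [hF1 b hb, hΦ, sinc_gen, map_one, mul_one]
      rfl
    · rw [hF2 b hb, hΦ, sinc_gen, map_one, one_mul]
      rfl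
  refine hC.of_injective _ _ (slift F hrel hpow) ?_ (hC.prod _ _ h1 h2)
  intro x y hxy
  have h3 := congrArg Φ hxy
  have h4 : ∀ z, Φ (slift F hrel hpow z) = z := fun z => DFunLike.congr_fun hid z
  rwa [h4, h4] at h3

end prod

theorem C_irr (hC : Closed C) {B : Type} (M : CoxeterMatrix B) (p : B → ℕ)
    (h : ∀ T : Set B, Irr M T → C (Shp (rest M T) (resp p T))) (n : ℕ) :
    ∀ T : Set B, T.Finite → T.ncard = n → (∀ x ∈ T, ∀ y ∈ T, M x y ≠ 0) →
      C (Shp (rest M T) (resp p T)) := by
  induction n using Nat.strong_induction_on with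
  | _ n ih =>
    intro T hT hn hTM
    by_cases hI : Irr M T
    · exact h T hI
    by_cases hne : T.Nonempty
    · have h1 : ∃ S ⊆ T, S.Nonempty ∧ (∀ x ∈ S, ∀ y ∈ T, y ∉ S → M x y = 2) ∧ S ≠ T := by
        by_contra h2
        push Not at h2
        exact hI ⟨hT, hne, hTM, fun S hS hSne hS2 => h2 S hS hSne hS2⟩
      obtain ⟨S, hST, hSne, hS2, hne'⟩ := h1
      have hlt1 : S.ncard < n := by
        rw [← hn]
        exact Set.ncard_lt_ncard (hST.ssubset_of_ne hne') hT
      have hlt2 : (T \ S).ncard < n := by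
        rw [← hn]
        refine Set.ncard_lt_ncard ⟨Set.sdiff_subset, fun h3 => ?_⟩ hT
        obtain ⟨x, hx⟩ := hSne
        exact (h3 (hST hx)).2 hx
      refine C_sprod_parts (rest M T) (p := resp p T) {x : T | x.1 ∈ S} hC ?_ ?_ ?_
      · intro x y hx hy
        exact hS2 x.1 hx y.1 y.2 hy
      · refine C_sequiv (M' := rest M S) (p' := resp p S) hC
          ⟨fun x => ⟨x.1.1, x.2⟩, fun x => ⟨⟨x.1, hST x.2⟩, x.2⟩, fun _ => rfl, fun _ => rfl⟩
          (fun _ _ => rfl) (fun _ => rfl) ?_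
        exact ih _ hlt1 S (hT.subset hST) rfl (fun x hx y hy => hTM x (hST hx) y (hST hy))
      · refine C_sequiv (M' := rest M (T \ S)) (p' := resp p (T \ S)) hC
          ⟨fun x => ⟨x.1.1, x.1.2, x.2⟩, fun x => ⟨⟨x.1, x.2.1⟩, x.2.2⟩, fun _ => rfl, fun _ => rfl⟩
          (fun _ _ => rfl) (fun _ => rfl) ?_
        exact ih _ hlt2 (T \ S) (hT.subset Set.sdiff_subset) rfl
          (fun x hx y hy => hTM x hx.1 y hy.1)
    · rw [Set.not_nonempty_iff_eq_empty] at hne
      subst hne
      have : Subsingleton (Shp (rest M (∅ : Set B)) (resp p ∅)) := ⟨fun u v => by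
        have h : ∀ u : Shp (rest M (∅ : Set B)) (resp p ∅), u = 1 := by
          intro u
          induction u using sind with
          | one => rfl
          | mul b _ _ => exact b.2.elim
          | inv_mul b _ _ => exact b.2.elim
        rw [h u, h v]⟩
      exact Pool.Agent.Y812.SS.C_subsingleton hC _

/-! ## exponents `2`: Coxeter groups -/

theorem alt_invol {G : Type} [Group G] (n : ℕ) : ∀ {x y : G}, x * x = 1 → y * y = 1 →
    alt x y n * (alt y x n)⁻¹ = (x * y) ^ n := by
  induction n with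
  | zero => intro x y _ _; simp [alt]
  | succ n ih =>
    intro x y hx hy
    have hy' : y⁻¹ = y := inv_eq_of_mul_eq_one_left hy
    show x * alt y x n * (y * alt x y n)⁻¹ = _
    rw [mul_inv_rev, hy', ← mul_assoc, mul_assoc x, ih hy hx, conj_pow', pow_succ]
    rw [mul_assoc]

theorem C_cox (hC : Closed C) {B : Type} (M : CoxeterMatrix B) (p : B → ℕ) (hp : ∀ b, p b = 2)
    (h : C M.Group) : C (Shp M p) := by
  have hA : Adm M p := ⟨fun b => by rw [hp]; exact even_two, fun a b _ => by rw [hp, hp]⟩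
  have hsq : ∀ b, gen M p b * gen M p b = 1 := by
    intro b
    have := gen_pow (M := M) (p := p) b
    rwa [hp, pow_two] at this
  have hl : M.IsLiftable (gen M p) := by
    intro a b
    rcases eq_or_ne (M a b) 0 with h0 | h0
    · rw [h0, pow_zero]
    · rw [← alt_invol _ (hsq a) (hsq b), gen_rel h0, mul_inv_cancel]
  refine hC.of_injective _ _ (stoW M hA) ?_ h
  have hid : (M.toCoxeterSystem.lift ⟨gen M p, hl⟩).comp (stoW M hA) = MonoidHom.id _ := by
    apply sext
    intro b
    rw [MonoidHom.comp_apply, stoW_gen, CoxeterSystem.lift_apply_simple]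
    rfl
  intro x y hxy
  have h3 := congrArg (M.toCoxeterSystem.lift ⟨gen M p, hl⟩) hxy
  have h4 : ∀ z, (M.toCoxeterSystem.lift ⟨gen M p, hl⟩) (stoW M hA z) = z :=
    fun z => DFunLike.congr_fun hid z
  rwa [h4, h4] at h3

/-! ## small parts -/

theorem C_cyc (hC : Closed C) {B : Type} (M : CoxeterMatrix B) (p : B → ℕ) (b : B)
    (hb : ∀ x, x = b) : C (Shp M p) := by
  rcases eq_or_ne (p b) 0 with h0 | h0
  · exact C_zero hC M p (fun x => by rw [hb x, h0]) (C_one hC M b hb)
  · have h1 : ∀ x : Shp M p, x ∈ Subgroup.zpowers (gen M p b) := by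
      intro x
      induction x using sind with
      | one => exact one_mem _
      | mul c x ih =>
        rw [hb c]
        exact mul_mem (Subgroup.mem_zpowers _) ih
      | inv_mul c x ih =>
        rw [hb c]
        exact mul_mem (inv_mem (Subgroup.mem_zpowers _)) ih
    have hfin : IsOfFinOrder (gen M p b) :=
      isOfFinOrder_iff_pow_eq_one.2 ⟨p b, Nat.pos_of_ne_zero h0, gen_pow b⟩
    have h2 : ((Subgroup.zpowers (gen M p b) : Subgroup (Shp M p)) : Set (Shp M p)).Finite :=
      finite_zpowers.2 hfin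
    have h3 : (Set.univ : Set (Shp M p)).Finite := h2.subset (fun x _ => h1 x)
    have : Finite (Shp M p) := Set.finite_univ_iff.1 h3
    exact Pool.Agent.Y812.SS.C_finite hC _

/-- the parts which are in the class by the closure properties -/
theorem C_small (hC : Closed C) (hcox : ∀ (S : Type) (_ : Finite S) (A : CoxeterMatrix S), C A.Group)
    {B : Type} (M : CoxeterMatrix B) (p : B → ℕ) (T : Set B) (hT : T.Finite)
    (hTM : ∀ x ∈ T, ∀ y ∈ T, M x y ≠ 0)
    (h : T.ncard ≤ 1 ∨ (∀ t ∈ T, p t = 2) ∨ (T.ncard = 2 ∧ ∀ t ∈ T, p t = 0)) :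
    C (Shp (rest M T) (resp p T)) := by
  have hTf : Finite T := hT
  rcases h with h | h | ⟨h, h0⟩
  · rcases Nat.le_one_iff_eq_zero_or_eq_one.1 h with h | h
    · rw [Set.ncard_eq_zero hT] at h
      subst h
      have : Subsingleton (Shp (rest M (∅ : Set B)) (resp p ∅)) := ⟨fun u v => by
        have h : ∀ u : Shp (rest M (∅ : Set B)) (resp p ∅), u = 1 := by
          intro u
          induction u using sind with
          | one => rfl
          | mul b _ _ => exact b.2.elim
          | inv_mul b _ _ => exact b.2.elim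
        rw [h u, h v]⟩
      exact Pool.Agent.Y812.SS.C_subsingleton hC _
    · obtain ⟨b, rfl⟩ := Set.ncard_eq_one.1 h
      exact C_cyc hC _ _ ⟨b, rfl⟩ (by rintro ⟨x, hx⟩; exact Subtype.ext hx)
  · exact C_cox hC _ _ (fun b => h b.1 b.2) (hcox T hTf _)
  · obtain ⟨a, b, hab, rfl⟩ := Set.ncard_eq_two.1 h
    refine C_zero hC _ _ (fun b => h0 b.1 b.2) ?_
    refine C_two (a := ⟨a, Set.mem_insert _ _⟩) (b := ⟨b, Set.mem_insert_of_mem _ rfl⟩) hC
      (fun h => hab (congrArg Subtype.val h)) ?_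
      (hTM a (Set.mem_insert _ _) b (Set.mem_insert_of_mem _ rfl))
    rintro ⟨u, hu⟩
    rcases hu with rfl | hu
    · exact Or.inl rfl
    · exact Or.inr (Subtype.ext hu)

end Pool.Agent.H73AR
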