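import Pool.Agent.Y110.FJ.Stm
import Pool.Agent.R676.Cox.Root

/-!
# Artin groups and the Farrell–Jones conjecture: definitions and statements of the parts

Owner helper73.  `C` is any class of groups with `ClosedE C`.

Theorem: an Artin group of any rank is in `C` if its finite parabolic parts without label `∞` are (and the
Coxeter groups of finite rank); the same holds for extensions with such a kernel, where the other
factor permutes the standard generators.
-/

set_option autoImplicit false

namespace Pool.Agent.H73AR

open Pool.Agent.Y110.FJ (ClosedE)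
open Pool.Agent.Y462.SS (Closed Wr)

/-- the alternating product `x y x ⋯` with `n` factors -/
def alt {G : Type} [Mul G] [One G] (x y : G) : ℕ → G
  | 0 => 1
  | n + 1 => x * alt y x n

section art

variable {B : Type} (M : CoxeterMatrix B)

/-- the braid relations -/
def braidRel : Set (FreeGroup B) :=
  {r | ∃ a b : B, M a b ≠ 0 ∧ r = alt (FreeGroup.of a) (FreeGroup.of b) (M a b) *
    (alt (FreeGroup.of b) (FreeGroup.of a) (M a b))⁻¹}

/-- the Artin group of the Coxeter matrix `M` (the entry `0` stands for `∞`) -/
abbrev Art : Type := PresentedGroup (braidRel M)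

/-- the standard generators -/
def sig (b : B) : Art M := PresentedGroup.of b

/-- the restriction of a Coxeter matrix -/
def rest (T : Set B) : CoxeterMatrix T where
  M := Matrix.of fun x y => M x.1 y.1
  isSymm := by
    ext x y
    exact M.symmetric y.1 x.1
  diagonal x := M.diagonal x.1
  off_diagonal x y h := M.off_diagonal x.1 y.1 (fun h1 => h (Subtype.ext h1))

@[simp] theorem rest_apply (T : Set B) (x y : T) : rest M T x y = M x.1 y.1 := rfl

end art

/-- (CP) the theorem of Charney and Paris in the form of a homomorphism to a wreath product;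
`X = W ⧸ W_T` (`W = M.Group`, `W_T` the closure of the simple `t`, `t ∈ T`; `ρ` = left multiplication,
`x0 = W_T`), the generator `b` acts on `X` by left multiplication with `s_b`, with section
`o b x = σ_t` at `x` if `v α_t = α_b` for the shortest element `v` of the coset `x`, and `o b x = 1` otherwise.
(`Ψ` comes from `PresentedGroup.toGroup`; one must check the braid relations in `Wr X (Art (rest M T))`;
recall `(f * g).s x = f.s (g.p x) * g.s x`.)

Sketch. Notation of `R676/Cox/Root.lean`: `geo cs w (ee i)` is `w α_i`; `PR.eq_ee`, `geo_nonneg_iff`, ...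
`v` is called minimal if `0 ≤ v α_t` for all `t ∈ T`. Each coset has exactly one minimal element (shortest
elements are minimal; if `v`, `v κ` are minimal with `1 ≠ κ ∈ W_T` take `t` with `κ α_t ≤ 0`, supported in `T`
(`N77/CX/Par.lean`: `Jm_geo`, `W_T` is the image of the Coxeter group of `rest M T`), so `v κ α_t ≤ 0`).
If `v` is minimal and `s_b v` is not, there is a unique `t ∈ T` with `v α_t = α_b` (`PR.eq_ee`).
Braid relation for `a ≠ b`, `m = M a b ≠ 0`, at the coset `x`: the permutation parts agree as `(s_a s_b)^m = 1`.
Let `D = ⟨s_a, s_b⟩`; choose `d ∈ D` and `v` with `x = d v W_T` and `v` of minimal length. Then `v` is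
minimal and `v⁻¹ α_a, v⁻¹ α_b ≥ 0`. (1) If `v α_t ∈ span(α_a, α_b)`, `t ∈ T`, then `v α_t ∈ {α_a, α_b}`:
`v α_t = p α_a + q α_b`, `p, q ≥ 0`, so `α_t = p v⁻¹α_a + q v⁻¹α_b`; if `p > 0` then `v⁻¹ α_a` is supported at `t`, so it
is `α_t`; same for `q`. (2) If `v α_t ∉ span(α_a, α_b)` then `d v α_t ≥ 0` for all `d ∈ D` (a coordinate outside
`{a, b}` is positive and is not changed by `D`).
Case A: no `t ∈ T` with `v α_t ∈ {α_a, α_b}`. Then all `d v` are minimal and all sections along both words
are `1`. Case B: `v α_t = α_a`, `v α_t' = α_b`: then `D v W_T = v W_T`, the sections along the words are alternately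
`σ_t`, `σ_t'`, and `M t t' = M a b` (the form `bil` is invariant: `cc` determines the label; or use orders),
so the relation is the braid relation of `σ_t, σ_t'`. Case C: `v α_t = α_a` and no `t'` with `v α_t' = α_b`
(or the same with `a`, `b` exchanged). For `c ∈ {a, b}` and `d ∈ D`: `o c (d v W_T) = σ_t` if `d α_a ∈ {α_c, -α_c}`
and `1` otherwise (if `d α_a ≥ 0` then `d v` is minimal; if `d α_a ≤ 0` then `d s_a v = d v s_t` is minimal and in
the same coset). Let `γ_i = qs(i+1) α_a + qs(i) α_b`, `0 ≤ i < m` (`prod_alt_ee`: these are the roots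
`(s_a s_b ⋯)(α_·)` with `i` reflections, `γ_0 = α_a`, `γ_(m-1) = α_b`, `qs(m-k) = qs(k)`). The word whose FIRST applied
(= rightmost) letter is `a` applied at `x` has section `σ_t` at step `i` iff `d α_a = ± γ_i`, the word
with first applied letter `b` has section `σ_t` at step `i` iff `d α_a = ± γ_(m-1-i)`. As `{±γ_i}` is `D`-invariant
and the `γ_i` are distinct positive roots, exactly one `i` occurs, and both products are `σ_t`. -/
def S_CP : Prop := ∀ (B : Type) (M : CoxeterMatrix B) (T : Set B),
  ∃ (X : Type) (x0 : X) (Ψ : Art M →* Wr X (Art (rest M T))) (ρ : M.Group →* Equiv.Perm X),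
    (∀ t : T, (Ψ (sig M t)).p x0 = x0 ∧ (Ψ (sig M t)).s x0 = sig (rest M T) t) ∧
    (∀ (b : B) (x : X), (Ψ (sig M b)).s x = 1 ∨ ∃ t : T, (Ψ (sig M b)).s x = sig (rest M T) t) ∧
    (∀ b : B, (Ψ (sig M b)).p = ρ (M.toCoxeterSystem.simple b))

/-- (FV) groups of sections of finite range over the translations of `ℤ`.

Sketch. It suffices to treat the full group `G` = all elements of `Wr ℤ A` with finite range whose
permutation is a translation (`hC.base.of_injective`). `G = N ⟨σ⟩`, `N` = elements with `p = 1`, `σ` = the shift
by `1` with trivial sections. By `Pool.Agent.R779.FJ` / `Q30.FJ.col : S_COL` it suffices that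
`Realized C σ E` for all finite `E ⊆ N`. Choose `c : ℤ → K`, `K` finite (e.g. the tuple of the values of the
elements of `E`), so that all `e ∈ E` are `e n = ē (c n)`. There are `L < L' ` and `R' < R`, ... with
`c L = c L₂`, `c R = c R₂` (pigeonhole) such that every pair `(c n, c (n+1))`, `n ∈ ℤ`, occurs for some `n` in
`[L, R]`; let `r : ℤ → ℤ` be the identity on `[L, R]`, periodic on `n ≥ R` with values in `[R, R₂)` and
periodic on `n ≤ L` with values in `(L₂, L]`, and `γ = c ∘ r`. Then the pairs `(γ n, γ (n+1))` are the same as the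
pairs `(c n, c (n+1))`, and `γ` is eventually periodic on both sides with a common period `k`. The map
`x̄(c(n-1), c n) ↦ x̄(γ(n-1), γ n)` embeds the closure of `E ∪ σ E σ⁻¹` in the group `P` of the elements of `Wr ℤ A`
whose permutation is a translation and whose sections are periodic with period `k` for `n ≥ l` and for
`n ≤ -l`, some `l`, and conjugation by `σ` is realized by `σ ∈ P`. `P ∈ C`: by `Pool.Agent.N24.FV.fs` applied to the
normal subgroup of the elements with `p = 1` and finitely supported sections; the quotient embeds in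
`Wr (ZMod k) A × Wr (ZMod k) A × ℤ` by the two periodic ends and the translation
(`Pool.Agent.Y812.SS.t_wr` for finite wreath products). -/
def S_FV : Prop := ∀ C : ∀ (G : Type) [Group G], Prop, ClosedE C →
  ∀ (A : Type) [Group A], C A → ∀ (G : Type) [Group G] (Ψ : G →* Wr ℤ A), Function.Injective Ψ →
    (∀ g : G, ∃ k : ℤ, ∀ n : ℤ, (Ψ g).p n = n + k) → (∀ g : G, (Set.range (Ψ g).s).Finite) → C G

/-- (EP) a finite part of an automorphism `m` of a Coxeter matrix extends to an automorphism `τ` of a finite
Coxeter matrix `M'` such that every subset of `M'` without label `∞` embeds in `M`.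

Sketch. Let `J₁ = J ∪ m '' J`, `V = ⋃ m^j J₁` (`j ∈ ℤ`). Let `N₀ > 0` be a multiple of the periods of the
`m`-periodic elements of `J₁`, and let `n` be a large multiple of `N₀`. `T` = the set of the classes of `V` modulo
`m^n` (finite), `ι x` = the class of `x` (junk outside `V`; if `V` is empty `J` is empty), `τ [x] = [m x]`.
Call `(x, y)` close if `m^j x, m^j y ∈ J₁` for some `j ∈ ℤ`. `M' X Y = M x y` if there is a close pair
`x ∈ X`, `y ∈ Y`, and `M' X Y = 0` otherwise. For `x ∈ V` not periodic write `x = m^(pos x) r`, `r` in a set of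
representatives in `J₁` of the orbits; `|pos| ≤ D` on `J₁`, so `|pos x - pos y| ≤ 2 D` for close pairs; take
`n > 6 D`. Well defined: two close pairs in `X × Y` differ by a power of `m^n` (if `x` is periodic then
`m^n x = x`; if both are not periodic then `x' = m^(n k) x`, `y' = m^(n l) y` and closeness forces `k = l`).
A set `K` without label `∞`: if all classes are periodic take their elements; otherwise fix `x₀ ∈ X₀ ∈ K` not
periodic and for `Y ∈ K` choose `y ∈ Y` close to `x₀`; all chosen nonperiodic elements have `|pos y - pos y'| ≤ 4 D`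
and this gives `M y y' = M' Y Y'`. (Any other construction is fine, e.g. `T = P ⊕ R × ZMod n`.) -/
def S_EP : Prop := ∀ (B : Type) (M : CoxeterMatrix B) (m : Equiv.Perm B),
  (∀ x y, M (m x) (m y) = M x y) → ∀ J : Set B, J.Finite →
  ∃ (T : Type) (_ : Finite T) (M' : CoxeterMatrix T) (ι : B → T) (τ : Equiv.Perm T),
    Set.InjOn ι (J ∪ m '' J) ∧
    (∀ x ∈ J ∪ m '' J, ∀ y ∈ J ∪ m '' J, M' (ι x) (ι y) = M x y) ∧
    (∀ x y, M' (τ x) (τ y) = M' x y) ∧
    (∀ x ∈ J, τ (ι x) = ι (m x)) ∧
    (∀ K : Set T, (∀ x ∈ K, ∀ y ∈ K, M' x y ≠ 0) →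
      ∃ φ : K → B, Function.Injective φ ∧ ∀ x y : K, M (φ x) (φ y) = M' x y)

end Pool.Agent.H73AR
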