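import Pool.Agent.H73AR.Art
import Pool.Agent.N24.TR.Tree
import Pool.Agent.N510.PA.Star
import Pool.Agent.Y529.FJ.Ext
import Pool.Agent.Y812.SS.Wr

/-!
# Artin groups of finite rank: reduction to the parts without label `∞`
-/

set_option autoImplicit false

namespace Pool.Agent.H73AR

open Pool.Agent.Y110.FJ (ClosedE)
open Pool.Agent.Y462.SS (Closed Wr)
open Pool.Agent.N510.PA (IsSP)
open Pool.Agent.N510.PA.Star (TT va vb smul_va smul_vb va_eq vb_eq isTree TT_smul VV)

/-! ## homomorphisms to wreath products -/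

section wr

variable {X A H : Type} [Group A] [Group H]

theorem wr_inv_fix {F : Wr X A} {x : X} (h : F.p x = x) : (F⁻¹).p x = x ∧ (F⁻¹).s x = (F.s x)⁻¹ := by
  have h1 : F.p⁻¹ x = x := by
    rw [Equiv.Perm.inv_eq_iff_eq]
    exact h.symm
  refine ⟨by rw [Wr.inv_p]; exact h1, by rw [Wr.inv_s, h1]⟩

/-- the restriction of a wreath recursion to an invariant subset, transported to another set -/
def wres (Φ : H →* Wr X A) {Y : Type} (O : Set X) (e : O ≃ Y) (hO : ∀ h : H, ∀ x ∈ O, (Φ h).p x ∈ O) :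
    H →* Wr Y A where
  toFun h := ⟨fun y => (Φ h).s (e.symm y), e.permCongr
    ((Φ h).p.subtypePerm (fun x => ⟨fun hx => by
      have h1 := hO h⁻¹ _ hx
      have h2 : ((Φ h)⁻¹).p ((Φ h).p x) = x := Equiv.symm_apply_apply _ _
      rwa [map_inv, h2] at h1, fun hx => hO h x hx⟩))⟩
  map_one' := by
    ext y
    · show (Φ 1).s _ = 1
      rw [map_one]; rfl
    · rw [Equiv.permCongr_apply]
      show e _ = y
      rw [← e.eq_symm_apply]
      apply Subtype.ext
      show (Φ 1).p _ = _
      rw [map_one]; rfl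
  map_mul' g h := by
    ext y
    · show (Φ (g * h)).s (e.symm y) = (Φ g).s (e.symm (e _)) * (Φ h).s (e.symm y)
      rw [map_mul, Wr.mul_s, e.symm_apply_apply]
      rfl
    · rw [Equiv.permCongr_apply]
      show e _ = e _
      congr 1
      apply Subtype.ext
      show (Φ (g * h)).p _ = (Φ g).p (e.symm (e _) : O)
      rw [e.symm_apply_apply, map_mul]
      rfl

theorem wres_s (Φ : H →* Wr X A) {Y : Type} (O : Set X) (e : O ≃ Y)
    (hO : ∀ h : H, ∀ x ∈ O, (Φ h).p x ∈ O) (h : H) (y : Y) :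
    (wres Φ O e hO h).s y = (Φ h).s (e.symm y) := rfl

theorem wres_p (Φ : H →* Wr X A) {Y : Type} (O : Set X) (e : O ≃ Y)
    (hO : ∀ h : H, ∀ x ∈ O, (Φ h).p x ∈ O) (h : H) (y : Y) :
    ((e.symm ((wres Φ O e hO h).p y) : O) : X) = (Φ h).p (e.symm y) := by
  show ((e.symm (e _) : O) : X) = _
  rw [e.symm_apply_apply]
  rfl

end wr

section orb

variable {C : ∀ (G : Type) [Group G], Prop} {X A H : Type} [Group A] [Group H]

/-- a homomorphism to a wreath product whose permutations are the powers of one permutation -/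
theorem orbit_hom (hFV : S_FV) (hC : ClosedE C) (hA : C A) (Φ : H →* Wr X A) (π : Equiv.Perm X)
    (hπ : ∀ h : H, ∃ k : ℤ, (Φ h).p = π ^ k) (hfin : ∀ h : H, (Set.range (Φ h).s).Finite) (x : X) :
    ∃ (P : Type) (_ : Group P) (f : H →* P), C P ∧
      ∀ h : H, (Φ h).p x = x → f h = 1 → (Φ h).s x = 1 := by
  classical
  obtain ⟨O, hO⟩ : ∃ O : Set X, O = Set.range (fun k : ℤ => (π ^ k) x) := ⟨_, rfl⟩
  have hx : x ∈ O := by
    rw [hO]
    exact ⟨0, by simp⟩
  have hinv : ∀ h : H, ∀ y ∈ O, (Φ h).p y ∈ O := by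
    intro h y hy
    rw [hO] at hy ⊢
    obtain ⟨k, rfl⟩ := hy
    obtain ⟨l, hl⟩ := hπ h
    refine ⟨l + k, ?_⟩
    show (π ^ (l + k)) x = (Φ h).p ((π ^ k) x)
    rw [hl, zpow_add]
    rfl
  by_cases hfO : O.Finite
  · have : Finite O := hfO
    refine ⟨Wr O A, inferInstance, wres Φ O (Equiv.refl _) hinv,
      Pool.Agent.Y812.SS.t_wr C hC.base O A inferInstance hA, fun h _ h2 => ?_⟩
    have h3 := congrFun (congrArg Wr.s h2) ⟨x, hx⟩
    exact h3
  · -- the orbit is infinite
    have hinj : Function.Injective (fun k : ℤ => (π ^ k) x) := by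
      intro k l hkl
      by_contra hne
      apply hfO
      -- a positive period
      obtain ⟨d, hd, hdx⟩ : ∃ d : ℕ, 0 < d ∧ (π ^ d) x = x := by
        have key : ∀ k l : ℤ, k < l → (π ^ k) x = (π ^ l) x → ∃ d : ℕ, 0 < d ∧ (π ^ d) x = x := by
          intro k l hkl h
          refine ⟨(l - k).toNat, by omega, ?_⟩
          have h1 : ((l - k).toNat : ℤ) = l - k := Int.toNat_of_nonneg (by omega)
          rw [← zpow_natCast, h1, sub_eq_neg_add, zpow_add, Equiv.Perm.mul_apply, ← h, ← Equiv.Perm.mul_apply,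
            ← zpow_add, neg_add_cancel, zpow_zero]
          rfl
        rcases lt_or_gt_of_ne hne with h | h
        · exact key k l h hkl
        · exact key l k h hkl.symm
      rw [hO]
      refine ((Finset.range d).finite_toSet.image (fun k : ℕ => (π ^ k) x)).subset ?_
      rintro _ ⟨k, rfl⟩
      refine ⟨(k % d).toNat, ?_, ?_⟩
      · have h1 := Int.emod_lt_of_pos k (by exact_mod_cast hd : (0 : ℤ) < d)
        have h2 := Int.emod_nonneg k (by omega : (d : ℤ) ≠ 0)
        simp only [Finset.coe_range, Set.mem_Iio]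
        omega
      · have h2 := Int.emod_nonneg k (by omega : (d : ℤ) ≠ 0)
        have h3 : ((k % d).toNat : ℤ) = k % d := Int.toNat_of_nonneg h2
        show (π ^ (k % d).toNat) x = (π ^ k) x
        rw [← zpow_natCast, h3]
        have h4 : k = k % d + d * (k / d) := (Int.emod_add_mul_ediv k d).symm
        conv_rhs => rw [h4, zpow_add, zpow_mul, zpow_natCast]
        rw [Equiv.Perm.mul_apply]
        congr 1
        have h5 : ∀ j : ℤ, ((π ^ d) ^ j) x = x := by
          intro j
          have h6 : (π ^ d) ∈ MulAction.stabilizer (Equiv.Perm X) x := hdx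
          exact zpow_mem h6 j
        exact (h5 _).symm
    let e : O ≃ ℤ := ((Equiv.ofInjective _ hinj).trans (Equiv.setCongr hO.symm)).symm
    have he : ∀ k : ℤ, ((e.symm k : O) : X) = (π ^ k) x := fun k => rfl
    obtain ⟨Φ', hΦ'⟩ : ∃ Φ' : H →* Wr ℤ A, Φ' = wres Φ O e hinv := ⟨_, rfl⟩
    refine ⟨Φ'.range, inferInstance, Φ'.rangeRestrict, ?_, ?_⟩
    · refine hFV C hC A hA Φ'.range Φ'.range.subtype Subtype.val_injective ?_ ?_
      · rintro ⟨_, h, rfl⟩
        obtain ⟨l, hl⟩ := hπ h
        refine ⟨l, fun n => ?_⟩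
        show (Φ' h).p n = n + l
        apply e.symm.injective
        apply Subtype.ext
        rw [hΦ', wres_p, he, he, hl, add_comm, zpow_add]
        rfl
      · rintro ⟨_, h, rfl⟩
        refine (hfin h).subset ?_
        rintro _ ⟨n, rfl⟩
        show (Φ' h).s n ∈ _
        rw [hΦ', wres_s]
        exact ⟨_, rfl⟩
    · intro h _ h2
      have h3 : Φ' h = 1 := congrArg Subtype.val h2
      have h4 := congrFun (congrArg Wr.s h3) 0
      rw [hΦ', wres_s, he, zpow_zero] at h4
      exact h4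

end orb

/-! ## the homomorphism of Charney and Paris -/

section cp

variable {B X : Type} {M : CoxeterMatrix B} {T : Set B} {x0 : X} {Ψ : Art M →* Wr X (Art (rest M T))}

theorem cp_inc (h1 : ∀ t : T, (Ψ (sig M t)).p x0 = x0 ∧ (Ψ (sig M t)).s x0 = sig (rest M T) t)
    (u : Art (rest M T)) : (Ψ (inc M T u)).p x0 = x0 ∧ (Ψ (inc M T u)).s x0 = u := by
  induction u using aind with
  | one =>
    rw [map_one, map_one]
    exact ⟨rfl, rfl⟩
  | mul t x ih =>
    rw [map_mul, map_mul, inc_sig, Wr.mul_s, Wr.mul_p, Equiv.Perm.mul_apply, ih.1, ih.2, (h1 t).1,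
      (h1 t).2]
    exact ⟨rfl, rfl⟩
  | inv_mul t x ih =>
    have h2 := wr_inv_fix (h1 t).1
    rw [map_mul, map_mul, map_inv, map_inv, inc_sig, Wr.mul_s, Wr.mul_p, Equiv.Perm.mul_apply, ih.1,
      ih.2, h2.1, h2.2, (h1 t).2]
    exact ⟨rfl, rfl⟩

/-- van der Lek's theorem -/
theorem inc_injective (hCP : S_CP) (M : CoxeterMatrix B) (T : Set B) :
    Function.Injective (inc M T) := by
  obtain ⟨X, x0, Ψ, ρ, h1, -, -⟩ := hCP B M T
  intro u v huv
  rw [← (cp_inc h1 u).2, ← (cp_inc h1 v).2, huv]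

theorem cp_detect (h1 : ∀ t : T, (Ψ (sig M t)).p x0 = x0 ∧ (Ψ (sig M t)).s x0 = sig (rest M T) t)
    (z h : Art M) (u : Art (rest M T)) (hu : inc M T u = z⁻¹ * h * z) :
    (Ψ h).p ((Ψ z).p x0) = (Ψ z).p x0 ∧ ((Ψ h).s ((Ψ z).p x0) = 1 → h = 1) := by
  have h2 : Ψ h * Ψ z = Ψ z * Ψ (inc M T u) := by
    rw [← map_mul, ← map_mul, hu]
    congr 1
    group
  have h3 := congrArg (fun F => F.p x0) h2
  have h4 := congrFun (congrArg Wr.s h2) x0
  have h5 := cp_inc h1 u
  rw [Wr.mul_s, Wr.mul_s, h5.1, h5.2] at h4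
  refine ⟨?_, fun h6 => ?_⟩
  · have h7 : (Ψ h).p ((Ψ z).p x0) = (Ψ z).p ((Ψ (inc M T u)).p x0) := h3
    rw [h7, h5.1]
  · rw [h6, one_mul] at h4
    have h7 : u = 1 := by
      have := h4.symm
      rwa [mul_eq_left] at this
    rw [h7, map_one] at hu
    have h8 : h = z * (z⁻¹ * h * z) * z⁻¹ := by group
    rw [h8, ← hu, mul_one, mul_inv_cancel]

theorem cp_range [Finite B]
    (h2 : ∀ (b : B) (x : X), (Ψ (sig M b)).s x = 1 ∨ ∃ t : T, (Ψ (sig M b)).s x = sig (rest M T) t)
    (h : Art M) : (Set.range (Ψ h).s).Finite := by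
  classical
  have hgen : ∀ b, (Set.range (Ψ (sig M b)).s).Finite := by
    intro b
    refine ((Set.finite_range (sig (rest M T))).insert 1).subset ?_
    rintro _ ⟨x, rfl⟩
    rcases h2 b x with h | ⟨t, h⟩
    · rw [h]; exact Or.inl rfl
    · rw [h]; exact Or.inr ⟨t, rfl⟩
  induction h using aind with
  | one =>
    rw [map_one]
    refine (Set.finite_singleton (1 : Art (rest M T))).subset ?_
    rintro _ ⟨x, rfl⟩
    rfl
  | mul b x ih =>
    refine ((hgen b).mul ih).subset ?_
    rintro _ ⟨y, rfl⟩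
    rw [map_mul, Wr.mul_s]
    exact Set.mul_mem_mul ⟨_, rfl⟩ ⟨_, rfl⟩
  | inv_mul b x ih =>
    refine ((hgen b).inv.mul ih).subset ?_
    rintro _ ⟨y, rfl⟩
    rw [map_mul, Wr.mul_s, map_inv, Wr.inv_s]
    exact Set.mul_mem_mul (Set.inv_mem_inv.2 ⟨_, rfl⟩) ⟨_, rfl⟩

theorem cp_perm {ρ : M.Group →* Equiv.Perm X}
    (h3 : ∀ b : B, (Ψ (sig M b)).p = ρ (M.toCoxeterSystem.simple b)) (h : Art M) :
    (Ψ h).p = ρ (toW M h) := by
  let pr : Wr X (Art (rest M T)) →* Equiv.Perm X :=
    { toFun := fun F => F.p, map_one' := rfl, map_mul' := fun _ _ => rfl }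
  have h4 : pr.comp Ψ = ρ.comp (toW M) := by
    apply aext
    intro b
    show (Ψ (sig M b)).p = ρ (toW M (sig M b))
    rw [h3, toW_sig]
  exact DFunLike.congr_fun h4 h

end cp

/-! ## the amalgamated product -/

section amalg

variable {B : Type} (M : CoxeterMatrix B) (a0 b0 : B)

/-- all generators except one -/
def co (c : B) : Set B := {x | x ≠ c}

/-- all generators except two -/
def co2 : Set B := {x | x ≠ a0 ∧ x ≠ b0}

theorem mem_co1 {a0 b0 : B} (x : co2 a0 b0) : x.1 ∈ co a0 := x.2.1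

theorem mem_co2 {a0 b0 : B} (x : co2 a0 b0) : x.1 ∈ co b0 := x.2.2

/-- the inclusions of the amalgamated part -/
def ik : Art (rest M (co2 a0 b0)) →* Art (rest M (co a0)) :=
  amap (fun x : co2 a0 b0 => (⟨x.1, mem_co1 x⟩ : co a0)) (fun _ _ => rfl)

theorem ik_sig (x : co2 a0 b0) : ik M a0 b0 (sig _ x) = sig _ ⟨x.1, mem_co1 x⟩ := amap_sig _ _ x

/-- the inclusions of the amalgamated part -/
def il : Art (rest M (co2 a0 b0)) →* Art (rest M (co b0)) :=
  amap (fun x : co2 a0 b0 => (⟨x.1, mem_co2 x⟩ : co b0)) (fun _ _ => rfl)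

theorem il_sig (x : co2 a0 b0) : il M a0 b0 (sig _ x) = sig _ ⟨x.1, mem_co2 x⟩ := amap_sig _ _ x

theorem isSP (hab : a0 ≠ b0) (h0 : M a0 b0 = 0) :
    IsSP (J := Unit) (L := fun _ => Art (rest M (co b0))) (E := fun _ => Art (rest M (co2 a0 b0)))
      (fun _ => ik M a0 b0) (fun _ => il M a0 b0) (inc M (co a0)) (fun _ => inc M (co b0)) := by
  classical
  refine ⟨?_, ?_, ?_⟩
  · intro _ e
    have h1 : (inc M (co a0)).comp (ik M a0 b0) = (inc M (co b0)).comp (il M a0 b0) := by
      apply aext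
      intro x
      rw [MonoidHom.comp_apply, MonoidHom.comp_apply, ik_sig, il_sig, inc_sig, inc_sig]
    exact DFunLike.congr_fun h1 e
  · rw [eq_top_iff, ← aclosure, Subgroup.closure_le]
    rintro _ ⟨c, rfl⟩
    apply Subgroup.subset_closure
    by_cases hc : c = a0
    · right
      rw [Set.mem_iUnion]
      exact ⟨(), sig _ ⟨c, fun h => hab (hc.symm.trans h)⟩, inc_sig _ _ _⟩
    · left
      exact ⟨sig _ ⟨c, hc⟩, inc_sig _ _ _⟩
  · intro H _ f g hfg
    have hcompat : ∀ c (h1 : c ≠ a0) (h2 : c ≠ b0),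
        f (sig (rest M (co a0)) ⟨c, h1⟩) = g () (sig (rest M (co b0)) ⟨c, h2⟩) := by
      intro c h1 h2
      have h3 := hfg () (sig _ ⟨c, h1, h2⟩)
      rw [ik_sig, il_sig] at h3
      exact h3
    let F : B → H := fun c => if h : c ≠ a0 then f (sig (rest M (co a0)) ⟨c, h⟩)
      else if h' : c ≠ b0 then g () (sig (rest M (co b0)) ⟨c, h'⟩) else 1
    have hF1 : ∀ c (h : c ≠ a0), F c = f (sig (rest M (co a0)) ⟨c, h⟩) := fun c h => dif_pos h
    have hF2 : ∀ c (h : c ≠ b0), F c = g () (sig (rest M (co b0)) ⟨c, h⟩) := by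
      intro c h
      by_cases h' : c ≠ a0
      · rw [hF1 c h', hcompat c h' h]
      · show (if h : c ≠ a0 then _ else _) = _
        rw [dif_neg h', dif_pos h]
    have hrel : ∀ c d, M c d ≠ 0 → alt (F c) (F d) (M c d) = alt (F d) (F c) (M c d) := by
      intro c d hcd
      by_cases h1 : c ≠ a0 ∧ d ≠ a0
      · rw [hF1 c h1.1, hF1 d h1.2]
        have h2 := congrArg f (sig_rel (M := rest M (co a0)) (a := ⟨c, h1.1⟩) (b := ⟨d, h1.2⟩) hcd)
        rw [map_alt, map_alt] at h2
        exact h2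
      · by_cases h2 : c ≠ b0 ∧ d ≠ b0
        · rw [hF2 c h2.1, hF2 d h2.2]
          have h3 := congrArg (g ()) (sig_rel (M := rest M (co b0)) (a := ⟨c, h2.1⟩)
            (b := ⟨d, h2.2⟩) hcd)
          rw [map_alt, map_alt] at h3
          exact h3
        · exfalso
          apply hcd
          have h0' : M b0 a0 = 0 := by rw [M.symmetric]; exact h0
          by_cases hca : c = a0
          · subst hca
            have hdb : d = b0 := by
              by_contra hd
              exact h2 ⟨hab, hd⟩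
            rw [hdb]; exact h0
          · have hda : d = a0 := by
              by_contra hd
              exact h1 ⟨hca, hd⟩
            subst hda
            have hcb : c = b0 := by
              by_contra hc
              exact h2 ⟨hc, hab⟩
            rw [hcb]; exact h0'
    refine ⟨alift F hrel, fun x => ?_, fun j x => ?_⟩
    · have h1 : (alift F hrel).comp (inc M (co a0)) = f := by
        apply aext
        rintro ⟨c, hc⟩
        rw [MonoidHom.comp_apply, inc_sig, alift_sig, hF1 c hc]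
      exact DFunLike.congr_fun h1 x
    · have h1 : (alift F hrel).comp (inc M (co b0)) = g () := by
        apply aext
        rintro ⟨c, hc⟩
        rw [MonoidHom.comp_apply, inc_sig, alift_sig, hF2 c hc]
      exact DFunLike.congr_fun h1 x

end amalg

/-! ## the reduction -/

section main

variable {C : ∀ (G : Type) [Group G], Prop}

theorem art_step (hCP : S_CP) (hFV : S_FV) (hC : ClosedE C)
    (hcox : ∀ (S : Type) (_ : Finite S) (A : CoxeterMatrix S), C A.Group)
    {B : Type} [Finite B] (M : CoxeterMatrix B) {a0 b0 : B} (hab : a0 ≠ b0) (h0 : M a0 b0 = 0)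
    (hA : C (Art (rest M (co a0)))) (hB : C (Art (rest M (co b0)))) : C (Art M) := by
  classical
  -- the tree
  have hsp := isSP M a0 b0 hab h0
  have htree := isTree hsp
  -- the homomorphisms
  have hdet : ∀ (T : Set B), C (Art (rest M T)) → ∀ (g z : Art M),
      ∃ (P : Type) (_ : Group P) (f : ↥((toW M).ker ⊔ Subgroup.zpowers g) →* P), C P ∧
        ∀ h : ↥((toW M).ker ⊔ Subgroup.zpowers g), z⁻¹ * (h : Art M) * z ∈ (inc M T).range →
          f h = 1 → h = 1 := by
    intro T hT g z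
    obtain ⟨X, x0, Ψ, ρ, h1, h2, h3⟩ := hCP B M T
    obtain ⟨P, _, f, hP, hf⟩ := orbit_hom (X := X) (A := Art (rest M T)) (C := C)
      (H := ↥((toW M).ker ⊔ Subgroup.zpowers g)) hFV hC hT
      (Ψ.comp (Subgroup.subtype _)) (ρ (toW M g)) (fun h => by
        obtain ⟨n, hn, y, hy, hh⟩ := Subgroup.mem_sup_of_normal_left.1 h.2
        obtain ⟨k, rfl⟩ := Subgroup.mem_zpowers_iff.1 hy
        refine ⟨k, ?_⟩
        show (Ψ (h : Art M)).p = _
        rw [cp_perm h3, ← hh, map_mul, (MonoidHom.mem_ker.1 hn), one_mul, map_zpow, map_zpow])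
      (fun h => cp_range h2 _) ((Ψ z).p x0)
    refine ⟨P, inferInstance, f, hP, fun h hz hfh => ?_⟩
    obtain ⟨u, hu⟩ := hz
    obtain ⟨h4, h5⟩ := cp_detect h1 z (h : Art M) u hu
    exact Subtype.ext (h5 (hf h h4 hfh))
  have key : ∀ g : Art M, C ↥((toW M).ker ⊔ Subgroup.zpowers g) := by
    intro g
    refine Pool.Agent.N24.TR.tree_local hC htree (fun h u v huv => TT_smul (h : Art M) u v huv)
      fun v => ?_
    rcases v with v | ⟨j, v⟩
    · obtain ⟨z, rfl⟩ := QuotientGroup.mk_surjective v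
      obtain ⟨P, _, f, hP, hf⟩ := hdet (co a0) hA g z
      refine ⟨P, inferInstance, f, hP, fun h hv hfh => hf h ?_ hfh⟩
      have h1 : (h : Art M) • va (inc M (co a0)) (fun _ : Unit => inc M (co b0)) z =
        va (inc M (co a0)) (fun _ : Unit => inc M (co b0)) z := hv
      rw [smul_va, eq_comm, va_eq, ← mul_assoc] at h1
      exact h1
    · obtain ⟨z, rfl⟩ := QuotientGroup.mk_surjective v
      obtain ⟨P, _, f, hP, hf⟩ := hdet (co b0) hB g z
      refine ⟨P, inferInstance, f, hP, fun h hv hfh => hf h ?_ hfh⟩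
      have h1 : (h : Art M) • vb (inc M (co a0)) (fun _ : Unit => inc M (co b0)) j z =
        vb (inc M (co a0)) (fun _ : Unit => inc M (co b0)) j z := hv
      rw [smul_vb, eq_comm, vb_eq, ← mul_assoc] at h1
      exact h1
  refine Pool.Agent.Y529.FJ.t_ext C hC (Art M) (toW M).ker ?_ ?_ (fun g _ => key g)
  · have h1 := key 1
    have h2 : (toW M).ker ⊔ Subgroup.zpowers (1 : Art M) = (toW M).ker := by
      rw [Subgroup.zpowers_one_eq_bot, sup_bot_eq]
    rw [h2] at h1
    exact h1
  · exact Pool.Agent.Y812.SS.C_equiv hC.base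
      (QuotientGroup.quotientKerEquivOfSurjective (toW M) (toW_surjective M))
      (hcox B inferInstance M)

theorem art_fin (hCP : S_CP) (hFV : S_FV) (hC : ClosedE C)
    (hcox : ∀ (S : Type) (_ : Finite S) (A : CoxeterMatrix S), C A.Group) (n : ℕ) :
    ∀ (B : Type) [Finite B] (M : CoxeterMatrix B), Nat.card B = n →
      (∀ T : Set B, (∀ x ∈ T, ∀ y ∈ T, M x y ≠ 0) → C (Art (rest M T))) → C (Art M) := by
  induction n with
  | zero =>
    intro B _ M hB hT
    have hB' : IsEmpty B := by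
      rcases Nat.card_eq_zero.1 hB with h | h
      · exact h
      · exact absurd h (by simpa using ‹Finite B›)
    refine C_rest_equiv (M := M) (M' := rest M Set.univ) hC.base (Equiv.Set.univ B).symm
      (fun _ _ => rfl) (hT _ fun x => (hB'.false x).elim)
  | succ n ih =>
    intro B _ M hB hT
    by_cases hM : ∃ a b, M a b = 0
    · obtain ⟨a, b, h0⟩ := hM
      have hab : a ≠ b := by
        rintro rfl
        rw [M.diagonal] at h0
        exact one_ne_zero h0
      have hsub : ∀ c : B, C (Art (rest M (co c))) := by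
        intro c
        refine ih _ _ ?_ fun T hT' => ?_
        · have h1 : Nat.card (co c) = Nat.card B - 1 := by
            have h2 : (co c) = ({c} : Set B)ᶜ := rfl
            rw [h2, Nat.card_coe_set_eq, Set.ncard_compl, Set.ncard_singleton]
          omega
        · refine C_rest_equiv (M := rest (rest M (co c)) T) (M' := rest M (Subtype.val '' T)) hC.base
            (Equiv.ofBijective (fun x : T => (⟨x.1.1, ⟨x.1, x.2, rfl⟩⟩ : (Subtype.val '' T : Set B)))
              ⟨?_, ?_⟩) (fun _ _ => rfl) (hT _ ?_)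
          · intro x y hxy
            have h1 : x.1.1 = y.1.1 :=
              congrArg (fun z : (Subtype.val '' T : Set B) => z.1) hxy
            exact Subtype.ext (Subtype.ext h1)
          · rintro ⟨_, x, hx, rfl⟩
            exact ⟨⟨x, hx⟩, rfl⟩
          · rintro _ ⟨x, hx, rfl⟩ _ ⟨y, hy, rfl⟩
            exact hT' x hx y hy
      exact art_step hCP hFV hC hcox M hab h0 (hsub a) (hsub b)
    · push Not at hM
      exact C_rest_equiv (M := M) (M' := rest M Set.univ) hC.base (Equiv.Set.univ B).symm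
        (fun _ _ => rfl) (hT _ fun x _ y _ => hM x y)

end main

end Pool.Agent.H73AR
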