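import Pool.Agent.H73AR.Stm2
import Pool.Agent.H73AR.Ext

/-!
# Quotients of Artin groups by even powers of the generators: reduction and extensions
-/

set_option autoImplicit false

namespace Pool.Agent.H73AR

open Pool.Agent.Y110.FJ (ClosedE Realized)
open Pool.Agent.Y462.SS (Closed Wr)
open Pool.Agent.N510.PA (IsSP)
open Pool.Agent.N510.PA.Star (TT va vb smul_va smul_vb va_eq vb_eq isTree TT_smul VV)
open Pool.Agent.N77.GP (MT tt mt_pow mt_one tt_conj)

section lift

variable {B : Type} {M : CoxeterMatrix B} {p : B → ℕ}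

theorem gen_rel {a b : B} (h : M a b ≠ 0) :
    alt (gen M p a) (gen M p b) (M a b) = alt (gen M p b) (gen M p a) (M a b) := by
  have h1 : (PresentedGroup.mk (shRel M p)) (alt (FreeGroup.of a) (FreeGroup.of b) (M a b) *
      (alt (FreeGroup.of b) (FreeGroup.of a) (M a b))⁻¹) = 1 := by
    apply (QuotientGroup.eq_one_iff _).2
    exact Subgroup.subset_normalClosure (Or.inl ⟨a, b, h, rfl⟩)
  rw [map_mul, map_inv, mul_inv_eq_one, map_alt, map_alt] at h1
  exact h1

theorem gen_pow (b : B) : gen M p b ^ p b = 1 := by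
  have h1 : (PresentedGroup.mk (shRel M p)) (FreeGroup.of b ^ p b) = 1 := by
    apply (QuotientGroup.eq_one_iff _).2
    exact Subgroup.subset_normalClosure (Or.inr ⟨b, rfl⟩)
  rw [map_pow] at h1
  exact h1

/-- the universal property -/
def slift {G : Type} [Group G] (f : B → G)
    (h : ∀ a b, M a b ≠ 0 → alt (f a) (f b) (M a b) = alt (f b) (f a) (M a b))
    (hp : ∀ b, f b ^ p b = 1) : Shp M p →* G :=
  PresentedGroup.toGroup (f := f) (by
    rintro r (⟨a, b, hab, rfl⟩ | ⟨b, rfl⟩)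
    · rw [map_mul, map_inv, map_alt, map_alt, FreeGroup.lift_apply_of, FreeGroup.lift_apply_of,
        h a b hab, mul_inv_cancel]
    · rw [map_pow, FreeGroup.lift_apply_of, hp])

theorem slift_gen {G : Type} [Group G] (f : B → G)
    (h : ∀ a b, M a b ≠ 0 → alt (f a) (f b) (M a b) = alt (f b) (f a) (M a b))
    (hp : ∀ b, f b ^ p b = 1) (b : B) :
    slift f h hp (gen M p b) = f b := PresentedGroup.toGroup.of _

theorem sext {G : Type} [Group G] {f g : Shp M p →* G} (h : ∀ b, f (gen M p b) = g (gen M p b)) :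
    f = g := PresentedGroup.ext h

theorem sclosure : Subgroup.closure (Set.range (gen M p)) = ⊤ :=
  PresentedGroup.closure_range_of _

/-- induction -/
theorem sind {P : Shp M p → Prop} (one : P 1) (mul : ∀ b x, P x → P (gen M p b * x))
    (inv_mul : ∀ b x, P x → P ((gen M p b)⁻¹ * x)) (x : Shp M p) : P x := by
  have hx : x ∈ Subgroup.closure (Set.range (gen M p)) := by rw [sclosure]; exact Subgroup.mem_top x
  induction hx using Subgroup.closure_induction_left with
  | one => exact one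
  | mul_left y hy z hz ih =>
    obtain ⟨b, rfl⟩ := hy
    exact mul b z ih
  | inv_mul_cancel y hy z hz ih =>
    obtain ⟨b, rfl⟩ := hy
    exact inv_mul b z ih

end lift

section maps

variable {S T : Type} {M : CoxeterMatrix S} {M' : CoxeterMatrix T} {p : S → ℕ} {p' : T → ℕ}

/-- the homomorphism given by a map which preserves the labels -/
def smap (ι : S → T) (h : ∀ x y, M' (ι x) (ι y) = M x y) (hp : ∀ x, p' (ι x) = p x) :
    Shp M p →* Shp M' p' :=
  slift (fun x => gen M' p' (ι x)) (fun a b hab => by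
    rw [← h] at hab ⊢
    exact gen_rel hab) (fun b => by rw [← hp]; exact gen_pow _)

theorem smap_gen (ι : S → T) (h : ∀ x y, M' (ι x) (ι y) = M x y) (hp : ∀ x, p' (ι x) = p x)
    (x : S) : smap ι h hp (gen M p x) = gen M' p' (ι x) := slift_gen _ _ _ x

/-- the isomorphism given by a bijection which preserves the labels -/
def sequiv (ι : S ≃ T) (h : ∀ x y, M' (ι x) (ι y) = M x y) (hp : ∀ x, p' (ι x) = p x) :
    Shp M p ≃* Shp M' p' :=
  MonoidHom.toMulEquiv (smap ι h hp)
    (smap (M := M') (M' := M) (p := p') (p' := p) ι.symm (fun x y => by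
      rw [← h, ι.apply_symm_apply, ι.apply_symm_apply])
      (fun x => by rw [← hp, ι.apply_symm_apply]))
    (sext fun x => by
      rw [MonoidHom.comp_apply, smap_gen, smap_gen, ι.symm_apply_apply]
      rfl)
    (sext fun x => by
      rw [MonoidHom.comp_apply, smap_gen, smap_gen, ι.apply_symm_apply]
      rfl)

theorem sequiv_gen (ι : S ≃ T) (h : ∀ x y, M' (ι x) (ι y) = M x y) (hp : ∀ x, p' (ι x) = p x)
    (x : S) : sequiv ι h hp (gen M p x) = gen M' p' (ι x) := smap_gen ι h hp x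

end maps

section incl

variable {B : Type} (M : CoxeterMatrix B) (p : B → ℕ)

/-- the canonical homomorphism of a parabolic part -/
def sinc (T : Set B) : Shp (rest M T) (resp p T) →* Shp M p :=
  smap (fun x : T => x.1) (fun _ _ => rfl) (fun _ => rfl)

theorem sinc_gen (T : Set B) (t : T) :
    sinc M p T (gen (rest M T) (resp p T) t) = gen M p t.1 := smap_gen _ _ _ t

variable {p}

/-- the homomorphism to the Coxeter group -/
def stoW (hp : Adm M p) : Shp M p →* M.Group :=
  slift (fun b => M.toCoxeterSystem.simple b) (fun a b _ =>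
    alt_rel (M.toCoxeterSystem.simple_mul_simple_self a) (M.toCoxeterSystem.simple_mul_simple_self b)
      (M.toCoxeterSystem.simple_mul_simple_pow a b)) (fun b => by
    obtain ⟨k, hk⟩ := hp.1 b
    rw [hk, ← two_mul, pow_mul, M.toCoxeterSystem.simple_sq, one_pow])

theorem stoW_gen (hp : Adm M p) (b : B) :
    stoW M hp (gen M p b) = M.toCoxeterSystem.simple b := slift_gen _ _ _ b

theorem stoW_surjective (hp : Adm M p) : Function.Surjective (stoW M hp) := by
  intro w
  induction w using M.toCoxeterSystem.simple_induction_left with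
  | one => exact ⟨1, map_one _⟩
  | mul_simple_left w i ih =>
    obtain ⟨x, rfl⟩ := ih
    exact ⟨gen M p i * x, by rw [map_mul, stoW_gen]⟩

theorem Adm.resp (hp : Adm M p) (T : Set B) : Adm (rest M T) (resp p T) :=
  ⟨fun b => hp.1 b.1, fun a b h => hp.2 a.1 b.1 h⟩

end incl

theorem C_sequiv {C : ∀ (G : Type) [Group G], Prop} (hC : Closed C) {S T : Type}
    {M : CoxeterMatrix S} {M' : CoxeterMatrix T} {p : S → ℕ} {p' : T → ℕ} (ι : S ≃ T)
    (h : ∀ x y, M' (ι x) (ι y) = M x y) (hp : ∀ x, p' (ι x) = p x)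
    (h' : C (Shp M' p')) : C (Shp M p) :=
  hC.of_injective _ _ (sequiv ι h hp).toMonoidHom (sequiv ι h hp).injective h'

/-! ## the homomorphism of Charney and Paris -/

section cp

variable {B X : Type} {M : CoxeterMatrix B} {p : B → ℕ} {T : Set B} {x0 : X}
  {Ψ : Shp M p →* Wr X (Shp (rest M T) (resp p T))}

theorem scp_inc (h1 : ∀ t : T, (Ψ (gen M p t)).p x0 = x0 ∧
    (Ψ (gen M p t)).s x0 = gen (rest M T) (resp p T) t)
    (u : Shp (rest M T) (resp p T)) :
    (Ψ (sinc M p T u)).p x0 = x0 ∧ (Ψ (sinc M p T u)).s x0 = u := by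
  induction u using sind with
  | one =>
    rw [map_one, map_one]
    exact ⟨rfl, rfl⟩
  | mul t x ih =>
    rw [map_mul, map_mul, sinc_gen, Wr.mul_s, Wr.mul_p, Equiv.Perm.mul_apply, ih.1, ih.2, (h1 t).1,
      (h1 t).2]
    exact ⟨rfl, rfl⟩
  | inv_mul t x ih =>
    have h2 := wr_inv_fix (h1 t).1
    rw [map_mul, map_mul, map_inv, map_inv, sinc_gen, Wr.mul_s, Wr.mul_p, Equiv.Perm.mul_apply, ih.1,
      ih.2, h2.1, h2.2, (h1 t).2]
    exact ⟨rfl, rfl⟩

/-- van der Lek's theorem -/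
theorem sinc_injective (hCP : S_CP2) (M : CoxeterMatrix B) {p : B → ℕ} (hp : Adm M p) (T : Set B) :
    Function.Injective (sinc M p T) := by
  obtain ⟨X, x0, Ψ, ρ, h1, -, -⟩ := hCP B M p hp T
  intro u v huv
  rw [← (scp_inc h1 u).2, ← (scp_inc h1 v).2, huv]

theorem scp_detect (h1 : ∀ t : T, (Ψ (gen M p t)).p x0 = x0 ∧
    (Ψ (gen M p t)).s x0 = gen (rest M T) (resp p T) t)
    (z h : Shp M p) (u : Shp (rest M T) (resp p T)) (hu : sinc M p T u = z⁻¹ * h * z) :
    (Ψ h).p ((Ψ z).p x0) = (Ψ z).p x0 ∧ ((Ψ h).s ((Ψ z).p x0) = 1 → h = 1) := by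
  have h2 : Ψ h * Ψ z = Ψ z * Ψ (sinc M p T u) := by
    rw [← map_mul, ← map_mul, hu]
    congr 1
    group
  have h3 := congrArg (fun F => F.p x0) h2
  have h4 := congrFun (congrArg Wr.s h2) x0
  have h5 := scp_inc h1 u
  rw [Wr.mul_s, Wr.mul_s, h5.1, h5.2] at h4
  refine ⟨?_, fun h6 => ?_⟩
  · have h7 : (Ψ h).p ((Ψ z).p x0) = (Ψ z).p ((Ψ (sinc M p T u)).p x0) := h3
    rw [h7, h5.1]
  · rw [h6, one_mul] at h4
    have h7 : u = 1 := by
      have := h4.symm
      rwa [mul_eq_left] at this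
    rw [h7, map_one] at hu
    have h8 : h = z * (z⁻¹ * h * z) * z⁻¹ := by group
    rw [h8, ← hu, mul_one, mul_inv_cancel]

theorem scp_range [Finite B]
    (h2 : ∀ (b : B) (x : X), (Ψ (gen M p b)).s x = 1 ∨
      ∃ t : T, (Ψ (gen M p b)).s x = gen (rest M T) (resp p T) t)
    (h : Shp M p) : (Set.range (Ψ h).s).Finite := by
  classical
  have hgen : ∀ b, (Set.range (Ψ (gen M p b)).s).Finite := by
    intro b
    refine ((Set.finite_range (gen (rest M T) (resp p T))).insert 1).subset ?_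
    rintro _ ⟨x, rfl⟩
    rcases h2 b x with h | ⟨t, h⟩
    · rw [h]; exact Or.inl rfl
    · rw [h]; exact Or.inr ⟨t, rfl⟩
  induction h using sind with
  | one =>
    rw [map_one]
    refine (Set.finite_singleton (1 : Shp (rest M T) (resp p T))).subset ?_
    rintro _ ⟨x, rfl⟩
    rfl
  | mul b x ih =>
    refine ((hgen b).mul ih).subset ?_
    rintro _ ⟨y, rfl⟩
    rw [map_mul, Wr.mul_s]
    exact Set.mul_mem_mul ⟨_, rfl⟩ ⟨_, rfl⟩
  | inv_mul b x ih =>
    refine ((hgen b).inv.mul ih).subset ?_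
    rintro _ ⟨y, rfl⟩
    rw [map_mul, Wr.mul_s, map_inv, Wr.inv_s]
    exact Set.mul_mem_mul (Set.inv_mem_inv.2 ⟨_, rfl⟩) ⟨_, rfl⟩

theorem scp_perm (hp : Adm M p) {ρ : M.Group →* Equiv.Perm X}
    (h3 : ∀ b : B, (Ψ (gen M p b)).p = ρ (M.toCoxeterSystem.simple b)) (h : Shp M p) :
    (Ψ h).p = ρ (stoW M hp h) := by
  let pr : Wr X (Shp (rest M T) (resp p T)) →* Equiv.Perm X :=
    { toFun := fun F => F.p, map_one' := rfl, map_mul' := fun _ _ => rfl }
  have h4 : pr.comp Ψ = ρ.comp (stoW M hp) := by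
    apply sext
    intro b
    show (Ψ (gen M p b)).p = ρ (stoW M hp (gen M p b))
    rw [h3, stoW_gen]
  exact DFunLike.congr_fun h4 h

end cp

/-! ## the amalgamated product -/

section amalg

variable {B : Type} (M : CoxeterMatrix B) (p : B → ℕ) (a0 b0 : B)

/-- the inclusions of the amalgamated part -/
def sk : Shp (rest M (co2 a0 b0)) (resp p (co2 a0 b0)) →* Shp (rest M (co a0)) (resp p (co a0)) :=
  smap (fun x : co2 a0 b0 => (⟨x.1, mem_co1 x⟩ : co a0)) (fun _ _ => rfl) (fun _ => rfl)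

theorem sk_gen (x : co2 a0 b0) : sk M p a0 b0 (gen _ _ x) = gen _ _ ⟨x.1, mem_co1 x⟩ :=
  smap_gen _ _ _ x

/-- the inclusions of the amalgamated part -/
def sl : Shp (rest M (co2 a0 b0)) (resp p (co2 a0 b0)) →* Shp (rest M (co b0)) (resp p (co b0)) :=
  smap (fun x : co2 a0 b0 => (⟨x.1, mem_co2 x⟩ : co b0)) (fun _ _ => rfl) (fun _ => rfl)

theorem sl_gen (x : co2 a0 b0) : sl M p a0 b0 (gen _ _ x) = gen _ _ ⟨x.1, mem_co2 x⟩ :=
  smap_gen _ _ _ x

theorem s_isSP (hab : a0 ≠ b0) (h0 : M a0 b0 = 0) :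
    IsSP (J := Unit) (L := fun _ => Shp (rest M (co b0)) (resp p (co b0)))
      (E := fun _ => Shp (rest M (co2 a0 b0)) (resp p (co2 a0 b0)))
      (fun _ => sk M p a0 b0) (fun _ => sl M p a0 b0) (sinc M p (co a0)) (fun _ => sinc M p (co b0)) := by
  classical
  refine ⟨?_, ?_, ?_⟩
  · intro _ e
    have h1 : (sinc M p (co a0)).comp (sk M p a0 b0) = (sinc M p (co b0)).comp (sl M p a0 b0) := by
      apply sext
      intro x
      rw [MonoidHom.comp_apply, MonoidHom.comp_apply, sk_gen, sl_gen, sinc_gen, sinc_gen]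
    exact DFunLike.congr_fun h1 e
  · rw [eq_top_iff, ← sclosure, Subgroup.closure_le]
    rintro _ ⟨c, rfl⟩
    apply Subgroup.subset_closure
    by_cases hc : c = a0
    · right
      rw [Set.mem_iUnion]
      exact ⟨(), gen _ _ ⟨c, fun h => hab (hc.symm.trans h)⟩, sinc_gen _ _ _ _⟩
    · left
      exact ⟨gen _ _ ⟨c, hc⟩, sinc_gen _ _ _ _⟩
  · intro H _ f g hfg
    have hcompat : ∀ c (h1 : c ≠ a0) (h2 : c ≠ b0),
        f (gen (rest M (co a0)) (resp p (co a0)) ⟨c, h1⟩) =
          g () (gen (rest M (co b0)) (resp p (co b0)) ⟨c, h2⟩) := by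
      intro c h1 h2
      have h3 := hfg () (gen _ _ ⟨c, h1, h2⟩)
      rw [sk_gen, sl_gen] at h3
      exact h3
    let F : B → H := fun c => if h : c ≠ a0 then f (gen (rest M (co a0)) (resp p (co a0)) ⟨c, h⟩)
      else if h' : c ≠ b0 then g () (gen (rest M (co b0)) (resp p (co b0)) ⟨c, h'⟩) else 1
    have hF1 : ∀ c (h : c ≠ a0), F c = f (gen (rest M (co a0)) (resp p (co a0)) ⟨c, h⟩) :=
      fun c h => dif_pos h
    have hF2 : ∀ c (h : c ≠ b0), F c = g () (gen (rest M (co b0)) (resp p (co b0)) ⟨c, h⟩) := by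
      intro c h
      by_cases h' : c ≠ a0
      · rw [hF1 c h', hcompat c h' h]
      · show (if h : c ≠ a0 then _ else _) = _
        rw [dif_neg h', dif_pos h]
    have hpow : ∀ c, F c ^ p c = 1 := by
      intro c
      by_cases hc : c = a0
      · have hcb : c ≠ b0 := fun h => hab (hc.symm.trans h)
        rw [hF2 c hcb, ← map_pow]
        have h2 : gen (rest M (co b0)) (resp p (co b0)) ⟨c, hcb⟩ ^ p c = 1 := gen_pow _
        rw [h2, map_one]
      · rw [hF1 c hc, ← map_pow]
        have h2 : gen (rest M (co a0)) (resp p (co a0)) ⟨c, hc⟩ ^ p c = 1 := gen_pow _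
        rw [h2, map_one]
    have hrel : ∀ c d, M c d ≠ 0 → alt (F c) (F d) (M c d) = alt (F d) (F c) (M c d) := by
      intro c d hcd
      by_cases h1 : c ≠ a0 ∧ d ≠ a0
      · rw [hF1 c h1.1, hF1 d h1.2]
        have h2 := congrArg f (gen_rel (M := rest M (co a0)) (p := resp p (co a0))
          (a := ⟨c, h1.1⟩) (b := ⟨d, h1.2⟩) hcd)
        rw [map_alt, map_alt] at h2
        exact h2
      · by_cases h2 : c ≠ b0 ∧ d ≠ b0
        · rw [hF2 c h2.1, hF2 d h2.2]
          have h3 := congrArg (g ()) (gen_rel (M := rest M (co b0)) (p := resp p (co b0))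
            (a := ⟨c, h2.1⟩) (b := ⟨d, h2.2⟩) hcd)
          rw [map_alt, map_alt] at h3
          exact h3
        · exfalso
          apply hcd
          have h0' : M b0 a0 = 0 := by rw [M.symmetric]; exact h0
          by_cases hca : c = a0
          · subst hca
            have hdb : d = b0 := by
              by_contra hd
              exact h2 ⟨hab, hd⟩
            rw [hdb]; exact h0
          · have hda : d = a0 := by
              by_contra hd
              exact h1 ⟨hca, hd⟩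
            subst hda
            have hcb : c = b0 := by
              by_contra hc
              exact h2 ⟨hc, hab⟩
            rw [hcb]; exact h0'
    refine ⟨slift F hrel hpow, fun x => ?_, fun j x => ?_⟩
    · have h1 : (slift F hrel hpow).comp (sinc M p (co a0)) = f := by
        apply sext
        rintro ⟨c, hc⟩
        rw [MonoidHom.comp_apply, sinc_gen, slift_gen, hF1 c hc]
      exact DFunLike.congr_fun h1 x
    · have h1 : (slift F hrel hpow).comp (sinc M p (co b0)) = g () := by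
        apply sext
        rintro ⟨c, hc⟩
        rw [MonoidHom.comp_apply, sinc_gen, slift_gen, hF2 c hc]
      exact DFunLike.congr_fun h1 x

end amalg

/-! ## the reduction -/

section main

variable {C : ∀ (G : Type) [Group G], Prop}

theorem shp_step (hCP : S_CP2) (hFV : S_FV) (hC : ClosedE C)
    (hcox : ∀ (S : Type) (_ : Finite S) (A : CoxeterMatrix S), C A.Group)
    {B : Type} [Finite B] (M : CoxeterMatrix B) {p : B → ℕ} (hp : Adm M p) {a0 b0 : B}
    (hab : a0 ≠ b0) (h0 : M a0 b0 = 0)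
    (hA : C (Shp (rest M (co a0)) (resp p (co a0)))) (hB : C (Shp (rest M (co b0)) (resp p (co b0)))) :
    C (Shp M p) := by
  classical
  -- the tree
  have hsp := s_isSP M p a0 b0 hab h0
  have htree := isTree hsp
  -- the homomorphisms
  have hdet : ∀ (T : Set B), C (Shp (rest M T) (resp p T)) → ∀ (g z : Shp M p),
      ∃ (P : Type) (_ : Group P) (f : ↥((stoW M hp).ker ⊔ Subgroup.zpowers g) →* P), C P ∧
        ∀ h : ↥((stoW M hp).ker ⊔ Subgroup.zpowers g),
          z⁻¹ * (h : Shp M p) * z ∈ (sinc M p T).range → f h = 1 → h = 1 := by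
    intro T hT g z
    obtain ⟨X, x0, Ψ, ρ, h1, h2, h3⟩ := hCP B M p hp T
    obtain ⟨P, _, f, hP, hf⟩ := orbit_hom (X := X) (A := Shp (rest M T) (resp p T)) (C := C)
      (H := ↥((stoW M hp).ker ⊔ Subgroup.zpowers g)) hFV hC hT
      (Ψ.comp (Subgroup.subtype _)) (ρ (stoW M hp g)) (fun h => by
        obtain ⟨n, hn, y, hy, hh⟩ := Subgroup.mem_sup_of_normal_left.1 h.2
        obtain ⟨k, rfl⟩ := Subgroup.mem_zpowers_iff.1 hy
        refine ⟨k, ?_⟩
        show (Ψ (h : Shp M p)).p = _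
        rw [scp_perm hp h3, ← hh, map_mul, (MonoidHom.mem_ker.1 hn), one_mul, map_zpow, map_zpow])
      (fun h => scp_range h2 _) ((Ψ z).p x0)
    refine ⟨P, inferInstance, f, hP, fun h hz hfh => ?_⟩
    obtain ⟨u, hu⟩ := hz
    obtain ⟨h4, h5⟩ := scp_detect h1 z (h : Shp M p) u hu
    exact Subtype.ext (h5 (hf h h4 hfh))
  have key : ∀ g : Shp M p, C ↥((stoW M hp).ker ⊔ Subgroup.zpowers g) := by
    intro g
    refine Pool.Agent.N24.TR.tree_local hC htree (fun h u v huv => TT_smul (h : Shp M p) u v huv)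
      fun v => ?_
    rcases v with v | ⟨j, v⟩
    · obtain ⟨z, rfl⟩ := QuotientGroup.mk_surjective v
      obtain ⟨P, _, f, hP, hf⟩ := hdet (co a0) hA g z
      refine ⟨P, inferInstance, f, hP, fun h hv hfh => hf h ?_ hfh⟩
      have h1 : (h : Shp M p) • va (sinc M p (co a0)) (fun _ : Unit => sinc M p (co b0)) z =
        va (sinc M p (co a0)) (fun _ : Unit => sinc M p (co b0)) z := hv
      rw [smul_va, eq_comm, va_eq, ← mul_assoc] at h1
      exact h1
    · obtain ⟨z, rfl⟩ := QuotientGroup.mk_surjective v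
      obtain ⟨P, _, f, hP, hf⟩ := hdet (co b0) hB g z
      refine ⟨P, inferInstance, f, hP, fun h hv hfh => hf h ?_ hfh⟩
      have h1 : (h : Shp M p) • vb (sinc M p (co a0)) (fun _ : Unit => sinc M p (co b0)) j z =
        vb (sinc M p (co a0)) (fun _ : Unit => sinc M p (co b0)) j z := hv
      rw [smul_vb, eq_comm, vb_eq, ← mul_assoc] at h1
      exact h1
  refine Pool.Agent.Y529.FJ.t_ext C hC (Shp M p) (stoW M hp).ker ?_ ?_ (fun g _ => key g)
  · have h1 := key 1
    have h2 : (stoW M hp).ker ⊔ Subgroup.zpowers (1 : Shp M p) = (stoW M hp).ker := by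
      rw [Subgroup.zpowers_one_eq_bot, sup_bot_eq]
    rw [h2] at h1
    exact h1
  · exact Pool.Agent.Y812.SS.C_equiv hC.base
      (QuotientGroup.quotientKerEquivOfSurjective (stoW M hp) (stoW_surjective M hp))
      (hcox B inferInstance M)

theorem shp_fin (hCP : S_CP2) (hFV : S_FV) (hC : ClosedE C)
    (hcox : ∀ (S : Type) (_ : Finite S) (A : CoxeterMatrix S), C A.Group) (n : ℕ) :
    ∀ (B : Type) [Finite B] (M : CoxeterMatrix B) (p : B → ℕ), Adm M p → Nat.card B = n →
      (∀ T : Set B, (∀ x ∈ T, ∀ y ∈ T, M x y ≠ 0) → C (Shp (rest M T) (resp p T))) →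
      C (Shp M p) := by
  induction n with
  | zero =>
    intro B _ M p _ hB hT
    have hB' : IsEmpty B := by
      rcases Nat.card_eq_zero.1 hB with h | h
      · exact h
      · exact absurd h (by simpa using ‹Finite B›)
    exact C_sequiv (M := M) (p := p) (M' := rest M Set.univ) (p' := resp p Set.univ) hC.base
      (Equiv.Set.univ B).symm (fun _ _ => rfl) (fun _ => rfl) (hT _ fun x => (hB'.false x).elim)
  | succ n ih =>
    intro B _ M p hp hB hT
    by_cases hM : ∃ a b, M a b = 0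
    · obtain ⟨a, b, h0⟩ := hM
      have hab : a ≠ b := by
        rintro rfl
        rw [M.diagonal] at h0
        exact one_ne_zero h0
      have hsub : ∀ c : B, C (Shp (rest M (co c)) (resp p (co c))) := by
        intro c
        refine ih _ _ _ (Adm.resp M hp _) ?_ fun T hT' => ?_
        · have h1 : Nat.card (co c) = Nat.card B - 1 := by
            have h2 : (co c) = ({c} : Set B)ᶜ := rfl
            rw [h2, Nat.card_coe_set_eq, Set.ncard_compl, Set.ncard_singleton]
          omega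
        · refine C_sequiv (M := rest (rest M (co c)) T) (p := resp (resp p (co c)) T)
            (M' := rest M (Subtype.val '' T)) (p' := resp p (Subtype.val '' T)) hC.base
            (Equiv.ofBijective (fun x : T => (⟨x.1.1, ⟨x.1, x.2, rfl⟩⟩ : (Subtype.val '' T : Set B)))
              ⟨?_, ?_⟩) (fun _ _ => rfl) (fun _ => rfl) (hT _ ?_)
          · intro x y hxy
            have h1 : x.1.1 = y.1.1 :=
              congrArg (fun z : (Subtype.val '' T : Set B) => z.1) hxy
            exact Subtype.ext (Subtype.ext h1)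
          · rintro ⟨_, x, hx, rfl⟩
            exact ⟨⟨x, hx⟩, rfl⟩
          · rintro _ ⟨x, hx, rfl⟩ _ ⟨y, hy, rfl⟩
            exact hT' x hx y hy
      exact shp_step hCP hFV hC hcox M hp hab h0 (hsub a) (hsub b)
    · push Not at hM
      exact C_sequiv (M := M) (p := p) (M' := rest M Set.univ) (p' := resp p Set.univ) hC.base
        (Equiv.Set.univ B).symm (fun _ _ => rfl) (fun _ => rfl) (hT _ fun x _ y _ => hM x y)

end main

/-! ## signed diagram automorphisms -/

section auto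

variable {T : Type} {M' : CoxeterMatrix T} {p' : T → ℕ}

theorem pow_sign {G : Type} [Group G] {x : G} {n : ℕ} (h : x ^ n = 1) (s : ℤˣ) :
    (x ^ (s : ℤ)) ^ n = 1 := by
  rw [← zpow_natCast, ← zpow_mul, mul_comm, zpow_mul, zpow_natCast, h, one_zpow]

/-- the homomorphism given by a permutation of the generators and a sign -/
def shautHom (τ : Equiv.Perm T) (hτ : ∀ x y, M' (τ x) (τ y) = M' x y) (hp : ∀ x, p' (τ x) = p' x)
    (s : ℤˣ) : Shp M' p' →* Shp M' p' :=
  slift (fun x => gen M' p' (τ x) ^ (s : ℤ)) (fun a b hab => by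
    rw [← hτ] at hab ⊢
    exact alt_sign (gen_rel hab) s) (fun b => by
    rw [← hp]
    exact pow_sign (gen_pow _) s)

theorem shautHom_gen (τ : Equiv.Perm T) (hτ : ∀ x y, M' (τ x) (τ y) = M' x y)
    (hp : ∀ x, p' (τ x) = p' x) (s : ℤˣ) (x : T) :
    shautHom τ hτ hp s (gen M' p' x) = gen M' p' (τ x) ^ (s : ℤ) := slift_gen _ _ _ x

/-- the automorphism given by a permutation of the generators and a sign -/
def shaut (τ : Equiv.Perm T) (hτ : ∀ x y, M' (τ x) (τ y) = M' x y) (hp : ∀ x, p' (τ x) = p' x)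
    (s : ℤˣ) : MulAut (Shp M' p') :=
  MonoidHom.toMulEquiv (shautHom τ hτ hp s)
    (shautHom τ.symm (fun x y => by
      rw [← hτ, τ.apply_symm_apply, τ.apply_symm_apply]) (fun x => by
      rw [← hp, τ.apply_symm_apply]) s)
    (sext fun x => by
      rw [MonoidHom.comp_apply, shautHom_gen, map_zpow, shautHom_gen, τ.symm_apply_apply, sign_sign]
      rfl)
    (sext fun x => by
      rw [MonoidHom.comp_apply, shautHom_gen, map_zpow, shautHom_gen, τ.apply_symm_apply, sign_sign]
      rfl)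

theorem shaut_gen (τ : Equiv.Perm T) (hτ : ∀ x y, M' (τ x) (τ y) = M' x y)
    (hp : ∀ x, p' (τ x) = p' x) (s : ℤˣ) (x : T) :
    shaut τ hτ hp s (gen M' p' x) = gen M' p' (τ x) ^ (s : ℤ) := shautHom_gen τ hτ hp s x

theorem shaut_pow_gen (τ : Equiv.Perm T) (hτ : ∀ x y, M' (τ x) (τ y) = M' x y)
    (hp : ∀ x, p' (τ x) = p' x) (s : ℤˣ) (k : ℕ)
    (x : T) : (shaut τ hτ hp s ^ k) (gen M' p' x) = gen M' p' ((τ ^ k) x) ^ ((s : ℤ) ^ k) := by
  induction k with
  | zero => simp
  | succ k ih =>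
    rw [pow_succ', MulAut.mul_apply, ih, map_zpow, shaut_gen, ← zpow_mul, pow_succ', pow_succ']
    rfl

theorem C_shaut {C : ∀ (G : Type) [Group G], Prop} (hC : ClosedE C) [Finite T]
    (hW : C (Shp M' p')) (τ : Equiv.Perm T)
    (hτ : ∀ x y, M' (τ x) (τ y) = M' x y) (hp : ∀ x, p' (τ x) = p' x) (s : ℤˣ) :
    C (MT (Shp M' p') (shaut τ hτ hp s)) := by
  have hfin : IsOfFinOrder τ := isOfFinOrder_of_finite τ
  refine mt_pow hC.base (k := orderOf τ * 2) (Nat.mul_pos hfin.orderOf_pos two_pos) ?_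
  have h1 : shaut τ hτ hp s ^ (orderOf τ * 2) = 1 := by
    apply MulEquiv.toMonoidHom_injective
    apply sext
    intro x
    have h := shaut_pow_gen τ hτ hp s (orderOf τ * 2) x
    have h2 : (s : ℤ) ^ (orderOf τ * 2) = 1 := by
      rw [mul_comm, pow_mul]
      rcases Int.units_eq_one_or s with rfl | rfl <;> simp
    have h3 : τ ^ (orderOf τ * 2) = 1 := by rw [pow_mul, pow_orderOf_eq_one, one_pow]
    rw [h3, h2, zpow_one] at h
    exact h
  rw [h1]
  exact mt_one hC.base hW

end auto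

section main

variable {C : ∀ (G : Type) [Group G], Prop}
variable {G B : Type} [Group G] {N : Subgroup G} {M : CoxeterMatrix B} {p : B → ℕ} (e : Shp M p ≃* N)

/-- the subgroup generated by some generators -/
def SJ (J : Set B) : Subgroup G := Subgroup.closure ((fun b => (e (gen M p b) : G)) '' J)

theorem SJ_mono {J J' : Set B} (h : J ⊆ J') : SJ e J ≤ SJ e J' :=
  Subgroup.closure_mono (Set.image_mono h)

theorem sex_supp {x : G} (hx : x ∈ N) : ∃ J : Set B, J.Finite ∧ x ∈ SJ e J := by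
  obtain ⟨y, hy⟩ : ∃ y : Shp M p, (e y : G) = x := ⟨e.symm ⟨x, hx⟩, by rw [e.apply_symm_apply]⟩
  subst hy
  clear hx
  induction y using sind with
  | one => exact ⟨∅, Set.finite_empty, by rw [map_one]; exact one_mem _⟩
  | mul i w ih =>
    obtain ⟨J, hJ, h1⟩ := ih
    refine ⟨insert i J, hJ.insert i, ?_⟩
    have h2 : (e (gen M p i) : G) ∈ SJ e (insert i J) :=
      Subgroup.subset_closure ⟨i, Set.mem_insert i J, rfl⟩
    rw [map_mul, Subgroup.coe_mul]
    exact mul_mem h2 (SJ_mono e (Set.subset_insert i J) h1)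
  | inv_mul i w ih =>
    obtain ⟨J, hJ, h1⟩ := ih
    refine ⟨insert i J, hJ.insert i, ?_⟩
    have h2 : (e (gen M p i) : G) ∈ SJ e (insert i J) :=
      Subgroup.subset_closure ⟨i, Set.mem_insert i J, rfl⟩
    rw [map_mul, map_inv, Subgroup.coe_mul, Subgroup.coe_inv]
    exact mul_mem (inv_mem h2) (SJ_mono e (Set.subset_insert i J) h1)

theorem sex_supp_fin {E : Set G} (hE : E.Finite) (hEN : E ⊆ N) :
    ∃ J : Set B, J.Finite ∧ ∀ x ∈ E, x ∈ SJ e J := by
  induction E, hE using Set.Finite.induction_on with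
  | empty => exact ⟨∅, Set.finite_empty, fun x hx => absurd hx (Set.notMem_empty x)⟩
  | @insert a s _ _ ih =>
    obtain ⟨S, hS, h1⟩ := ih (fun x hx => hEN (Set.mem_insert_of_mem _ hx))
    obtain ⟨S', hS', h2⟩ := sex_supp e (hEN (Set.mem_insert _ _))
    refine ⟨S ∪ S', hS.union hS', fun x hx => ?_⟩
    rcases hx with rfl | hx
    · exact SJ_mono e (Set.subset_union_right : S' ⊆ S ∪ S') h2
    · exact SJ_mono e (Set.subset_union_left : S ⊆ S ∪ S') (h1 x hx)

/-- the group of a finite matrix all of whose parts without label `∞` embed in `M` -/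
theorem C_slocal (hCP : S_CP2) (hFV : S_FV) (hC : ClosedE C)
    (hcox : ∀ (S : Type) (_ : Finite S) (A : CoxeterMatrix S), C A.Group) (hp : Adm M p)
    (hT : ∀ T : Set B, T.Finite → (∀ x ∈ T, ∀ y ∈ T, M x y ≠ 0) → C (Shp (rest M T) (resp p T)))
    {T : Type} [Finite T] (M' : CoxeterMatrix T) (p' : T → ℕ)
    (hM' : ∀ K : Set T, (∀ x ∈ K, ∀ y ∈ K, M' x y ≠ 0) →
      ∃ φ : K → B, Function.Injective φ ∧ (∀ x y : K, M (φ x) (φ y) = M' x y) ∧
        ∀ x : K, p (φ x) = p' x) : C (Shp M' p') ∧ Adm M' p' := by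
  have hadm : Adm M' p' := by
    refine ⟨fun b => ?_, fun a b hab => ?_⟩
    · obtain ⟨φ, -, -, h1⟩ := hM' {b} (by
        rintro x rfl y rfl
        rw [M'.diagonal]
        exact one_ne_zero)
      rw [← h1 ⟨b, rfl⟩]
      exact hp.1 _
    · have h0 : M' a b ≠ 0 := by
        intro h
        rw [h] at hab
        exact absurd hab (by decide)
      have h0' : M' b a ≠ 0 := by rw [M'.symmetric]; exact h0
      obtain ⟨φ, -, h2, h1⟩ := hM' {a, b} (by
        rintro x (rfl | rfl) y (rfl | rfl)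
        · rw [M'.diagonal]; exact one_ne_zero
        · exact h0
        · exact h0'
        · rw [M'.diagonal]; exact one_ne_zero)
      have h3 := h1 ⟨a, Or.inl rfl⟩
      have h4 := h1 ⟨b, Or.inr rfl⟩
      have h5 := h2 ⟨a, Or.inl rfl⟩ ⟨b, Or.inr rfl⟩
      rw [← h3, ← h4]
      exact hp.2 _ _ (by rw [h5]; exact hab)
  refine ⟨?_, hadm⟩
  refine shp_fin hCP hFV hC hcox _ T M' p' hadm rfl fun K hK => ?_
  obtain ⟨φ, hφ, hφM, hφp⟩ := hM' K hK
  refine C_sequiv (M := rest M' K) (p := resp p' K) (M' := rest M (Set.range φ))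
    (p' := resp p (Set.range φ)) hC.base
    (Equiv.ofInjective φ hφ) (fun x y => hφM x y) (fun x => hφp x) (hT _ (Set.finite_range φ) ?_)
  rintro _ ⟨x, rfl⟩ _ ⟨y, rfl⟩
  rw [hφM]
  exact hK x x.2 y y.2

/-- **extensions** -/
theorem shp_main (hCP : S_CP2) (hFV : S_FV) (hEP : S_EP2) (hC : ClosedE C)
    (hcox : ∀ (S : Type) (_ : Finite S) (A : CoxeterMatrix S), C A.Group) (hp : Adm M p)
    (hT : ∀ T : Set B, T.Finite → (∀ x ∈ T, ∀ y ∈ T, M x y ≠ 0) → C (Shp (rest M T) (resp p T)))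
    [N.Normal] (Q : Subgroup G) [MulAction Q B] (ε : Q → ℤˣ) (hNQ : N ⊔ Q = ⊤)
    (hM : ∀ (m : Q) (b b' : B), M (m • b) (m • b') = M b b') (hpQ : ∀ (m : Q) (b : B), p (m • b) = p b)
    (hconj : ∀ (m : Q) (b : B),
      (m : G) * (e (gen M p b) : G) * (m : G)⁻¹ = (e (gen M p (m • b)) : G) ^ (ε m : ℤ))
    (hQ : C (G ⧸ N)) : C G := by
  refine Pool.Agent.R779.FJ.t_crit Pool.Agent.Y529.FJ.t_ext
    (Pool.Agent.Y961.FJ.t_perm Pool.Agent.Y529.FJ.t_ext) C hC G N hQ fun g E hE hEN => ?_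
  have hg : g ∈ N ⊔ Q := by
    rw [hNQ]
    exact Subgroup.mem_top g
  rw [Subgroup.mem_sup_of_normal_left] at hg
  obtain ⟨n, hn, m, hm, hnm⟩ := hg
  obtain ⟨J, hJ, hJE⟩ := sex_supp_fin e (hE.insert n) (Set.insert_subset hn hEN)
  obtain ⟨μ, hμ⟩ : ∃ μ : Equiv.Perm B, ∀ b, μ b = (⟨m, hm⟩ : Q) • b :=
    ⟨MulAction.toPerm (⟨m, hm⟩ : Q), fun _ => rfl⟩
  obtain ⟨s, hs⟩ : ∃ s : ℤˣ, s = ε ⟨m, hm⟩ := ⟨_, rfl⟩
  obtain ⟨T, _, M', p', ι, τ, hι, hιM, hιp, hτ, hτp, hτι, hcl⟩ := hEP B M p μ
    (fun x y => by rw [hμ, hμ]; exact hM _ x y) (fun x => by rw [hμ]; exact hpQ _ x) J hJ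
  obtain ⟨J', hJ'⟩ : ∃ J' : Set B, J' = J ∪ μ '' J := ⟨_, rfl⟩
  rw [← hJ'] at hι hιM hιp
  have hJJ' : ∀ b ∈ J, b ∈ J' := fun b hb => by rw [hJ']; exact Or.inl hb
  have hmJ : ∀ b ∈ J, μ b ∈ J' := fun b hb => by
    rw [hJ']
    exact Or.inr ⟨b, hb, rfl⟩
  obtain ⟨hAM', hadm⟩ := C_slocal hCP hFV hC hcox hp hT M' p' hcl
  have hιM' : ∀ x y : J', M' (ι x.1) (ι y.1) = rest M J' x y := fun x y => hιM x.1 x.2 y.1 y.2
  have hιp' : ∀ x : J', p' (ι x.1) = resp p J' x := fun x => hιp x.1 x.2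
  -- the embeddings of the group of `J'`
  obtain ⟨a, ha⟩ : ∃ a : Shp (rest M J') (resp p J') →* G,
    a = N.subtype.comp (e.toMonoidHom.comp (sinc M p J')) := ⟨_, rfl⟩
  have hainj : Function.Injective a := by
    rw [ha]
    exact Subtype.val_injective.comp (e.injective.comp (sinc_injective hCP M hp J'))
  have has : ∀ b : J', a (gen (rest M J') (resp p J') b) = (e (gen M p b.1) : G) := by
    intro b
    rw [ha, MonoidHom.comp_apply, MonoidHom.comp_apply, sinc_gen]
    rfl
  obtain ⟨β, hβ⟩ : ∃ β : Shp (rest M J') (resp p J') →* Shp M' p',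
    β = smap (fun x : J' => ι x.1) hιM' hιp' := ⟨_, rfl⟩
  have hβs : ∀ b : J', β (gen (rest M J') (resp p J') b) = gen M' p' (ι b) := by
    intro b
    rw [hβ, smap_gen]
  have hβinj : Function.Injective β := by
    have hinj : Function.Injective (fun x : J' => ι x.1) := fun x y hxy =>
      Subtype.ext (hι x.2 y.2 hxy)
    have h1 : β = (sinc M' p' (Set.range fun x : J' => ι x.1)).comp
        (sequiv (M := rest M J') (p := resp p J') (M' := rest M' (Set.range fun x : J' => ι x.1))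
          (p' := resp p' (Set.range fun x : J' => ι x.1))
          (Equiv.ofInjective _ hinj) hιM' hιp').toMonoidHom := by
      apply sext
      intro b
      rw [hβs, MonoidHom.comp_apply]
      have h2 := sequiv_gen (M := rest M J') (p := resp p J')
        (M' := rest M' (Set.range fun x : J' => ι x.1)) (p' := resp p' (Set.range fun x : J' => ι x.1))
          (Equiv.ofInjective _ hinj) hιM' hιp' b
      exact ((congrArg (sinc M' p' (Set.range fun x : J' => ι x.1)) h2).trans (sinc_gen _ _ _ _)).symm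
    rw [h1]
    exact (sinc_injective hCP M' hadm _).comp (MulEquiv.injective _)
  -- conjugation by `m`
  have key : ∀ x ∈ SJ e J, ∃ w w' : Shp (rest M J') (resp p J'), a w = x ∧ a w' = m * x * m⁻¹ ∧
      β w' = shaut τ hτ hτp s (β w) := by
    intro x hx
    induction hx using Subgroup.closure_induction with
    | mem x hx =>
      obtain ⟨b, hb, rfl⟩ := hx
      refine ⟨gen (rest M J') (resp p J') ⟨b, hJJ' b hb⟩,
        gen (rest M J') (resp p J') ⟨μ b, hmJ b hb⟩ ^ (s : ℤ), has _, ?_, ?_⟩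
      · have h1 := hconj ⟨m, hm⟩ b
        rw [← hs, ← hμ] at h1
        rw [map_zpow, has]
        exact h1.symm
      · rw [map_zpow, hβs, hβs, shaut_gen]
        congr 2
        exact (hτι b hb).symm
    | one => exact ⟨1, 1, by simp, by simp, by simp⟩
    | mul x y _ _ hx hy =>
      obtain ⟨w, w', h1, h2, h3⟩ := hx
      obtain ⟨v, v', h4, h5, h6⟩ := hy
      refine ⟨w * v, w' * v', by rw [map_mul, h1, h4], ?_, by rw [map_mul, map_mul, map_mul, h3, h6]⟩
      rw [map_mul, h2, h5]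
      group
    | inv x _ hx =>
      obtain ⟨w, w', h1, h2, h3⟩ := hx
      refine ⟨w⁻¹, w'⁻¹, by rw [map_inv, h1], ?_, by rw [map_inv, map_inv, map_inv, h3]⟩
      rw [map_inv, h2]
      group
  have hES : E ⊆ (a.range : Set G) := by
    intro x hx
    obtain ⟨w, -, h1, -⟩ := key x (hJE x (Set.mem_insert_of_mem n hx))
    exact ⟨w, h1⟩
  have hnS : n ∈ a.range := by
    obtain ⟨w, -, h1, -⟩ := key n (hJE n (Set.mem_insert n E))
    exact ⟨w, h1⟩
  have hmE : ∀ x ∈ E, m * x * m⁻¹ ∈ a.range := by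
    intro x hx
    obtain ⟨w, w', h1, h2, -⟩ := key x (hJE x (Set.mem_insert_of_mem n hx))
    exact ⟨w', h2⟩
  have hsymm : ∀ (w : Shp (rest M J') (resp p J')) (x : G) (hx : x ∈ a.range), a w = x →
      (MonoidHom.ofInjective hainj).symm ⟨x, hx⟩ = w := by
    intro w x hx hw
    rw [MulEquiv.symm_apply_eq]
    apply Subtype.ext
    exact hw.symm
  refine realized_of a.range hnm.symm hES hnS hmE (C_shaut hC hAM' τ hτ hτp s)
    ((Pool.Agent.N77.GP.il (shaut τ hτ hτp s)).comp
      (β.comp (MonoidHom.ofInjective hainj).symm.toMonoidHom)) ?_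
    (tt (shaut τ hτ hτp s)) ?_
  · exact SemidirectProduct.inl_injective.comp
      (hβinj.comp (MonoidHom.ofInjective hainj).symm.injective)
  · intro x hx
    obtain ⟨w, w', h1, h2, h3⟩ := key x (hJE x (Set.mem_insert_of_mem n hx))
    show Pool.Agent.N77.GP.il _ (β ((MonoidHom.ofInjective hainj).symm _)) =
      tt _ * Pool.Agent.N77.GP.il _ (β ((MonoidHom.ofInjective hainj).symm _)) * (tt _)⁻¹
    rw [hsymm w x _ h1, hsymm w' _ _ h2, tt_conj, h3]

end main

end Pool.Agent.H73AR
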